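import Mathlib

/-! Product probabilities for the two stage gadget. -/

namespace H19RP

open Finset

section prod

variable {D V X : Type*} [Fintype D] [DecidableEq D] [DecidableEq V] [DecidableEq X]

/-- Choices (one allowed value per coordinate) that miss every target in `S`. -/
def missSet (A : D → Finset V) (T : D → X → V) (S : Finset X) : Finset (D → V) :=
  (Fintype.piFinset A).filter (fun e => ∀ x ∈ S, ∀ d, e d ≠ T d x)

/-- The fraction of choices that miss every target in `S`. -/
noncomputable def qf (A : D → Finset V) (T : D → X → V) (S : Finset X) : ℝ :=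
  ∏ d, (((A d \ S.image (T d)).card : ℝ) / (A d).card)

theorem card_missSet (A : D → Finset V) (hA : ∀ d, (A d).Nonempty) (T : D → X → V)
    (S : Finset X) :
    ((missSet A T S).card : ℝ) = qf A T S * ((Fintype.piFinset A).card : ℝ) := by
  have h1 : missSet A T S = Fintype.piFinset (fun d => A d \ S.image (T d)) := by
    ext e
    simp only [missSet, Finset.mem_filter, Fintype.mem_piFinset, Finset.mem_sdiff,
      Finset.mem_image, not_exists, not_and]
    constructor
    · rintro ⟨h1, h2⟩ d
      exact ⟨h1 d, fun x hx h => h2 x hx d h.symm⟩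
    · intro h
      exact ⟨fun d => (h d).1, fun x hx d he => (h d).2 x hx he.symm⟩
  rw [h1, Fintype.card_piFinset, Fintype.card_piFinset, qf]
  push_cast
  rw [← Finset.prod_mul_distrib]
  apply Finset.prod_congr rfl
  intro d _
  have : ((A d).card : ℝ) ≠ 0 := by
    have := (hA d).card_pos
    positivity
  field_simp

theorem qf_nonneg (A : D → Finset V) (T : D → X → V) (S : Finset X) : 0 ≤ qf A T S := by
  apply Finset.prod_nonneg
  intro d _
  positivity

theorem qf_mono (A : D → Finset V) (T : D → X → V) {S S' : Finset X} (h : S ⊆ S') :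
    qf A T S' ≤ qf A T S := by
  apply Finset.prod_le_prod
  · intro d _; positivity
  · intro d _
    apply div_le_div_of_nonneg_right _ (by positivity)
    have : A d \ S'.image (T d) ⊆ A d \ S.image (T d) :=
      Finset.sdiff_subset_sdiff (Finset.Subset.refl _) (Finset.image_subset_image h)
    exact_mod_cast Finset.card_le_card this

theorem qf_empty (A : D → Finset V) (hA : ∀ d, (A d).Nonempty) (T : D → X → V) :
    qf A T ∅ = 1 := by
  unfold qf
  apply Finset.prod_eq_one
  intro d _
  have : ((A d).card : ℝ) ≠ 0 := by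
    have := (hA d).card_pos
    positivity
  simp [this]

theorem qf_le_one (A : D → Finset V) (hA : ∀ d, (A d).Nonempty) (T : D → X → V)
    (S : Finset X) : qf A T S ≤ 1 := by
  rw [← qf_empty A hA T]
  exact qf_mono A T (Finset.empty_subset _)

/-- one coordinate of the correlation inequality -/
theorem coord_ineq (N a b u c d K p : ℝ) (hp : 0 < p) (hK : 0 ≤ K) (hKp : 4 * K ≤ p)
    (hN : p ≤ 2 * N) (hu : u = a + b - c) (ha0 : 0 ≤ a) (hb0 : 0 ≤ b) (ha : a ≤ K) (hb : b ≤ K)
    (hd0 : 0 ≤ d) (hda : d ≤ a) (hdb : d ≤ b) (hdc : d ≤ c) :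
    (N - u) * (N - d) ≤ Real.exp (8 * (c - d) / p + 16 * K ^ 2 / p ^ 2) * ((N - a) * (N - b)) := by
  have hNK : 2 * K ≤ N := by linarith
  have hNpos : 0 < N := by linarith
  have h1 : (N - u) * (N - d) ≤ (N - a) * (N - b) + (c - d) * N + K ^ 2 := by
    have h2 : u * d - a * b ≤ K ^ 2 := by
      have h3 : u * d ≤ (a + b) * d := by
        apply mul_le_mul_of_nonneg_right _ hd0
        rw [hu]; linarith [hd0.trans hdc]
      have h4 : (a + b) * d - a * b ≤ a * b := by nlinarith
      have h5 : a * b ≤ K ^ 2 := by nlinarith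
      linarith
    subst hu
    nlinarith
  have h2 : N ^ 2 / 4 ≤ (N - a) * (N - b) := by nlinarith
  have h3 : (c - d) * N + K ^ 2 ≤ (8 * (c - d) / p + 16 * K ^ 2 / p ^ 2) * ((N - a) * (N - b)) := by
    have hcd : 0 ≤ c - d := by linarith
    have h4 : (c - d) * N ≤ 8 * (c - d) / p * (N ^ 2 / 4) := by
      have : 8 * (c - d) / p * (N ^ 2 / 4) = (c - d) * N * (2 * N / p) := by
        field_simp; ring
      rw [this]
      have h5 : 1 ≤ 2 * N / p := by rw [le_div_iff₀ hp]; linarith
      nlinarith [mul_nonneg hcd hNpos.le]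
    have h5 : K ^ 2 ≤ 16 * K ^ 2 / p ^ 2 * (N ^ 2 / 4) := by
      have : 16 * K ^ 2 / p ^ 2 * (N ^ 2 / 4) = K ^ 2 * (2 * N / p) ^ 2 := by
        field_simp; ring
      rw [this]
      have h5 : 1 ≤ 2 * N / p := by rw [le_div_iff₀ hp]; linarith
      have h6 : 1 ≤ (2 * N / p) ^ 2 := by nlinarith
      nlinarith [sq_nonneg K]
    have h6 : (8 * (c - d) / p + 16 * K ^ 2 / p ^ 2) * (N ^ 2 / 4) ≤
        (8 * (c - d) / p + 16 * K ^ 2 / p ^ 2) * ((N - a) * (N - b)) := by
      apply mul_le_mul_of_nonneg_left h2
      positivity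
    linarith
  have h4 := Real.add_one_le_exp (8 * (c - d) / p + 16 * K ^ 2 / p ^ 2)
  have h5 : 0 ≤ (N - a) * (N - b) := le_trans (by positivity) h2
  calc (N - u) * (N - d) ≤ (N - a) * (N - b) + ((c - d) * N + K ^ 2) := by linarith
    _ ≤ (N - a) * (N - b) + (8 * (c - d) / p + 16 * K ^ 2 / p ^ 2) * ((N - a) * (N - b)) := by
        linarith
    _ = (8 * (c - d) / p + 16 * K ^ 2 / p ^ 2 + 1) * ((N - a) * (N - b)) := by ring
    _ ≤ _ := mul_le_mul_of_nonneg_right h4 h5

/-- Correlation inequality for the product measure. -/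
theorem qf_corr (A : D → Finset V) (hA : ∀ d, (A d).Nonempty) (T : D → X → V)
    (K p g : ℕ) (hp : 0 < p) (hKp : 4 * K ≤ p) (hD : Fintype.card D = g * p)
    (hagree : ∀ x x' : X, x ≠ x' → (univ.filter (fun d => T d x = T d x')).card ≤ g)
    (hN : ∀ d x, T d x ∈ A d → p ≤ 2 * (A d).card)
    (S S' : Finset X) (hS : S.card ≤ K) (hS' : S'.card ≤ K) :
    qf A T (S ∪ S') * qf A T (S ∩ S') ≤
      Real.exp (24 * g * (K : ℝ) ^ 2 / p) * (qf A T S * qf A T S') := by
  classical
  have hpR : (0 : ℝ) < p := by exact_mod_cast hp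
  -- notation per coordinate
  let α : D → Finset V := fun d => A d ∩ S.image (T d)
  let β : D → Finset V := fun d => A d ∩ S'.image (T d)
  let γ : D → Finset V := fun d => A d ∩ (S ∩ S').image (T d)
  have hγα : ∀ d, γ d ⊆ α d := fun d => Finset.inter_subset_inter (Finset.Subset.refl _)
    (Finset.image_subset_image Finset.inter_subset_left)
  have hγβ : ∀ d, γ d ⊆ β d := fun d => Finset.inter_subset_inter (Finset.Subset.refl _)
    (Finset.image_subset_image Finset.inter_subset_right)
  have hcardα : ∀ d, ((α d).card : ℝ) ≤ K := by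
    intro d
    have h1 : (α d).card ≤ (S.image (T d)).card := Finset.card_le_card Finset.inter_subset_right
    have h2 : (S.image (T d)).card ≤ S.card := Finset.card_image_le
    exact_mod_cast (h1.trans h2).trans hS
  have hcardβ : ∀ d, ((β d).card : ℝ) ≤ K := by
    intro d
    have h1 : (β d).card ≤ (S'.image (T d)).card := Finset.card_le_card Finset.inter_subset_right
    have h2 : (S'.image (T d)).card ≤ S'.card := Finset.card_image_le
    exact_mod_cast (h1.trans h2).trans hS'
  have hsd : ∀ (d : D) (R : Finset X), ((A d \ R.image (T d)).card : ℝ) =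
      (A d).card - (A d ∩ R.image (T d)).card := by
    intro d R
    have := Finset.card_sdiff_add_card_inter (A d) (R.image (T d))
    have h2 : ((A d \ R.image (T d)).card : ℝ) + ((A d ∩ R.image (T d)).card : ℝ) = (A d).card := by
      exact_mod_cast this
    linarith
  have hunion : ∀ d, A d ∩ (S ∪ S').image (T d) = α d ∪ β d := by
    intro d
    rw [Finset.image_union, Finset.inter_union_distrib_left]
  -- coordinatewise inequality
  have hcoord : ∀ d, (((A d \ (S ∪ S').image (T d)).card : ℝ) / (A d).card) *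
      (((A d \ (S ∩ S').image (T d)).card : ℝ) / (A d).card) ≤
      Real.exp (8 * (((α d ∩ β d).card : ℝ) - (γ d).card) / p + 16 * (K : ℝ) ^ 2 / (p : ℝ) ^ 2) *
      ((((A d \ S.image (T d)).card : ℝ) / (A d).card) *
      (((A d \ S'.image (T d)).card : ℝ) / (A d).card)) := by
    intro d
    have hNpos : (0 : ℝ) < (A d).card := by
      have := (hA d).card_pos
      exact_mod_cast this
    have hinner : ((A d \ (S ∪ S').image (T d)).card : ℝ) * ((A d \ (S ∩ S').image (T d)).card : ℝ) ≤
        Real.exp (8 * (((α d ∩ β d).card : ℝ) - (γ d).card) / p + 16 * (K : ℝ) ^ 2 / (p : ℝ) ^ 2) *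
        (((A d \ S.image (T d)).card : ℝ) * ((A d \ S'.image (T d)).card : ℝ)) := by
      rw [hsd, hsd, hsd, hsd, hunion]
      by_cases hne : ∃ x, T d x ∈ A d
      · obtain ⟨x, hx⟩ := hne
        have hN' : (p : ℝ) ≤ 2 * (A d).card := by exact_mod_cast hN d x hx
        have hcu : ((α d ∪ β d).card : ℝ) = (α d).card + (β d).card - (α d ∩ β d).card := by
          have := Finset.card_union_add_card_inter (α d) (β d)
          have h2 : ((α d ∪ β d).card : ℝ) + (α d ∩ β d).card = (α d).card + (β d).card := by
            exact_mod_cast this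
          linarith
        apply coord_ineq _ _ _ _ _ _ (K : ℝ) (p : ℝ) hpR (by positivity)
          (by exact_mod_cast hKp) hN' hcu (by positivity) (by positivity) (hcardα d) (hcardβ d)
          (by positivity)
        · exact_mod_cast Finset.card_le_card (hγα d)
        · exact_mod_cast Finset.card_le_card (hγβ d)
        · exact_mod_cast Finset.card_le_card (Finset.subset_inter (hγα d) (hγβ d))
      · have he : ∀ R : Finset X, A d ∩ R.image (T d) = ∅ := by
          intro R
          rw [Finset.eq_empty_iff_forall_notMem]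
          intro v hv
          rw [Finset.mem_inter, Finset.mem_image] at hv
          obtain ⟨hv1, x, _, rfl⟩ := hv
          exact hne ⟨x, hv1⟩
        have h1 : α d = ∅ := he S
        have h2 : β d = ∅ := he S'
        have h3 : γ d = ∅ := he (S ∩ S')
        rw [he, he, he, h1, h2, h3]
        simp only [Finset.union_empty, Finset.card_empty, Nat.cast_zero, sub_zero,
          Finset.inter_empty, mul_zero, zero_div, zero_add]
        have h4 : 1 ≤ Real.exp (16 * (K : ℝ) ^ 2 / (p : ℝ) ^ 2) := by
          apply Real.one_le_exp; positivity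
        have h5 : 0 ≤ ((A d).card : ℝ) * (A d).card := by positivity
        nlinarith
    rw [div_mul_div_comm, div_mul_div_comm, ← mul_div_assoc]
    exact div_le_div_of_nonneg_right hinner (by positivity)
  -- sum of the exponents
  have hsum : ∑ d, (((α d ∩ β d).card : ℝ) - (γ d).card) ≤ g * (K : ℝ) ^ 2 := by
    have h1 : ∀ d, (α d ∩ β d).card ≤ (γ d).card +
        ((S ×ˢ S').filter (fun y => y.1 ≠ y.2 ∧ T d y.1 = T d y.2)).card := by
      intro d
      have h2 : (α d ∩ β d) ⊆ γ d ∪
          ((S ×ˢ S').filter (fun y => y.1 ≠ y.2 ∧ T d y.1 = T d y.2)).image (fun y => T d y.1) := by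
        intro v hv
        simp only [α, β, Finset.mem_inter, Finset.mem_image] at hv
        obtain ⟨⟨hvA, x, hx, hxv⟩, -, x', hx', hxv'⟩ := hv
        by_cases hxx : x = x'
        · subst hxx
          apply Finset.mem_union_left
          simp only [γ, Finset.mem_inter, Finset.mem_image]
          exact ⟨hvA, x, ⟨hx, hx'⟩, hxv⟩
        · apply Finset.mem_union_right
          rw [Finset.mem_image]
          refine ⟨(x, x'), ?_, hxv⟩
          rw [Finset.mem_filter, Finset.mem_product]
          exact ⟨⟨hx, hx'⟩, hxx, by simp [hxv, hxv']⟩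
      calc (α d ∩ β d).card ≤ _ := Finset.card_le_card h2
        _ ≤ _ := Finset.card_union_le _ _
        _ ≤ _ := Nat.add_le_add_left Finset.card_image_le _
    have h2 : ∑ d, ((S ×ˢ S').filter (fun y => y.1 ≠ y.2 ∧ T d y.1 = T d y.2)).card ≤ g * K ^ 2 := by
      simp_rw [Finset.card_filter]
      rw [Finset.sum_comm]
      calc ∑ y ∈ S ×ˢ S', ∑ d, (if y.1 ≠ y.2 ∧ T d y.1 = T d y.2 then 1 else 0)
          ≤ ∑ y ∈ S ×ˢ S', g := by
            apply Finset.sum_le_sum
            intro y _
            by_cases hy : y.1 = y.2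
            · simp [hy]
            · have := hagree y.1 y.2 hy
              rw [Finset.card_filter] at this
              simpa [hy] using this
        _ = (S.card * S'.card) * g := by
            rw [Finset.sum_const, Finset.card_product, smul_eq_mul]
        _ ≤ g * K ^ 2 := by
            have : S.card * S'.card ≤ K * K := Nat.mul_le_mul hS hS'
            nlinarith
    have h3 : ∀ d, ((α d ∩ β d).card : ℝ) - (γ d).card ≤
        (((S ×ˢ S').filter (fun y => y.1 ≠ y.2 ∧ T d y.1 = T d y.2)).card : ℝ) := by
      intro d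
      have := h1 d
      have h4 : ((α d ∩ β d).card : ℝ) ≤ (γ d).card +
        (((S ×ˢ S').filter (fun y => y.1 ≠ y.2 ∧ T d y.1 = T d y.2)).card : ℝ) := by
        exact_mod_cast this
      linarith
    calc ∑ d, (((α d ∩ β d).card : ℝ) - (γ d).card) ≤
        ∑ d, (((S ×ˢ S').filter (fun y => y.1 ≠ y.2 ∧ T d y.1 = T d y.2)).card : ℝ) :=
          Finset.sum_le_sum (fun d _ => h3 d)
      _ ≤ g * (K : ℝ) ^ 2 := by exact_mod_cast h2
  calc qf A T (S ∪ S') * qf A T (S ∩ S')
      = ∏ d, ((((A d \ (S ∪ S').image (T d)).card : ℝ) / (A d).card) *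
      (((A d \ (S ∩ S').image (T d)).card : ℝ) / (A d).card)) := by
        rw [qf, qf, ← Finset.prod_mul_distrib]
    _ ≤ ∏ d, (Real.exp (8 * (((α d ∩ β d).card : ℝ) - (γ d).card) / p + 16 * (K : ℝ) ^ 2 / (p : ℝ) ^ 2) *
      ((((A d \ S.image (T d)).card : ℝ) / (A d).card) *
      (((A d \ S'.image (T d)).card : ℝ) / (A d).card))) := by
        apply Finset.prod_le_prod
        · intro d _; positivity
        · intro d _; exact hcoord d
    _ = Real.exp (∑ d, (8 * (((α d ∩ β d).card : ℝ) - (γ d).card) / p + 16 * (K : ℝ) ^ 2 / (p : ℝ) ^ 2))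
        * (qf A T S * qf A T S') := by
        rw [Finset.prod_mul_distrib, ← Real.exp_sum, Finset.prod_mul_distrib, qf, qf]
    _ ≤ Real.exp (24 * g * (K : ℝ) ^ 2 / p) * (qf A T S * qf A T S') := by
        apply mul_le_mul_of_nonneg_right _ (mul_nonneg (qf_nonneg _ _ _) (qf_nonneg _ _ _))
        apply Real.exp_le_exp.mpr
        rw [Finset.sum_add_distrib, Finset.sum_const, Finset.card_univ, hD]
        have h1 : ∑ d, 8 * (((α d ∩ β d).card : ℝ) - (γ d).card) / p =
            8 / p * ∑ d, (((α d ∩ β d).card : ℝ) - (γ d).card) := by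
          rw [Finset.mul_sum]
          apply Finset.sum_congr rfl
          intro d _; ring
        rw [h1]
        have h2 : 8 / (p : ℝ) * ∑ d, (((α d ∩ β d).card : ℝ) - (γ d).card) ≤
            8 / p * (g * (K : ℝ) ^ 2) := mul_le_mul_of_nonneg_left hsum (by positivity)
        have h3 : (g * p) • (16 * (K : ℝ) ^ 2 / (p : ℝ) ^ 2) = 16 * g * (K : ℝ) ^ 2 / p := by
          rw [nsmul_eq_mul]; push_cast
          field_simp
        rw [h3]
        calc 8 / (p : ℝ) * ∑ d, (((α d ∩ β d).card : ℝ) - (γ d).card) + 16 * g * (K : ℝ) ^ 2 / p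
            ≤ 8 / p * (g * (K : ℝ) ^ 2) + 16 * g * (K : ℝ) ^ 2 / p := by linarith
          _ = 24 * g * (K : ℝ) ^ 2 / p := by ring

/-- Lower bound for the miss fraction of a small set. -/
theorem qf_lower (A : D → Finset V) (hA : ∀ d, (A d).Nonempty) (T : D → X → V)
    (K p g : ℕ) (hp : 0 < p) (hKp : 4 * K ≤ p) (hD : Fintype.card D = g * p)
    (hN : ∀ d x, T d x ∈ A d → p ≤ 2 * (A d).card)
    (S : Finset X) (hS : S.card ≤ K) :
    Real.exp (-(4 * K * g)) ≤ qf A T S := by
  classical
  have hpR : (0 : ℝ) < p := by exact_mod_cast hp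
  have hKpR : 4 * (K : ℝ) ≤ p := by exact_mod_cast hKp
  have h1 : ∀ d, Real.exp (-(4 * K / p)) ≤ ((A d \ S.image (T d)).card : ℝ) / (A d).card := by
    intro d
    have hNpos : (0 : ℝ) < (A d).card := by
      have := (hA d).card_pos
      exact_mod_cast this
    by_cases hne : ∃ x ∈ S, T d x ∈ A d
    · obtain ⟨x, _, hx⟩ := hne
      have hN' : (p : ℝ) ≤ 2 * (A d).card := by exact_mod_cast hN d x hx
      have h2 : ((A d).card : ℝ) ≤ (A d \ S.image (T d)).card + K := by
        have h3 := Finset.card_sdiff_add_card_inter (A d) (S.image (T d))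
        have h4 : (A d ∩ S.image (T d)).card ≤ K :=
          ((Finset.card_le_card Finset.inter_subset_right).trans Finset.card_image_le).trans hS
        have h5 : (A d).card ≤ (A d \ S.image (T d)).card + K := by omega
        exact_mod_cast h5
      have h3 : 1 - 2 * K / (p : ℝ) ≤ ((A d \ S.image (T d)).card : ℝ) / (A d).card := by
        rw [le_div_iff₀ hNpos]
        have : (2 * (K : ℝ) / p) * (A d).card ≥ K := by
          rw [ge_iff_le, div_mul_eq_mul_div, le_div_iff₀ hpR]
          nlinarith
        linarith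
      refine le_trans ?_ h3
      have hy : 2 * (K : ℝ) / p ≤ 1 / 2 := by
        rw [div_le_iff₀ hpR]; linarith
      have hy0 : 0 ≤ 2 * (K : ℝ) / p := by positivity
      set y := 2 * (K : ℝ) / p with hydef
      have h4 : -(4 * (K : ℝ) / p) = -(2 * y) := by rw [hydef]; ring
      rw [h4, Real.exp_neg]
      have h5 : 1 + 2 * y ≤ Real.exp (2 * y) := by
        have := Real.add_one_le_exp (2 * y); linarith
      have h6 : 0 < 1 + 2 * y := by linarith
      calc (Real.exp (2 * y))⁻¹ ≤ (1 + 2 * y)⁻¹ := inv_anti₀ h6 h5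
        _ ≤ 1 - y := by
          rw [inv_le_iff_one_le_mul₀ h6]
          nlinarith
    · have he : A d \ S.image (T d) = A d := by
        rw [Finset.sdiff_eq_self_iff_disjoint, Finset.disjoint_left]
        intro v hv hv2
        rw [Finset.mem_image] at hv2
        obtain ⟨x, hx, rfl⟩ := hv2
        exact hne ⟨x, hx, hv⟩
      rw [he, div_self hNpos.ne']
      rw [Real.exp_le_one_iff]
      have : 0 ≤ 4 * (K : ℝ) / p := by positivity
      linarith
  calc Real.exp (-(4 * K * g)) = ∏ _d : D, Real.exp (-(4 * K / p)) := by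
        rw [Finset.prod_const, Finset.card_univ, hD, ← Real.exp_nat_mul]
        congr 1
        push_cast
        field_simp
    _ ≤ qf A T S := by
        apply Finset.prod_le_prod
        · intro d _; positivity
        · intro d _; exact h1 d

/-- Upper bound for the miss fraction of one target hit in many coordinates. -/
theorem qf_single (A : D → Finset V) (hA : ∀ d, (A d).Nonempty) (T : D → X → V)
    (p : ℕ) (hp : 0 < p) (hAp : ∀ d, (A d).card ≤ p) (x : X) (c : ℝ)
    (hx : c * p ≤ ((univ.filter (fun d => T d x ∈ A d)).card : ℝ)) :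
    qf A T {x} ≤ Real.exp (-c) := by
  classical
  have hpR : (0 : ℝ) < p := by exact_mod_cast hp
  have h1 : ∀ d, ((A d \ ({x} : Finset X).image (T d)).card : ℝ) / (A d).card ≤
      Real.exp (-(if T d x ∈ A d then 1 / (p : ℝ) else 0)) := by
    intro d
    have hNpos : (0 : ℝ) < (A d).card := by
      have := (hA d).card_pos
      exact_mod_cast this
    split_ifs with h
    · have h2 : ((A d \ ({x} : Finset X).image (T d)).card : ℝ) = (A d).card - 1 := by
        rw [Finset.image_singleton, Finset.sdiff_singleton_eq_erase, Finset.card_erase_of_mem h]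
        rw [Nat.cast_sub (hA d).card_pos]; simp
      rw [h2]
      have h3 : (((A d).card : ℝ) - 1) / (A d).card = 1 - 1 / (A d).card := by
        field_simp
      rw [h3]
      have h4 : 1 / (p : ℝ) ≤ 1 / ((A d).card : ℝ) := by
        apply one_div_le_one_div_of_le hNpos
        exact_mod_cast hAp d
      have h5 := Real.add_one_le_exp (-(1 / (p : ℝ)))
      linarith
    · rw [neg_zero, Real.exp_zero, div_le_one hNpos]
      exact_mod_cast Finset.card_le_card Finset.sdiff_subset
  calc qf A T {x} ≤ ∏ d, Real.exp (-(if T d x ∈ A d then 1 / (p : ℝ) else 0)) := by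
        apply Finset.prod_le_prod
        · intro d _; positivity
        · intro d _; exact h1 d
    _ = Real.exp (-(((univ.filter (fun d => T d x ∈ A d)).card : ℝ) / p)) := by
        rw [← Real.exp_sum, Finset.sum_neg_distrib, ← Finset.sum_filter, Finset.sum_const,
          nsmul_eq_mul, mul_one_div]
    _ ≤ Real.exp (-c) := by
        apply Real.exp_le_exp.mpr
        have : c ≤ ((univ.filter (fun d => T d x ∈ A d)).card : ℝ) / p := by
          rw [le_div_iff₀ hpR]; exact hx
        linarith

end prod

end H19RP
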