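import Mathlib

/-! Rounding lemma: derandomised choice of one value per coordinate. -/

namespace H19RP

open Finset

/-- If every coordinate `i` carries weights `w i v ≥ 0` of total at most `1`, and every target
`x` is hit at coordinate `i` by the values in `T x i`, then some choice of (at most) one value per
coordinate misses total mass at most the expected one. -/
theorem rounding {ι V X : Type*} [Fintype ι] [DecidableEq ι] [DecidableEq V]
    (A : ι → Finset V) (w : ι → V → ℝ) (hw : ∀ i, ∀ v ∈ A i, 0 ≤ w i v)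
    (hw1 : ∀ i, ∑ v ∈ A i, w i v ≤ 1)
    (Xs : Finset X) (T : X → ι → Finset V) :
    ∃ e : ι → Option V, (∀ i v, e i = some v → v ∈ A i) ∧
      ((Xs.filter (fun x => ∀ i, ∀ v ∈ T x i, e i ≠ some v)).card : ℝ) ≤
        ∑ x ∈ Xs, ∏ i, (1 - ∑ v ∈ A i ∩ T x i, w i v) := by
  classical
  -- extended weights on `Option V`
  let B : ι → Finset (Option V) := fun i => Finset.insertNone (A i)
  let u : ι → Option V → ℝ := fun i o => o.elim (1 - ∑ v ∈ A i, w i v) (w i)
  have hu0 : ∀ i, ∀ o ∈ B i, 0 ≤ u i o := by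
    intro i o ho
    cases o with
    | none => simpa [u] using hw1 i
    | some v => exact hw i v (by simpa [B] using ho)
  have hu1 : ∀ i, ∑ o ∈ B i, u i o = 1 := by
    intro i
    simp [B, u, Finset.sum_insertNone]
  -- missing sets
  let M : X → ι → Finset (Option V) := fun x i => (B i).filter (fun o => ∀ v ∈ T x i, o ≠ some v)
  have hM : ∀ x i, ∑ o ∈ M x i, u i o = 1 - ∑ v ∈ A i ∩ T x i, w i v := by
    intro x i
    have h1 : ∑ o ∈ B i, u i o = ∑ o ∈ M x i, u i o
        + ∑ o ∈ (B i).filter (fun o => ¬ ∀ v ∈ T x i, o ≠ some v), u i o :=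
      (Finset.sum_filter_add_sum_filter_not _ _ _).symm
    have h2 : (B i).filter (fun o => ¬ ∀ v ∈ T x i, o ≠ some v) =
        (A i ∩ T x i).map Function.Embedding.some := by
      ext o
      simp only [B, Finset.mem_filter, Finset.mem_map, Finset.mem_inter,
        Function.Embedding.some_apply, not_forall, not_not]
      constructor
      · rintro ⟨ho, v, hv, rfl⟩
        exact ⟨v, ⟨by simpa using ho, hv⟩, rfl⟩
      · rintro ⟨v, ⟨hv1, hv2⟩, rfl⟩
        exact ⟨by simpa using hv1, v, hv2, rfl⟩
    have h3 : ∑ o ∈ (A i ∩ T x i).map Function.Embedding.some, u i o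
        = ∑ v ∈ A i ∩ T x i, w i v := by
      rw [Finset.sum_map]
      rfl
    rw [h2, h3, hu1] at h1
    linarith
  -- expectation over the product
  let P : (ι → Option V) → ℝ := fun e => ∏ i, u i (e i)
  have hP0 : ∀ e ∈ Fintype.piFinset B, 0 ≤ P e := by
    intro e he
    exact Finset.prod_nonneg (fun i _ => hu0 i _ (Fintype.mem_piFinset.mp he i))
  have hP1 : ∑ e ∈ Fintype.piFinset B, P e = 1 := by
    have := Finset.prod_univ_sum B (fun i o => u i o)
    simp only [hu1, Finset.prod_const_one] at this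
    exact this.symm
  have key : ∑ e ∈ Fintype.piFinset B,
      P e * ((Xs.filter (fun x => ∀ i, ∀ v ∈ T x i, e i ≠ some v)).card : ℝ)
      = ∑ x ∈ Xs, ∏ i, (1 - ∑ v ∈ A i ∩ T x i, w i v) := by
    have h1 : ∀ e : ι → Option V,
        ((Xs.filter (fun x => ∀ i, ∀ v ∈ T x i, e i ≠ some v)).card : ℝ)
        = ∑ x ∈ Xs, if (∀ i, ∀ v ∈ T x i, e i ≠ some v) then (1:ℝ) else 0 := by
      intro e
      rw [Finset.card_filter]
      push_cast
      rfl
    simp_rw [h1, Finset.mul_sum]
    rw [Finset.sum_comm]
    apply Finset.sum_congr rfl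
    intro x _
    simp_rw [← hM]
    rw [Finset.prod_univ_sum]
    have h2 : Fintype.piFinset (M x) = (Fintype.piFinset B).filter
        (fun e => ∀ i, ∀ v ∈ T x i, e i ≠ some v) := by
      ext e
      simp only [M, Fintype.mem_piFinset, Finset.mem_filter]
      exact ⟨fun h => ⟨fun i => (h i).1, fun i => (h i).2⟩, fun h i => ⟨h.1 i, h.2 i⟩⟩
    rw [h2, Finset.sum_filter]
    apply Finset.sum_congr rfl
    intro e _
    split_ifs <;> simp [P]
  -- some outcome is at most the average
  by_contra hcon
  push Not at hcon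
  have hlt : ∑ e ∈ Fintype.piFinset B,
      P e * (∑ x ∈ Xs, ∏ i, (1 - ∑ v ∈ A i ∩ T x i, w i v)) <
      ∑ e ∈ Fintype.piFinset B,
      P e * ((Xs.filter (fun x => ∀ i, ∀ v ∈ T x i, e i ≠ some v)).card : ℝ) := by
    have hpos : ∃ e ∈ Fintype.piFinset B, 0 < P e := by
      by_contra hno
      push Not at hno
      have : ∑ e ∈ Fintype.piFinset B, P e ≤ 0 := Finset.sum_nonpos hno
      linarith
    apply Finset.sum_lt_sum
    · intro e he
      apply mul_le_mul_of_nonneg_left _ (hP0 e he)
      apply le_of_lt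
      apply hcon e
      intro i v hiv
      have := Fintype.mem_piFinset.mp he i
      rw [hiv] at this
      simpa [B] using this
    · obtain ⟨e, he, hpe⟩ := hpos
      refine ⟨e, he, ?_⟩
      apply mul_lt_mul_of_pos_left _ hpe
      apply hcon e
      intro i v hiv
      have := Fintype.mem_piFinset.mp he i
      rw [hiv] at this
      simpa [B] using this
  rw [key, ← Finset.sum_mul, hP1, one_mul] at hlt
  exact lt_irrefl _ hlt

end H19RP
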