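import Mathlib
import Pool.Agent.H19.RPGadgetA
import Pool.Agent.H19.RPRounding

/-! The two stage covering argument. -/

namespace H19RP

open Finset

section moments

variable {D V X J : Type*} [Fintype D] [DecidableEq D] [DecidableEq V] [DecidableEq X]

theorem missSet_union (A : D → Finset V) (T : D → X → V) (S S' : Finset X) (e : D → V) :
    e ∈ missSet A T (S ∪ S') ↔ e ∈ missSet A T S ∧ e ∈ missSet A T S' := by
  simp only [missSet, Finset.mem_filter, Finset.mem_union]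
  constructor
  · rintro ⟨h1, h2⟩
    exact ⟨⟨h1, fun x hx => h2 x (Or.inl hx)⟩, h1, fun x hx => h2 x (Or.inr hx)⟩
  · rintro ⟨⟨h1, h2⟩, -, h3⟩
    refine ⟨h1, ?_⟩
    rintro x (hx | hx)
    · exact h2 x hx
    · exact h3 x hx

/-- Normalised sum of indicators. -/
noncomputable def Usum (A : D → Finset V) (T : D → X → V) (Js : Finset J) (S : J → Finset X)
    (e : D → V) : ℝ :=
  ∑ j ∈ Js, if e ∈ missSet A T (S j) then 1 / qf A T (S j) else 0

theorem Usum_nonneg (A : D → Finset V) (T : D → X → V) (Js : Finset J) (S : J → Finset X)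
    (e : D → V) : 0 ≤ Usum A T Js S e := by
  apply Finset.sum_nonneg
  intro j _
  split_ifs
  · exact one_div_nonneg.mpr (qf_nonneg _ _ _)
  · exact le_refl _

theorem sum_ind (A : D → Finset V) (hA : ∀ d, (A d).Nonempty) (T : D → X → V) (S : Finset X)
    (c : ℝ) :
    ∑ e ∈ Fintype.piFinset A, (if e ∈ missSet A T S then c else 0) =
      qf A T S * ((Fintype.piFinset A).card : ℝ) * c := by
  rw [← card_missSet A hA, ← Finset.sum_filter, Finset.sum_const, nsmul_eq_mul]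
  congr 3
  ext e
  simp only [missSet, Finset.mem_filter]
  tauto

theorem Usum_first (A : D → Finset V) (hA : ∀ d, (A d).Nonempty) (T : D → X → V)
    (Js : Finset J) (S : J → Finset X) (hq : ∀ j ∈ Js, 0 < qf A T (S j)) :
    ∑ e ∈ Fintype.piFinset A, Usum A T Js S e = (Js.card : ℝ) * ((Fintype.piFinset A).card : ℝ) := by
  unfold Usum
  rw [Finset.sum_comm]
  have : ∀ j ∈ Js, ∑ e ∈ Fintype.piFinset A, (if e ∈ missSet A T (S j) then 1 / qf A T (S j) else 0)
      = ((Fintype.piFinset A).card : ℝ) := by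
    intro j hj
    rw [sum_ind A hA]
    have := (hq j hj).ne'
    field_simp
  rw [Finset.sum_congr rfl this, Finset.sum_const, nsmul_eq_mul]

theorem Usum_second (A : D → Finset V) (hA : ∀ d, (A d).Nonempty) (T : D → X → V)
    (Js : Finset J) (S : J → Finset X) :
    ∑ e ∈ Fintype.piFinset A, (Usum A T Js S e) ^ 2 =
      ((Fintype.piFinset A).card : ℝ) * ∑ j ∈ Js, ∑ j' ∈ Js,
        qf A T (S j ∪ S j') / (qf A T (S j) * qf A T (S j')) := by
  unfold Usum
  simp_rw [sq, Finset.sum_mul_sum]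
  rw [Finset.sum_comm, Finset.mul_sum]
  apply Finset.sum_congr rfl
  intro j _
  rw [Finset.sum_comm, Finset.mul_sum]
  apply Finset.sum_congr rfl
  intro j' _
  have h1 : ∀ e, (if e ∈ missSet A T (S j) then 1 / qf A T (S j) else 0) *
      (if e ∈ missSet A T (S j') then 1 / qf A T (S j') else 0) =
      (if e ∈ missSet A T (S j ∪ S j') then 1 / (qf A T (S j) * qf A T (S j')) else 0) := by
    intro e
    by_cases h1 : e ∈ missSet A T (S j) <;> by_cases h2 : e ∈ missSet A T (S j') <;>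
      simp [missSet_union, h1, h2, mul_comm]
  simp_rw [h1]
  rw [sum_ind A hA]
  ring

/-- Chebyshev, upper tail. -/
theorem cheb_upper {E : Type*} (Ω : Finset E) (U : E → ℝ) (a b s : ℝ)
    (h1 : ∑ e ∈ Ω, U e = a * Ω.card) (h2 : ∑ e ∈ Ω, (U e) ^ 2 ≤ s * Ω.card) (hb : 0 ≤ b) :
    ((Ω.filter (fun e => a + b < U e)).card : ℝ) * b ^ 2 ≤ (s - a ^ 2) * Ω.card := by
  have h3 : ∑ e ∈ Ω, (U e - a) ^ 2 ≤ (s - a ^ 2) * Ω.card := by
    have : ∑ e ∈ Ω, (U e - a) ^ 2 = ∑ e ∈ Ω, (U e) ^ 2 - 2 * a * ∑ e ∈ Ω, U e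
        + a ^ 2 * Ω.card := by
      rw [Finset.mul_sum, ← Finset.sum_sub_distrib]
      have h4 : a ^ 2 * (Ω.card : ℝ) = ∑ e ∈ Ω, a ^ 2 := by
        rw [Finset.sum_const, nsmul_eq_mul]; ring
      rw [h4, ← Finset.sum_add_distrib]
      apply Finset.sum_congr rfl
      intro e _; ring
    rw [this, h1]
    nlinarith
  refine le_trans ?_ h3
  calc ((Ω.filter (fun e => a + b < U e)).card : ℝ) * b ^ 2
      = ∑ e ∈ Ω.filter (fun e => a + b < U e), b ^ 2 := by
        rw [Finset.sum_const, nsmul_eq_mul]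
    _ ≤ ∑ e ∈ Ω.filter (fun e => a + b < U e), (U e - a) ^ 2 := by
        apply Finset.sum_le_sum
        intro e he
        have := (Finset.mem_filter.mp he).2
        nlinarith
    _ ≤ ∑ e ∈ Ω, (U e - a) ^ 2 :=
        Finset.sum_le_sum_of_subset_of_nonneg (Finset.filter_subset _ _)
          (fun e _ _ => sq_nonneg _)

/-- Chebyshev, lower tail, conditionally on a subset `Ω'` supporting `U`. -/
theorem cheb_lower {E : Type*} (Ω Ω' : Finset E) (hΩ : Ω' ⊆ Ω) (U : E → ℝ) (n s w κ : ℝ)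
    (hκ : 0 < κ) (hn : 0 ≤ n)
    (h0 : ∀ e ∈ Ω, e ∉ Ω' → U e = 0) (hΩ' : (Ω'.card : ℝ) = κ * w)
    (h1 : ∑ e ∈ Ω, U e = n * w) (h2 : ∑ e ∈ Ω, (U e) ^ 2 ≤ s * w) :
    ((Ω'.filter (fun e => U e < n / (2 * κ))).card : ℝ) * (n / (2 * κ)) ^ 2 ≤
      (s - n ^ 2 / κ) * w := by
  have h1' : ∑ e ∈ Ω', U e = n * w := by
    rw [← h1]
    exact Finset.sum_subset hΩ (fun e he he' => h0 e he he')
  have h2' : ∑ e ∈ Ω', (U e) ^ 2 ≤ s * w := by
    refine le_trans ?_ h2
    exact Finset.sum_le_sum_of_subset_of_nonneg hΩ (fun e _ _ => sq_nonneg _)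
  have h3 : ∑ e ∈ Ω', (U e - n / κ) ^ 2 ≤ (s - n ^ 2 / κ) * w := by
    have : ∑ e ∈ Ω', (U e - n / κ) ^ 2 = ∑ e ∈ Ω', (U e) ^ 2 - 2 * (n / κ) * ∑ e ∈ Ω', U e
        + (n / κ) ^ 2 * Ω'.card := by
      rw [Finset.mul_sum, ← Finset.sum_sub_distrib]
      have h4 : (n / κ) ^ 2 * (Ω'.card : ℝ) = ∑ e ∈ Ω', (n / κ) ^ 2 := by
        rw [Finset.sum_const, nsmul_eq_mul]; ring
      rw [h4, ← Finset.sum_add_distrib]
      apply Finset.sum_congr rfl
      intro e _; ring
    rw [this, h1', hΩ']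
    have h5 : (n / κ) ^ 2 * (κ * w) = n ^ 2 / κ * w := by
      field_simp
    have h6 : 2 * (n / κ) * (n * w) = 2 * (n ^ 2 / κ) * w := by ring
    rw [h5, h6]
    nlinarith
  refine le_trans ?_ h3
  calc ((Ω'.filter (fun e => U e < n / (2 * κ))).card : ℝ) * (n / (2 * κ)) ^ 2
      = ∑ e ∈ Ω'.filter (fun e => U e < n / (2 * κ)), (n / (2 * κ)) ^ 2 := by
        rw [Finset.sum_const, nsmul_eq_mul]
    _ ≤ ∑ e ∈ Ω'.filter (fun e => U e < n / (2 * κ)), (U e - n / κ) ^ 2 := by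
        apply Finset.sum_le_sum
        intro e he
        have h4 := (Finset.mem_filter.mp he).2
        have h5 : n / κ = 2 * (n / (2 * κ)) := by field_simp
        rw [h5]
        have h6 : 0 ≤ n / (2 * κ) := by positivity
        nlinarith
    _ ≤ ∑ e ∈ Ω', (U e - n / κ) ^ 2 :=
        Finset.sum_le_sum_of_subset_of_nonneg (Finset.filter_subset _ _)
          (fun e _ _ => sq_nonneg _)

end moments

/-- Data of the two stage argument. -/
structure TwoStage (D V F X : Type) [Fintype D] [DecidableEq D] [DecidableEq V] [DecidableEq F]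
    [Fintype X] [DecidableEq X] where
  p : ℕ
  g : ℕ
  K : ℕ
  A : D → Finset V
  T₁ : D → X → V
  B : D → Finset F
  T : D → X → F
  Xo : Finset X
  hp : 0 < p
  hg : 0 < g
  hKp : 4 * K ≤ p
  hD : Fintype.card D = g * p
  hA : ∀ d, (A d).Nonempty
  hAp : ∀ d, (A d).card ≤ p
  hN : ∀ d x, T₁ d x ∈ A d → p ≤ 2 * (A d).card
  hBp : ∀ d, (B d).card ≤ p
  hagree : ∀ x x' : X, x ≠ x' → (univ.filter (fun d => T₁ d x = T₁ d x')).card ≤ g
  hK : ∀ d v, (Xo.filter (fun x => T d x = v)).card ≤ K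
  hgen : ∀ (x : X) (d : D) (G : Finset D),
    (∀ d' ∈ G, ∃ x', x' ≠ x ∧ T d x' = T d x ∧ T d' x' = T d' x) → G.card ≤ g
  hx1 : ∀ x ∈ Xo, (g : ℝ) / 2 * p ≤ ((univ.filter (fun d => T₁ d x ∈ A d)).card : ℝ)
  hx2 : ∀ x ∈ Xo, (g : ℝ) / 2 * p ≤ ((univ.filter (fun d => T d x ∈ B d)).card : ℝ)

namespace TwoStage

variable {D V F X : Type} [Fintype D] [DecidableEq D] [DecidableEq V] [DecidableEq F]
    [Fintype X] [DecidableEq X] (P : TwoStage D V F X)

/-- class of good atoms with value `v` at `d` -/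
def S (d : D) (v : F) : Finset X := P.Xo.filter (fun x => P.T d x = v)

noncomputable def q (R : Finset X) : ℝ := qf P.A P.T₁ R

noncomputable def fmin : ℝ := Real.exp (-(4 * P.K * P.g))

noncomputable def eta : ℝ := Real.exp (24 * P.g * (P.K : ℝ) ^ 2 / P.p) - 1

noncomputable def vv : ℝ := P.eta + 1 / (P.p * P.fmin)

def Om : Finset (D → V) := Fintype.piFinset P.A

theorem fmin_pos : 0 < P.fmin := Real.exp_pos _

theorem eta_nonneg : 0 ≤ P.eta := by
  unfold eta
  have : 1 ≤ Real.exp (24 * P.g * (P.K : ℝ) ^ 2 / P.p) := by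
    apply Real.one_le_exp; positivity
  linarith

theorem pR : (0 : ℝ) < P.p := by exact_mod_cast P.hp

theorem gR : (0 : ℝ) < P.g := by exact_mod_cast P.hg

theorem vv_pos : 0 < P.vv := by
  unfold vv
  have := P.eta_nonneg
  have h2 : 0 < 1 / (P.p * P.fmin) := by
    have := P.pR; have := P.fmin_pos; positivity
  linarith

theorem Om_pos : (0 : ℝ) < (P.Om).card := by
  have : 0 < (P.Om).card := by
    rw [Finset.card_pos]
    exact Fintype.piFinset_nonempty.mpr P.hA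
  exact_mod_cast this

theorem q_ge (R : Finset X) (hR : R.card ≤ P.K) : P.fmin ≤ P.q R :=
  qf_lower P.A P.hA P.T₁ P.K P.p P.g P.hp P.hKp P.hD P.hN R hR

theorem q_pos (R : Finset X) (hR : R.card ≤ P.K) : 0 < P.q R :=
  lt_of_lt_of_le P.fmin_pos (P.q_ge R hR)

theorem q_corr (R R' : Finset X) (hR : R.card ≤ P.K) (hR' : R'.card ≤ P.K) :
    P.q (R ∪ R') * P.q (R ∩ R') ≤ (1 + P.eta) * (P.q R * P.q R') := by
  have := qf_corr P.A P.hA P.T₁ P.K P.p P.g P.hp P.hKp P.hD P.hagree P.hN R R' hR hR'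
  unfold eta q
  rw [add_sub_cancel]
  exact this

theorem S_card (d : D) (v : F) : (P.S d v).card ≤ P.K := P.hK d v

/-- the normaliser of coordinate `d` -/
noncomputable def Ds (d : D) (e : D → V) : ℝ := Usum P.A P.T₁ (P.B d) (P.S d) e

theorem Ds_fail (d : D) :
    (((P.Om).filter (fun e => 2 * (P.p : ℝ) < P.Ds d e)).card : ℝ) ≤ P.vv * (P.Om).card := by
  have hp := P.pR
  have h1 : ∑ e ∈ P.Om, P.Ds d e = ((P.B d).card : ℝ) * (P.Om).card :=
    Usum_first P.A P.hA P.T₁ (P.B d) (P.S d) (fun v _ => P.q_pos _ (P.S_card d v))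
  have h2 : ∑ e ∈ P.Om, (P.Ds d e) ^ 2 ≤
      ((1 + P.eta) * ((P.B d).card : ℝ) ^ 2 + (P.B d).card * (1 / P.fmin)) * (P.Om).card := by
    have h3 := Usum_second P.A P.hA P.T₁ (P.B d) (P.S d)
    have h4 : ∑ v ∈ P.B d, ∑ v' ∈ P.B d,
        qf P.A P.T₁ (P.S d v ∪ P.S d v') / (qf P.A P.T₁ (P.S d v) * qf P.A P.T₁ (P.S d v'))
        ≤ (1 + P.eta) * ((P.B d).card : ℝ) ^ 2 + (P.B d).card * (1 / P.fmin) := by
      have h5 : ∀ v ∈ P.B d, ∀ v' ∈ P.B d,
          qf P.A P.T₁ (P.S d v ∪ P.S d v') / (qf P.A P.T₁ (P.S d v) * qf P.A P.T₁ (P.S d v'))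
          ≤ (1 + P.eta) + (if v = v' then 1 / P.fmin else 0) := by
        intro v _ v' _
        have hq1 : 0 < qf P.A P.T₁ (P.S d v) := P.q_pos _ (P.S_card d v)
        have hq2 : 0 < qf P.A P.T₁ (P.S d v') := P.q_pos _ (P.S_card d v')
        split_ifs with hvv
        · subst hvv
          rw [Finset.union_self, div_mul_cancel_left₀ hq1.ne', ← one_div]
          have h6 : 1 / qf P.A P.T₁ (P.S d v) ≤ 1 / P.fmin :=
            one_div_le_one_div_of_le P.fmin_pos (P.q_ge _ (P.S_card d v))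
          linarith [P.eta_nonneg]
        · rw [div_le_iff₀ (mul_pos hq1 hq2), add_zero]
          have h6 := P.q_corr (P.S d v) (P.S d v') (P.S_card d v) (P.S_card d v')
          have h7 : P.S d v ∩ P.S d v' = ∅ := by
            rw [Finset.eq_empty_iff_forall_notMem]
            intro x hx
            simp only [S, Finset.mem_inter, Finset.mem_filter] at hx
            exact hvv (hx.1.2.symm.trans hx.2.2)
          rw [h7] at h6
          have h8 : P.q ∅ = 1 := qf_empty P.A P.hA P.T₁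
          rw [h8, mul_one] at h6
          exact h6
      calc _ ≤ ∑ v ∈ P.B d, ∑ v' ∈ P.B d, ((1 + P.eta) + (if v = v' then 1 / P.fmin else 0)) :=
            Finset.sum_le_sum (fun v hv => Finset.sum_le_sum (fun v' hv' => h5 v hv v' hv'))
        _ = ∑ v ∈ P.B d, (((P.B d).card : ℝ) * (1 + P.eta) + 1 / P.fmin) := by
            apply Finset.sum_congr rfl
            intro v hv
            rw [Finset.sum_add_distrib, Finset.sum_const, nsmul_eq_mul, Finset.sum_ite_eq, if_pos hv]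
        _ = _ := by
            rw [Finset.sum_const, nsmul_eq_mul]; ring
    have h6 := mul_le_mul_of_nonneg_left h4 P.Om_pos.le
    have h7 : ∑ e ∈ P.Om, (P.Ds d e) ^ 2 = ((P.Om).card : ℝ) * ∑ v ∈ P.B d, ∑ v' ∈ P.B d,
        qf P.A P.T₁ (P.S d v ∪ P.S d v') / (qf P.A P.T₁ (P.S d v) * qf P.A P.T₁ (P.S d v')) := h3
    rw [h7]
    linarith
  have h3 := cheb_upper P.Om (P.Ds d) ((P.B d).card : ℝ) (2 * (P.p : ℝ) - (P.B d).card)
    _ h1 h2 (by
      have : ((P.B d).card : ℝ) ≤ P.p := by exact_mod_cast P.hBp d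
      linarith)
  have hB : ((P.B d).card : ℝ) ≤ P.p := by exact_mod_cast P.hBp d
  have hB0 : (0 : ℝ) ≤ (P.B d).card := by positivity
  have h4 : (((P.Om).filter (fun e => ((P.B d).card : ℝ) + (2 * (P.p : ℝ) - (P.B d).card) < P.Ds d e)).card : ℝ)
      = (((P.Om).filter (fun e => 2 * (P.p : ℝ) < P.Ds d e)).card : ℝ) := by
    congr 2
    ext e
    simp only [Finset.mem_filter]
    rw [add_sub_cancel]
  rw [h4] at h3
  set c : ℝ := (((P.Om).filter (fun e => 2 * (P.p : ℝ) < P.Ds d e)).card : ℝ) with hc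
  have hc0 : 0 ≤ c := by positivity
  have h5 : c * (P.p : ℝ) ^ 2 ≤ P.vv * (P.p : ℝ) ^ 2 * (P.Om).card := by
    have h6 : (P.p : ℝ) ^ 2 ≤ (2 * (P.p : ℝ) - (P.B d).card) ^ 2 := by nlinarith
    have h7 : c * (P.p : ℝ) ^ 2 ≤ c * (2 * (P.p : ℝ) - (P.B d).card) ^ 2 :=
      mul_le_mul_of_nonneg_left h6 hc0
    refine (h7.trans h3).trans ?_
    apply mul_le_mul_of_nonneg_right _ P.Om_pos.le
    have h8 : (1 + P.eta) * ((P.B d).card : ℝ) ^ 2 + (P.B d).card * (1 / P.fmin)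
        - ((P.B d).card : ℝ) ^ 2 ≤ P.eta * (P.p : ℝ) ^ 2 + P.p * (1 / P.fmin) := by
      have h9 : ((P.B d).card : ℝ) ^ 2 ≤ (P.p : ℝ) ^ 2 := by nlinarith
      have h10 : P.eta * ((P.B d).card : ℝ) ^ 2 ≤ P.eta * (P.p : ℝ) ^ 2 :=
        mul_le_mul_of_nonneg_left h9 P.eta_nonneg
      have h11 : ((P.B d).card : ℝ) * (1 / P.fmin) ≤ P.p * (1 / P.fmin) :=
        mul_le_mul_of_nonneg_right hB (one_div_nonneg.mpr P.fmin_pos.le)
      linarith
    refine h8.trans ?_
    have h12 : P.vv * (P.p : ℝ) ^ 2 = P.eta * (P.p : ℝ) ^ 2 + P.p * (1 / P.fmin) := by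
      unfold vv
      have := P.fmin_pos.ne'
      field_simp
    rw [h12]
  have hp2 : 0 < (P.p : ℝ) ^ 2 := by positivity
  have h6 : c * (P.p : ℝ) ^ 2 ≤ (P.vv * (P.Om).card) * (P.p : ℝ) ^ 2 := by linarith
  exact le_of_mul_le_mul_right h6 hp2

/-- the coordinates at which the class of `x` is allowed -/
def Nx (x : X) : Finset D := univ.filter (fun d => P.T d x ∈ P.B d)

noncomputable def Ys (x : X) (e : D → V) : ℝ :=
  Usum P.A P.T₁ (P.Nx x) (fun d => P.S d (P.T d x)) e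

theorem q_le_one (R : Finset X) : P.q R ≤ 1 := qf_le_one P.A P.hA P.T₁ R

theorem kappa_le (x : X) (hx : x ∈ P.Xo) : P.q {x} ≤ Real.exp (-((P.g : ℝ) / 2)) :=
  qf_single P.A P.hA P.T₁ P.p P.hp P.hAp x _ (P.hx1 x hx)

theorem Ys_fail (x : X) (hx : x ∈ P.Xo) (hK1 : 1 ≤ P.K) :
    (((missSet P.A P.T₁ {x}).filter
      (fun e => P.Ys x e < ((P.Nx x).card : ℝ) / (2 * P.q {x}))).card : ℝ)
      ≤ 8 * P.vv * (P.Om).card := by
  classical
  have hp := P.pR
  have hg := P.gR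
  have hf := P.fmin_pos
  have hκ : 0 < P.q {x} := P.q_pos _ (by simpa using hK1)
  have hκ1 : P.q {x} ≤ 1 := P.q_le_one _
  have hn : (P.g : ℝ) / 2 * P.p ≤ ((P.Nx x).card : ℝ) := P.hx2 x hx
  have hnpos : 0 < ((P.Nx x).card : ℝ) := lt_of_lt_of_le (by positivity) hn
  have h1 : ∑ e ∈ P.Om, P.Ys x e = ((P.Nx x).card : ℝ) * (P.Om).card :=
    Usum_first P.A P.hA P.T₁ (P.Nx x) (fun d => P.S d (P.T d x))
      (fun d _ => P.q_pos _ (P.S_card d _))
  have h2 : ∑ e ∈ P.Om, (P.Ys x e) ^ 2 ≤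
      ((1 + P.eta) * ((P.Nx x).card : ℝ) ^ 2 / P.q {x} + (P.Nx x).card * P.g * (1 / P.fmin)) *
        (P.Om).card := by
    have h3 := Usum_second P.A P.hA P.T₁ (P.Nx x) (fun d => P.S d (P.T d x))
    let gen : D → D → Prop := fun d d' => ∃ x', x' ≠ x ∧ P.T d x' = P.T d x ∧ P.T d' x' = P.T d' x
    have h4 : ∑ d ∈ P.Nx x, ∑ d' ∈ P.Nx x,
        qf P.A P.T₁ (P.S d (P.T d x) ∪ P.S d' (P.T d' x)) /
          (qf P.A P.T₁ (P.S d (P.T d x)) * qf P.A P.T₁ (P.S d' (P.T d' x)))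
        ≤ (1 + P.eta) * ((P.Nx x).card : ℝ) ^ 2 / P.q {x} + (P.Nx x).card * P.g * (1 / P.fmin) := by
      have h5 : ∀ d ∈ P.Nx x, ∀ d' ∈ P.Nx x,
          qf P.A P.T₁ (P.S d (P.T d x) ∪ P.S d' (P.T d' x)) /
          (qf P.A P.T₁ (P.S d (P.T d x)) * qf P.A P.T₁ (P.S d' (P.T d' x)))
          ≤ (1 + P.eta) / P.q {x} + (if gen d d' then 1 / P.fmin else 0) := by
        intro d _ d' _
        have hq1 : 0 < P.q (P.S d (P.T d x)) := P.q_pos _ (P.S_card d _)
        have hq2 : 0 < P.q (P.S d' (P.T d' x)) := P.q_pos _ (P.S_card d' _)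
        change P.q (P.S d (P.T d x) ∪ P.S d' (P.T d' x)) / (P.q (P.S d (P.T d x)) * P.q (P.S d' (P.T d' x))) ≤ _
        split_ifs with hgen
        · have h6 : P.q (P.S d (P.T d x) ∪ P.S d' (P.T d' x)) ≤ P.q (P.S d (P.T d x)) :=
            qf_mono P.A P.T₁ Finset.subset_union_left
          have h7 : P.q (P.S d (P.T d x) ∪ P.S d' (P.T d' x)) /
              (P.q (P.S d (P.T d x)) * P.q (P.S d' (P.T d' x))) ≤ 1 / P.q (P.S d' (P.T d' x)) := by
            rw [div_le_div_iff₀ (mul_pos hq1 hq2) hq2]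
            nlinarith
          have h8 : 1 / P.q (P.S d' (P.T d' x)) ≤ 1 / P.fmin :=
            one_div_le_one_div_of_le P.fmin_pos (P.q_ge _ (P.S_card d' _))
          have h9 : 0 ≤ (1 + P.eta) / P.q {x} := by
            have := P.eta_nonneg; positivity
          linarith
        · have h6 := P.q_corr (P.S d (P.T d x)) (P.S d' (P.T d' x)) (P.S_card d _) (P.S_card d' _)
          have h7 : P.S d (P.T d x) ∩ P.S d' (P.T d' x) = {x} := by
            ext y
            simp only [S, Finset.mem_inter, Finset.mem_filter, Finset.mem_singleton]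
            constructor
            · rintro ⟨⟨_, h1⟩, _, h2⟩
              by_contra hne
              exact hgen ⟨y, hne, h1, h2⟩
            · rintro rfl
              exact ⟨⟨hx, rfl⟩, hx, rfl⟩
          rw [h7] at h6
          rw [add_zero, div_le_div_iff₀ (mul_pos hq1 hq2) hκ]
          exact h6
      calc _ ≤ ∑ d ∈ P.Nx x, ∑ d' ∈ P.Nx x, ((1 + P.eta) / P.q {x} + (if gen d d' then 1 / P.fmin else 0)) :=
            Finset.sum_le_sum (fun v hv => Finset.sum_le_sum (fun v' hv' => h5 v hv v' hv'))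
        _ ≤ ∑ d ∈ P.Nx x, (((P.Nx x).card : ℝ) * ((1 + P.eta) / P.q {x}) + P.g * (1 / P.fmin)) := by
            apply Finset.sum_le_sum
            intro d _
            rw [Finset.sum_add_distrib, Finset.sum_const, nsmul_eq_mul, ← Finset.sum_filter,
              Finset.sum_const, nsmul_eq_mul]
            have h6 : (((P.Nx x).filter (fun d' => gen d d')).card : ℝ) ≤ P.g := by
              exact_mod_cast P.hgen x d _ (fun d' hd' => (Finset.mem_filter.mp hd').2)
            have h7 : 0 ≤ 1 / P.fmin := by positivity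
            have := mul_le_mul_of_nonneg_right h6 h7
            linarith
        _ = _ := by
            rw [Finset.sum_const, nsmul_eq_mul]; ring
    have h6 := mul_le_mul_of_nonneg_left h4 P.Om_pos.le
    have h7 : ∑ e ∈ P.Om, (P.Ys x e) ^ 2 = ((P.Om).card : ℝ) * ∑ d ∈ P.Nx x, ∑ d' ∈ P.Nx x,
        qf P.A P.T₁ (P.S d (P.T d x) ∪ P.S d' (P.T d' x)) /
          (qf P.A P.T₁ (P.S d (P.T d x)) * qf P.A P.T₁ (P.S d' (P.T d' x))) := h3
    rw [h7]
    linarith
  have hsub : missSet P.A P.T₁ {x} ⊆ P.Om := by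
    intro e he
    simp only [missSet, Finset.mem_filter] at he
    exact he.1
  have h0 : ∀ e ∈ P.Om, e ∉ missSet P.A P.T₁ {x} → P.Ys x e = 0 := by
    intro e _ hne
    apply Finset.sum_eq_zero
    intro d _
    rw [if_neg]
    intro hin
    apply hne
    simp only [missSet, Finset.mem_filter] at hin ⊢
    refine ⟨hin.1, ?_⟩
    intro y hy
    rw [Finset.mem_singleton] at hy
    subst hy
    apply hin.2
    simp only [S, Finset.mem_filter]
    exact ⟨hx, trivial⟩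
  have hcard : ((missSet P.A P.T₁ {x}).card : ℝ) = P.q {x} * ((P.Om).card : ℝ) :=
    card_missSet P.A P.hA P.T₁ {x}
  have h3 := cheb_lower P.Om (missSet P.A P.T₁ {x}) hsub (P.Ys x) ((P.Nx x).card : ℝ) _
    ((P.Om).card : ℝ) (P.q {x}) hκ hnpos.le h0 hcard h1 h2
  set c : ℝ := (((missSet P.A P.T₁ {x}).filter
      (fun e => P.Ys x e < ((P.Nx x).card : ℝ) / (2 * P.q {x}))).card : ℝ) with hc
  set n : ℝ := ((P.Nx x).card : ℝ) with hndef
  set κ : ℝ := P.q {x} with hκdef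
  have hpos : 0 < (n / (2 * κ)) ^ 2 := by positivity
  have h4 : ((1 + P.eta) * n ^ 2 / κ + n * P.g * (1 / P.fmin) - n ^ 2 / κ) * (P.Om).card ≤
      8 * P.vv * (P.Om).card * (n / (2 * κ)) ^ 2 := by
    have h5 : (1 + P.eta) * n ^ 2 / κ + n * P.g * (1 / P.fmin) - n ^ 2 / κ =
        P.eta * (n ^ 2 / κ) + n * P.g * (1 / P.fmin) := by ring
    rw [h5]
    have h6 : P.eta * (n ^ 2 / κ) ≤ 8 * P.eta * (n / (2 * κ)) ^ 2 := by
      have h7 : 8 * P.eta * (n / (2 * κ)) ^ 2 = P.eta * (n ^ 2 / κ) * (2 / κ) := by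
        field_simp; ring
      rw [h7]
      have h8 : 1 ≤ 2 / κ := by rw [le_div_iff₀ hκ]; linarith
      have h9 : 0 ≤ P.eta * (n ^ 2 / κ) := mul_nonneg P.eta_nonneg (by positivity)
      nlinarith
    have h7 : n * P.g * (1 / P.fmin) ≤ 8 * (1 / (P.p * P.fmin)) * (n / (2 * κ)) ^ 2 := by
      have h8 : 8 * (1 / (P.p * P.fmin)) * (n / (2 * κ)) ^ 2 =
          (2 * n / (P.p * κ ^ 2)) * (n * (1 / P.fmin)) := by
        field_simp; ring
      have h9 : n * P.g * (1 / P.fmin) = P.g * (n * (1 / P.fmin)) := by ring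
      rw [h8, h9]
      apply mul_le_mul_of_nonneg_right _ (by positivity)
      rw [le_div_iff₀ (by positivity)]
      have h10 : κ ^ 2 ≤ 1 := by nlinarith
      have h11 : P.g * (P.p * κ ^ 2) ≤ P.g * P.p := by
        have : 0 ≤ (P.g : ℝ) * P.p := by positivity
        nlinarith
      linarith
    have h8 : P.eta * (n ^ 2 / κ) + n * P.g * (1 / P.fmin) ≤ 8 * P.vv * (n / (2 * κ)) ^ 2 := by
      unfold vv
      have : 8 * (P.eta + 1 / (P.p * P.fmin)) * (n / (2 * κ)) ^ 2 =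
        8 * P.eta * (n / (2 * κ)) ^ 2 + 8 * (1 / (P.p * P.fmin)) * (n / (2 * κ)) ^ 2 := by ring
      linarith
    have h9 := mul_le_mul_of_nonneg_right h8 P.Om_pos.le
    linarith
  have h5 := h3.trans h4
  have h6 : c * (n / (2 * κ)) ^ 2 ≤ (8 * P.vv * (P.Om).card) * (n / (2 * κ)) ^ 2 := by linarith
  exact le_of_mul_le_mul_right h6 hpos

end TwoStage

end H19RP
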