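import Mathlib
import Pool.Agent.H19.RPGadgetB

/-! Conclusion of the two stage covering argument. -/

namespace H19RP

open Finset

namespace TwoStage

variable {D V F X : Type} [Fintype D] [DecidableEq D] [DecidableEq V] [DecidableEq F]
    [Fintype X] [DecidableEq X] (P : TwoStage D V F X)

/-- failing coordinates -/
noncomputable def Fail (e : D → V) : Finset D := univ.filter (fun d => 2 * (P.p : ℝ) < P.Ds d e)

/-- atoms missed by the first stage with too small expected second stage coverage -/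
noncomputable def BadX (e : D → V) : Finset X :=
  P.Xo.filter (fun x => e ∈ missSet P.A P.T₁ {x} ∧ P.Ys x e < ((P.Nx x).card : ℝ) / (2 * P.q {x}))

theorem exists_stage1 (hK1 : 1 ≤ P.K) [Nonempty X] :
    ∃ e ∈ P.Om, ((P.Fail e).card : ℝ) ≤ 2 * (P.g * P.p) * P.vv ∧
      ((P.BadX e).card : ℝ) ≤ 16 * P.vv * (Fintype.card X : ℝ) := by
  classical
  have hp := P.pR
  have hg := P.gR
  have hv := P.vv_pos
  have hXpos : (0 : ℝ) < Fintype.card X := by exact_mod_cast Fintype.card_pos
  have hω := P.Om_pos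
  have h1 : ∑ e ∈ P.Om, ((P.Fail e).card : ℝ) ≤ (P.g * P.p) * P.vv * (P.Om).card := by
    have h2 : ∑ e ∈ P.Om, ((P.Fail e).card : ℝ) =
        ∑ d : D, (((P.Om).filter (fun e => 2 * (P.p : ℝ) < P.Ds d e)).card : ℝ) := by
      simp only [Fail, Finset.card_filter]
      push_cast
      rw [Finset.sum_comm]
    rw [h2]
    calc ∑ d : D, (((P.Om).filter (fun e => 2 * (P.p : ℝ) < P.Ds d e)).card : ℝ)
        ≤ ∑ _d : D, P.vv * (P.Om).card := Finset.sum_le_sum (fun d _ => P.Ds_fail d)
      _ = (P.g * P.p) * P.vv * (P.Om).card := by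
          rw [Finset.sum_const, Finset.card_univ, P.hD, nsmul_eq_mul]
          push_cast; ring
  have h2 : ∑ e ∈ P.Om, ((P.BadX e).card : ℝ) ≤ 8 * P.vv * (Fintype.card X : ℝ) * (P.Om).card := by
    have h3 : ∑ e ∈ P.Om, ((P.BadX e).card : ℝ) =
        ∑ x ∈ P.Xo, (((P.Om).filter (fun e => e ∈ missSet P.A P.T₁ {x} ∧
          P.Ys x e < ((P.Nx x).card : ℝ) / (2 * P.q {x}))).card : ℝ) := by
      simp only [BadX, Finset.card_filter]
      push_cast
      rw [Finset.sum_comm]
    rw [h3]
    calc ∑ x ∈ P.Xo, (((P.Om).filter (fun e => e ∈ missSet P.A P.T₁ {x} ∧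
          P.Ys x e < ((P.Nx x).card : ℝ) / (2 * P.q {x}))).card : ℝ)
        ≤ ∑ _x ∈ P.Xo, 8 * P.vv * (P.Om).card := by
          apply Finset.sum_le_sum
          intro x hx
          refine le_trans ?_ (P.Ys_fail x hx hK1)
          have : (P.Om).filter (fun e => e ∈ missSet P.A P.T₁ {x} ∧
              P.Ys x e < ((P.Nx x).card : ℝ) / (2 * P.q {x})) ⊆
              (missSet P.A P.T₁ {x}).filter
              (fun e => P.Ys x e < ((P.Nx x).card : ℝ) / (2 * P.q {x})) := by
            intro e he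
            rw [Finset.mem_filter] at he ⊢
            exact he.2
          exact_mod_cast Finset.card_le_card this
      _ = (P.Xo.card : ℝ) * (8 * P.vv * (P.Om).card) := by
          rw [Finset.sum_const, nsmul_eq_mul]
      _ ≤ (Fintype.card X : ℝ) * (8 * P.vv * (P.Om).card) := by
          apply mul_le_mul_of_nonneg_right _ (by positivity)
          exact_mod_cast Finset.card_le_univ _
      _ = _ := by ring
  have h3 : ∑ e ∈ P.Om, (((P.Fail e).card : ℝ) / ((P.g * P.p) * P.vv) +
      ((P.BadX e).card : ℝ) / (8 * P.vv * (Fintype.card X : ℝ))) ≤ ∑ e ∈ P.Om, (2 : ℝ) := by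
    rw [Finset.sum_add_distrib, ← Finset.sum_div, ← Finset.sum_div, Finset.sum_const, nsmul_eq_mul]
    have h4 : (∑ e ∈ P.Om, ((P.Fail e).card : ℝ)) / ((P.g * P.p) * P.vv) ≤ (P.Om).card := by
      rw [div_le_iff₀ (by positivity)]
      linarith
    have h5 : (∑ e ∈ P.Om, ((P.BadX e).card : ℝ)) / (8 * P.vv * (Fintype.card X : ℝ)) ≤ (P.Om).card := by
      rw [div_le_iff₀ (by positivity)]
      linarith
    linarith
  have hne : (P.Om).Nonempty := Fintype.piFinset_nonempty.mpr P.hA
  obtain ⟨e, he, hle⟩ := Finset.exists_le_of_sum_le hne h3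
  refine ⟨e, he, ?_, ?_⟩
  · have h4 : 0 ≤ ((P.BadX e).card : ℝ) / (8 * P.vv * (Fintype.card X : ℝ)) := by positivity
    have h5 : ((P.Fail e).card : ℝ) / ((P.g * P.p) * P.vv) ≤ 2 := by linarith
    rw [div_le_iff₀ (by positivity)] at h5
    linarith
  · have h4 : 0 ≤ ((P.Fail e).card : ℝ) / ((P.g * P.p) * P.vv) := by positivity
    have h5 : ((P.BadX e).card : ℝ) / (8 * P.vv * (Fintype.card X : ℝ)) ≤ 2 := by linarith
    rw [div_le_iff₀ (by positivity)] at h5
    linarith

theorem two_stage (hK1 : 1 ≤ P.K) [Nonempty X] :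
    ∃ e₁ : D → V, (∀ d, e₁ d ∈ P.A d) ∧ ∃ e₂ : D → Option F,
      (∀ d v, e₂ d = some v → v ∈ P.B d) ∧
      ((P.Xo.filter (fun x => (∀ d, e₁ d ≠ P.T₁ d x) ∧ ∀ d, e₂ d ≠ some (P.T d x))).card : ℝ) ≤
        (Fintype.card X : ℝ) * (16 * P.vv +
          Real.exp (-((P.g : ℝ) / 8 * Real.exp ((P.g : ℝ) / 2)) + P.g * P.vv / P.fmin)) := by
  classical
  obtain ⟨e, he, hF, hBad⟩ := P.exists_stage1 hK1
  have hp := P.pR
  have hg := P.gR
  have hv := P.vv_pos
  have hf := P.fmin_pos
  have hXpos : (0 : ℝ) < Fintype.card X := by exact_mod_cast Fintype.card_pos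
  refine ⟨e, Fintype.mem_piFinset.mp he, ?_⟩
  let w : D → F → ℝ := fun d v => if P.Ds d e ≤ 2 * (P.p : ℝ) then
    (if e ∈ missSet P.A P.T₁ (P.S d v) then 1 / P.q (P.S d v) else 0) / (2 * P.p) else 0
  have hw0 : ∀ d v, 0 ≤ w d v := by
    intro d v
    simp only [w]
    split_ifs
    · have := (P.q_pos _ (P.S_card d v)).le
      positivity
    · simp
    · exact le_refl _
  have hw1 : ∀ d, ∑ v ∈ P.B d, w d v ≤ 1 := by
    intro d
    simp only [w]
    split_ifs with h
    · rw [← Finset.sum_div, div_le_one (by positivity)]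
      exact h
    · simp
  let Xs := P.Xo.filter (fun x => ∀ d, e d ≠ P.T₁ d x)
  obtain ⟨e₂, he₂, hm⟩ := rounding (ι := D) (V := F) (X := X) P.B w (fun d v _ => hw0 d v) hw1
    Xs (fun x d => {P.T d x})
  refine ⟨e₂, he₂, ?_⟩
  have hset : (P.Xo.filter (fun x => (∀ d, e d ≠ P.T₁ d x) ∧ ∀ d, e₂ d ≠ some (P.T d x))) =
      Xs.filter (fun x => ∀ d, ∀ v ∈ ({P.T d x} : Finset F), e₂ d ≠ some v) := by
    ext x
    simp only [Xs, Finset.mem_filter, Finset.mem_singleton, forall_eq]
    tauto
  have hm' : ((P.Xo.filter (fun x => (∀ d, e d ≠ P.T₁ d x) ∧ ∀ d, e₂ d ≠ some (P.T d x))).card : ℝ)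
      ≤ ∑ x ∈ Xs, ∏ d, (1 - ∑ v ∈ P.B d ∩ {P.T d x}, w d v) := by
    rw [hset]
    convert hm
  refine hm'.trans ?_
  set h : ℝ := (P.g : ℝ) / 8 * Real.exp ((P.g : ℝ) / 2) with hh
  have hbound : ∀ x ∈ Xs, ∏ d, (1 - ∑ v ∈ P.B d ∩ {P.T d x}, w d v) ≤
      (if x ∈ P.BadX e then (1 : ℝ) else 0) + Real.exp (-h + P.g * P.vv / P.fmin) := by
    intro x hx
    have hxo : x ∈ P.Xo := (Finset.mem_filter.mp hx).1
    have hsum1 : ∀ d, ∑ v ∈ P.B d ∩ {P.T d x}, w d v ≤ 1 := by
      intro d
      refine le_trans ?_ (hw1 d)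
      exact Finset.sum_le_sum_of_subset_of_nonneg Finset.inter_subset_left (fun v _ _ => hw0 d v)
    have hsum0 : ∀ d, 0 ≤ ∑ v ∈ P.B d ∩ {P.T d x}, w d v := by
      intro d
      exact Finset.sum_nonneg (fun v _ => hw0 d v)
    have hexp0 : 0 < Real.exp (-h + P.g * P.vv / P.fmin) := Real.exp_pos _
    by_cases hb : x ∈ P.BadX e
    · rw [if_pos hb]
      have : ∏ d, (1 - ∑ v ∈ P.B d ∩ {P.T d x}, w d v) ≤ 1 := by
        apply Finset.prod_le_one
        · intro d _; linarith [hsum1 d]
        · intro d _; linarith [hsum0 d]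
      linarith
    · rw [if_neg hb, zero_add]
      -- lower bound on the total weight
      have hY : P.Ys x e / (2 * P.p) - ((P.Fail e).card : ℝ) / (2 * P.p * P.fmin) ≤
          ∑ d, ∑ v ∈ P.B d ∩ {P.T d x}, w d v := by
        have h1 : ∀ d, (if d ∈ P.Nx x then
            (if e ∈ missSet P.A P.T₁ (P.S d (P.T d x)) then 1 / P.q (P.S d (P.T d x)) else 0) / (2 * P.p)
            else 0) - (if d ∈ P.Fail e then 1 / (2 * P.p * P.fmin) else 0) ≤
            ∑ v ∈ P.B d ∩ {P.T d x}, w d v := by
          intro d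
          by_cases hd : d ∈ P.Nx x
          · have hdB : P.T d x ∈ P.B d := (Finset.mem_filter.mp hd).2
            have hint : P.B d ∩ {P.T d x} = {P.T d x} := by
              rw [Finset.inter_eq_right]; simpa using hdB
            rw [hint, Finset.sum_singleton, if_pos hd]
            by_cases hdf : d ∈ P.Fail e
            · rw [if_pos hdf]
              have h2 : (if e ∈ missSet P.A P.T₁ (P.S d (P.T d x)) then 1 / P.q (P.S d (P.T d x)) else 0) / (2 * (P.p : ℝ))
                  ≤ 1 / (2 * P.p * P.fmin) := by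
                have h3 : (if e ∈ missSet P.A P.T₁ (P.S d (P.T d x)) then 1 / P.q (P.S d (P.T d x)) else 0) ≤ 1 / P.fmin := by
                  split_ifs
                  · exact one_div_le_one_div_of_le hf (P.q_ge _ (P.S_card d _))
                  · positivity
                calc _ ≤ (1 / P.fmin) / (2 * (P.p : ℝ)) := div_le_div_of_nonneg_right h3 (by positivity)
                  _ = _ := by field_simp
              have := hw0 d (P.T d x)
              linarith
            · rw [if_neg hdf, sub_zero]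
              have h2 : P.Ds d e ≤ 2 * (P.p : ℝ) := by
                by_contra hcon
                push Not at hcon
                exact hdf (Finset.mem_filter.mpr ⟨Finset.mem_univ _, hcon⟩)
              simp only [w, if_pos h2]
              exact le_refl _
          · rw [if_neg hd]
            have h2 : 0 ≤ (if d ∈ P.Fail e then 1 / (2 * (P.p : ℝ) * P.fmin) else 0) := by
              split_ifs
              · positivity
              · exact le_refl _
            linarith [hsum0 d]
        have h2 := Finset.sum_le_sum (fun d (_ : d ∈ (univ : Finset D)) => h1 d)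
        rw [Finset.sum_sub_distrib] at h2
        have h3 : ∑ d : D, (if d ∈ P.Nx x then
            (if e ∈ missSet P.A P.T₁ (P.S d (P.T d x)) then 1 / P.q (P.S d (P.T d x)) else 0) / (2 * (P.p : ℝ))
            else 0) = P.Ys x e / (2 * P.p) := by
          rw [← Finset.sum_filter]
          have h4 : (univ.filter (fun d => d ∈ P.Nx x)) = P.Nx x := by ext d; simp
          rw [h4, ← Finset.sum_div]
          rfl
        have h4 : ∑ d : D, (if d ∈ P.Fail e then 1 / (2 * (P.p : ℝ) * P.fmin) else 0) =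
            ((P.Fail e).card : ℝ) / (2 * P.p * P.fmin) := by
          rw [← Finset.sum_filter, Finset.sum_const, nsmul_eq_mul]
          have h5 : (univ.filter (fun d => d ∈ P.Fail e)) = P.Fail e := by ext d; simp
          rw [h5, mul_one_div]
        rw [h3, h4] at h2
        exact h2
      have hYs : ((P.Nx x).card : ℝ) / (2 * P.q {x}) ≤ P.Ys x e := by
        by_contra hcon
        push Not at hcon
        apply hb
        simp only [BadX, Finset.mem_filter]
        refine ⟨hxo, ?_, hcon⟩
        simp only [missSet, Finset.mem_filter]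
        refine ⟨he, ?_⟩
        intro y hy
        rw [Finset.mem_singleton] at hy
        subst hy
        exact (Finset.mem_filter.mp hx).2
      have hκ : 0 < P.q {x} := P.q_pos _ (by simpa using hK1)
      have hκ2 : P.q {x} ≤ Real.exp (-((P.g : ℝ) / 2)) := P.kappa_le x hxo
      have hn : (P.g : ℝ) / 2 * P.p ≤ ((P.Nx x).card : ℝ) := P.hx2 x hxo
      have h1 : h ≤ P.Ys x e / (2 * P.p) := by
        rw [le_div_iff₀ (by positivity)]
        refine le_trans ?_ hYs
        rw [le_div_iff₀ (by positivity)]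
        have h2 : Real.exp ((P.g : ℝ) / 2) * P.q {x} ≤ 1 := by
          calc Real.exp ((P.g : ℝ) / 2) * P.q {x} ≤ Real.exp ((P.g : ℝ) / 2) * Real.exp (-((P.g : ℝ) / 2)) :=
                mul_le_mul_of_nonneg_left hκ2 (Real.exp_pos _).le
            _ = 1 := by rw [← Real.exp_add]; simp
        calc h * (2 * P.p) * (2 * P.q {x}) = (P.g : ℝ) / 2 * P.p * (Real.exp ((P.g : ℝ) / 2) * P.q {x}) := by
              rw [hh]; ring
          _ ≤ (P.g : ℝ) / 2 * P.p * 1 := mul_le_mul_of_nonneg_left h2 (by positivity)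
          _ ≤ _ := by linarith
      have h2 : ((P.Fail e).card : ℝ) / (2 * P.p * P.fmin) ≤ P.g * P.vv / P.fmin := by
        rw [div_le_div_iff₀ (by positivity) hf]
        nlinarith [mul_le_mul_of_nonneg_right hF hf.le]
      calc ∏ d, (1 - ∑ v ∈ P.B d ∩ {P.T d x}, w d v)
          ≤ ∏ d, Real.exp (-(∑ v ∈ P.B d ∩ {P.T d x}, w d v)) := by
            apply Finset.prod_le_prod
            · intro d _; linarith [hsum1 d]
            · intro d _
              have := Real.add_one_le_exp (-(∑ v ∈ P.B d ∩ {P.T d x}, w d v))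
              linarith
        _ = Real.exp (-(∑ d, ∑ v ∈ P.B d ∩ {P.T d x}, w d v)) := by
            rw [← Real.exp_sum, Finset.sum_neg_distrib]
        _ ≤ Real.exp (-h + P.g * P.vv / P.fmin) := by
            apply Real.exp_le_exp.mpr
            linarith
  calc ∑ x ∈ Xs, ∏ d, (1 - ∑ v ∈ P.B d ∩ {P.T d x}, w d v)
      ≤ ∑ x ∈ Xs, ((if x ∈ P.BadX e then (1 : ℝ) else 0) + Real.exp (-h + P.g * P.vv / P.fmin)) :=
        Finset.sum_le_sum hbound
    _ ≤ 16 * P.vv * (Fintype.card X : ℝ) +
        (Fintype.card X : ℝ) * Real.exp (-h + P.g * P.vv / P.fmin) := by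
        rw [Finset.sum_add_distrib, Finset.sum_const, nsmul_eq_mul, ← Finset.sum_filter,
          Finset.sum_const, nsmul_eq_mul, mul_one]
        apply add_le_add
        · refine le_trans ?_ hBad
          have : Xs.filter (fun x => x ∈ P.BadX e) ⊆ P.BadX e := by
            intro x hx
            exact (Finset.mem_filter.mp hx).2
          exact_mod_cast Finset.card_le_card this
        · apply mul_le_mul_of_nonneg_right _ (Real.exp_pos _).le
          exact_mod_cast Finset.card_le_univ _
    _ = _ := by ring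

end TwoStage

end H19RP
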