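import Mathlib
import Pool.Agent.H19.RPGadgetC

/-! The concrete gadget: lines over a prime field. -/

namespace H19RP

open Finset

section gadget

variable (p g K : ℕ)

/-- atoms -/
abbrev Atom := Fin K × ZMod p

/-- coordinates (parts) of one stage -/
abbrev Dir := ZMod p × Fin g

variable {p g K}

/-- the value of the atom `x` at the coordinate `d` -/
def lin (d : Dir p g) (x : Atom p K) : ZMod p := x.2 + (x.1.val : ZMod p) * d.1

theorem lin_dir (hp : p.Prime) (hKp : K ≤ p) {d d' : Dir p g} {x x' : Atom p K} (hx : x ≠ x')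
    (h : lin d x = lin d x') (h' : lin d' x = lin d' x') : d.1 = d'.1 := by
  haveI := Fact.mk hp
  obtain ⟨a, u⟩ := x
  obtain ⟨a', u'⟩ := x'
  simp only [lin] at h h'
  have h1 : ((a.val : ZMod p) - (a'.val : ZMod p)) * (d.1 - d'.1) = 0 := by linear_combination h - h'
  rcases mul_eq_zero.mp h1 with h2 | h2
  · exfalso
    have h3 : (a.val : ZMod p) = (a'.val : ZMod p) := sub_eq_zero.mp h2
    have h4 : a.val = a'.val := by
      have := (ZMod.natCast_eq_natCast_iff' a.val a'.val p).mp h3
      rwa [Nat.mod_eq_of_lt (lt_of_lt_of_le a.2 hKp), Nat.mod_eq_of_lt (lt_of_lt_of_le a'.2 hKp)] at this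
    have h5 : a = a' := Fin.ext h4
    subst h5
    have h6 : u = u' := by linear_combination h
    exact hx (by rw [h6])
  · exact sub_eq_zero.mp h2

theorem card_same_dir (G : Finset (Dir p g)) (h : ∀ d ∈ G, ∀ d' ∈ G, d.1 = d'.1) : G.card ≤ g := by
  have h1 : G.card ≤ (univ : Finset (Fin g)).card := by
    apply Finset.card_le_card_of_injOn (fun d => d.2)
    · intro d _; exact Finset.mem_coe.mpr (Finset.mem_univ _)
    · intro d hd d' hd' hdd
      exact Prod.ext (h d hd d' hd') hdd
  simpa using h1

theorem agree_le [NeZero p] (hp : p.Prime) (hKp : K ≤ p) {x x' : Atom p K} (hx : x ≠ x') :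
    (univ.filter (fun d : Dir p g => lin d x = lin d x')).card ≤ g := by
  apply card_same_dir
  intro d hd d' hd'
  exact lin_dir hp hKp hx (Finset.mem_filter.mp hd).2 (Finset.mem_filter.mp hd').2

/-- few atoms have more than half of their coordinates in a small set -/
theorem bad_count [NeZero p] (hp : p.Prime) (hp5 : 5 ≤ p) (hKp : K ≤ p) (hg : 0 < g)
    (W : Dir p g → Finset (ZMod p)) (hW : 9 * ∑ d, (W d).card ≤ g * p ^ 2) :
    2 * (univ.filter (fun x : Atom p K =>
      g * p < 2 * (univ.filter (fun d : Dir p g => lin d x ∈ W d)).card)).card < p := by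
  classical
  by_contra hcon
  push Not at hcon
  set Bad := univ.filter (fun x : Atom p K =>
      g * p < 2 * (univ.filter (fun d : Dir p g => lin d x ∈ W d)).card) with hBad
  have hb : p / 2 ≤ Bad.card := by omega
  obtain ⟨B, hBsub, hBcard⟩ := Finset.exists_subset_card_eq hb
  set b := p / 2 with hbdef
  have h1 : ∑ x ∈ B, g * p ≤ ∑ x ∈ B, 2 * (univ.filter (fun d : Dir p g => lin d x ∈ W d)).card := by
    apply Finset.sum_le_sum
    intro x hx
    exact (Finset.mem_filter.mp (hBsub hx)).2.le
  rw [Finset.sum_const, smul_eq_mul, hBcard] at h1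
  -- double counting
  have h2 : ∑ x ∈ B, (univ.filter (fun d : Dir p g => lin d x ∈ W d)).card =
      ∑ d : Dir p g, ∑ v ∈ W d, (B.filter (fun x => lin d x = v)).card := by
    simp only [Finset.card_filter]
    rw [Finset.sum_comm]
    apply Finset.sum_congr rfl
    intro d _
    rw [Finset.sum_comm]
    apply Finset.sum_congr rfl
    intro x _
    rw [Finset.sum_ite_eq]
  have h3 : ∀ n : ℕ, 2 * n ≤ 2 + n * (n - 1) := by
    intro n
    rcases n with _ | _ | n
    · simp
    · simp
    · simp only [Nat.add_sub_cancel]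
      nlinarith [Nat.zero_le n]
  have h4 : 2 * ∑ d : Dir p g, ∑ v ∈ W d, (B.filter (fun x => lin d x = v)).card ≤
      2 * ∑ d, (W d).card + g * b ^ 2 := by
    calc 2 * ∑ d : Dir p g, ∑ v ∈ W d, (B.filter (fun x => lin d x = v)).card
        = ∑ d : Dir p g, ∑ v ∈ W d, 2 * (B.filter (fun x => lin d x = v)).card := by
          rw [Finset.mul_sum]
          apply Finset.sum_congr rfl
          intro d _
          rw [Finset.mul_sum]
      _ ≤ ∑ d : Dir p g, ∑ v ∈ W d, (2 + (B.filter (fun x => lin d x = v)).card *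
            ((B.filter (fun x => lin d x = v)).card - 1)) := by
          apply Finset.sum_le_sum
          intro d _
          apply Finset.sum_le_sum
          intro v _
          exact h3 _
      _ = 2 * ∑ d, (W d).card + ∑ d : Dir p g, ∑ v ∈ W d, (B.filter (fun x => lin d x = v)).card *
            ((B.filter (fun x => lin d x = v)).card - 1) := by
          rw [Finset.mul_sum, ← Finset.sum_add_distrib]
          apply Finset.sum_congr rfl
          intro d _
          rw [Finset.sum_add_distrib, Finset.sum_const, smul_eq_mul]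
          ring
      _ ≤ 2 * ∑ d, (W d).card + g * b ^ 2 := by
          apply Nat.add_le_add_left
          have h5 : ∀ d : Dir p g, ∑ v ∈ W d, (B.filter (fun x => lin d x = v)).card *
            ((B.filter (fun x => lin d x = v)).card - 1) ≤
            ((B ×ˢ B).filter (fun y => y.1 ≠ y.2 ∧ lin d y.1 = lin d y.2)).card := by
            intro d
            have h6 : ∀ v, (B.filter (fun x => lin d x = v)).card *
                ((B.filter (fun x => lin d x = v)).card - 1) =
                ((B.filter (fun x => lin d x = v)).offDiag).card := by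
              intro v
              rw [Finset.offDiag_card, Nat.mul_sub, mul_one]
            simp_rw [h6]
            rw [← Finset.card_sigma]
            apply Finset.card_le_card_of_injOn (fun y => y.2)
            · rintro ⟨v, y⟩ hy
              simp only [Finset.coe_sigma, Set.mem_sigma_iff, Finset.mem_coe, Finset.mem_offDiag,
                Finset.mem_filter] at hy
              simp only [Finset.coe_filter, Finset.mem_product, Set.mem_setOf_eq]
              exact ⟨⟨hy.2.1.1, hy.2.2.1.1⟩, hy.2.2.2, hy.2.1.2.trans hy.2.2.1.2.symm⟩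
            · rintro ⟨v, y⟩ hy ⟨v', y'⟩ hy' hyy
              simp only [Finset.coe_sigma, Set.mem_sigma_iff, Finset.mem_coe, Finset.mem_offDiag,
                Finset.mem_filter] at hy hy'
              simp only at hyy
              subst hyy
              have : v = v' := hy.2.1.2.symm.trans hy'.2.1.2
              subst this
              rfl
          calc ∑ d : Dir p g, ∑ v ∈ W d, (B.filter (fun x => lin d x = v)).card *
            ((B.filter (fun x => lin d x = v)).card - 1)
              ≤ ∑ d : Dir p g, ((B ×ˢ B).filter (fun y => y.1 ≠ y.2 ∧ lin d y.1 = lin d y.2)).card :=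
                Finset.sum_le_sum (fun d _ => h5 d)
            _ = ∑ y ∈ B ×ˢ B, ∑ d : Dir p g, (if y.1 ≠ y.2 ∧ lin d y.1 = lin d y.2 then 1 else 0) := by
                simp only [Finset.card_filter]
                rw [Finset.sum_comm]
            _ ≤ ∑ y ∈ B ×ˢ B, g := by
                apply Finset.sum_le_sum
                intro y _
                by_cases hy : y.1 = y.2
                · simp [hy]
                · have := agree_le (g := g) hp hKp hy
                  rw [Finset.card_filter] at this
                  simpa [hy] using this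
            _ = g * b ^ 2 := by
                rw [Finset.sum_const, Finset.card_product, hBcard, smul_eq_mul]
                ring
  have h5 : b * (g * p) ≤ 2 * ∑ d, (W d).card + g * b ^ 2 := by
    rw [← Finset.mul_sum, h2] at h1
    exact h1.trans h4
  -- contradiction
  have h6 : 9 * (b * (g * p)) ≤ 2 * (g * p ^ 2) + 9 * (g * b ^ 2) := by nlinarith
  have h7 : 9 * (b * p) ≤ 2 * p ^ 2 + 9 * b ^ 2 := by
    have h8 : g * (9 * (b * p)) ≤ g * (2 * p ^ 2 + 9 * b ^ 2) := by nlinarith
    exact Nat.le_of_mul_le_mul_left h8 hg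
  have h8 : p = 2 * b ∨ p = 2 * b + 1 := by omega
  rcases h8 with h8 | h8
  · rw [h8] at h7
    have : 1 ≤ b := by omega
    nlinarith
  · rw [h8] at h7
    have : 2 ≤ b := by omega
    nlinarith

/-- the two stage data attached to a pair of forbidden families -/
noncomputable def gadgetData [NeZero p] (hp : p.Prime) (hg : 0 < g) (hKp : 4 * K ≤ p)
    (W₁ W₂ : Dir p g → Finset (ZMod p)) :
    TwoStage (Dir p g) (Option (ZMod p)) (ZMod p) (Atom p K) where
  p := p
  g := g
  K := K
  A := fun d => if 2 * (W₁ d).card ≤ p then ((univ \ W₁ d).map Function.Embedding.some) else {none}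
  T₁ := fun d x => some (lin d x)
  B := fun d => univ \ W₂ d
  T := fun d x => lin d x
  Xo := univ.filter (fun x =>
    (g : ℝ) / 2 * p ≤ ((univ.filter (fun d : Dir p g => some (lin d x) ∈
      (if 2 * (W₁ d).card ≤ p then ((univ \ W₁ d).map Function.Embedding.some) else {none}))).card : ℝ) ∧
    (g : ℝ) / 2 * p ≤ ((univ.filter (fun d : Dir p g => lin d x ∈ univ \ W₂ d)).card : ℝ))
  hp := hp.pos
  hg := hg
  hKp := hKp
  hD := by
    rw [Fintype.card_prod, ZMod.card, Fintype.card_fin, mul_comm]
  hA := by
    intro d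
    split_ifs with h
    · rw [Finset.map_nonempty, ← Finset.card_pos, Finset.card_sdiff_of_subset (Finset.subset_univ _),
        Finset.card_univ, ZMod.card]
      have := hp.two_le
      omega
    · exact Finset.singleton_nonempty _
  hAp := by
    intro d
    split_ifs with h
    · rw [Finset.card_map]
      calc _ ≤ (univ : Finset (ZMod p)).card := Finset.card_le_card Finset.sdiff_subset
        _ = p := by rw [Finset.card_univ, ZMod.card]
    · rw [Finset.card_singleton]; exact hp.pos
  hN := by
    intro d x hx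
    split_ifs at hx ⊢ with h
    · rw [Finset.card_map, Finset.card_sdiff_of_subset (Finset.subset_univ _),
        Finset.card_univ, ZMod.card]
      omega
    · simp at hx
  hBp := by
    intro d
    calc _ ≤ (univ : Finset (ZMod p)).card := Finset.card_le_card Finset.sdiff_subset
      _ = p := by rw [Finset.card_univ, ZMod.card]
  hagree := by
    intro x x' hx
    simp only [Option.some.injEq]
    exact agree_le hp (by omega) hx
  hK := by
    intro d v
    have h1 : ((univ.filter (fun x : Atom p K =>
      (g : ℝ) / 2 * p ≤ ((univ.filter (fun d : Dir p g => some (lin d x) ∈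
      (if 2 * (W₁ d).card ≤ p then ((univ \ W₁ d).map Function.Embedding.some) else {none}))).card : ℝ) ∧
      (g : ℝ) / 2 * p ≤ ((univ.filter (fun d : Dir p g => lin d x ∈ univ \ W₂ d)).card : ℝ))).filter
      (fun x => lin d x = v)).card ≤ (univ : Finset (Fin K)).card := by
      apply Finset.card_le_card_of_injOn (fun x => x.1)
      · intro x _; exact Finset.mem_coe.mpr (Finset.mem_univ _)
      · intro x hx x' hx' hxx
        have h2 := (Finset.mem_filter.mp (Finset.mem_coe.mp hx)).2
        have h3 := (Finset.mem_filter.mp (Finset.mem_coe.mp hx')).2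
        obtain ⟨a, u⟩ := x
        obtain ⟨a', u'⟩ := x'
        simp only at hxx
        subst hxx
        simp only [lin] at h2 h3
        have : u = u' := by linear_combination h2 - h3
        rw [this]
    simpa using h1
  hgen := by
    intro x d G hG
    apply card_same_dir
    have h1 : ∀ d' ∈ G, d.1 = d'.1 := by
      intro d' hd'
      obtain ⟨x', hne, h1, h2⟩ := hG d' hd'
      exact lin_dir hp (by omega) hne h1 h2
    intro d' hd' d'' hd''
    rw [← h1 d' hd', ← h1 d'' hd'']
  hx1 := by
    intro x hx
    exact (Finset.mem_filter.mp hx).2.1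
  hx2 := by
    intro x hx
    exact (Finset.mem_filter.mp hx).2.2

theorem gadget_cover [NeZero p] (hp : p.Prime) (hp5 : 5 ≤ p) (hg : 0 < g) (hKp : 4 * K ≤ p)
    (hK1 : 1 ≤ K)
    (W₁ W₂ : Dir p g → Finset (ZMod p))
    (hW : 18 * (∑ d, (W₁ d).card + ∑ d, (W₂ d).card) ≤ g * p ^ 2) :
    ∃ e₁ e₂ : Dir p g → Option (ZMod p),
      (∀ d v, e₁ d = some v → v ∉ W₁ d) ∧ (∀ d v, e₂ d = some v → v ∉ W₂ d) ∧
      ((univ.filter (fun x : Atom p K => (∀ d, e₁ d ≠ some (lin d x)) ∧
        ∀ d, e₂ d ≠ some (lin d x))).card : ℝ) ≤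
        (Fintype.card (Atom p K) : ℝ) * (1 / K + (16 * (Real.exp (24 * g * (K : ℝ) ^ 2 / p) - 1 +
          1 / (p * Real.exp (-(4 * K * g)))) +
          Real.exp (-((g : ℝ) / 8 * Real.exp ((g : ℝ) / 2)) + g * (Real.exp (24 * g * (K : ℝ) ^ 2 / p) - 1 +
          1 / (p * Real.exp (-(4 * K * g)))) / Real.exp (-(4 * K * g))))) := by
  classical
  haveI : Nonempty (Fin K) := ⟨⟨0, hK1⟩⟩
  set P := gadgetData (K := K) hp hg hKp W₁ W₂ with hP
  haveI : Nonempty (Atom p K) := inferInstance
  obtain ⟨e₁, he₁, e₂, he₂, hcount⟩ := P.two_stage hK1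
  refine ⟨e₁, e₂, ?_, ?_, ?_⟩
  · intro d v hdv
    have h1 := he₁ d
    rw [hdv] at h1
    have h2 : P.A d = if 2 * (W₁ d).card ≤ p then ((univ \ W₁ d).map Function.Embedding.some) else {none} := rfl
    rw [h2] at h1
    split_ifs at h1
    · simp at h1; exact h1
    · simp at h1
  · intro d v hdv
    have h1 := he₂ d v hdv
    have h2 : P.B d = univ \ W₂ d := rfl
    rw [h2] at h1
    exact (Finset.mem_sdiff.mp h1).2
  · -- bad atoms
    let W₁' : Dir p g → Finset (ZMod p) := fun d => if 2 * (W₁ d).card ≤ p then W₁ d else univ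
    have hW₁' : ∑ d, (W₁' d).card ≤ 2 * ∑ d, (W₁ d).card := by
      rw [Finset.mul_sum]
      apply Finset.sum_le_sum
      intro d _
      simp only [W₁']
      split_ifs with h
      · omega
      · rw [Finset.card_univ, ZMod.card]; omega
    have hb1 := bad_count (K := K) hp hp5 (by omega) hg W₁' (by omega)
    have hb2 := bad_count (K := K) hp hp5 (by omega) hg W₂ (by omega)
    set Bad1 := univ.filter (fun x : Atom p K =>
      g * p < 2 * (univ.filter (fun d : Dir p g => lin d x ∈ W₁' d)).card) with hBad1
    set Bad2 := univ.filter (fun x : Atom p K =>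
      g * p < 2 * (univ.filter (fun d : Dir p g => lin d x ∈ W₂ d)).card) with hBad2
    have hcardD : (univ : Finset (Dir p g)).card = g * p := by
      rw [Finset.card_univ, Fintype.card_prod, ZMod.card, Fintype.card_fin, mul_comm]
    have hsub : (univ.filter (fun x : Atom p K => (∀ d, e₁ d ≠ some (lin d x)) ∧
        ∀ d, e₂ d ≠ some (lin d x))) ⊆ (Bad1 ∪ Bad2) ∪
        (P.Xo.filter (fun x => (∀ d, e₁ d ≠ P.T₁ d x) ∧ ∀ d, e₂ d ≠ some (P.T d x))) := by
      intro x hx
      by_cases h1 : x ∈ Bad1
      · exact Finset.mem_union_left _ (Finset.mem_union_left _ h1)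
      by_cases h2 : x ∈ Bad2
      · exact Finset.mem_union_left _ (Finset.mem_union_right _ h2)
      apply Finset.mem_union_right
      rw [Finset.mem_filter]
      refine ⟨?_, ?_⟩
      · have h3 : 2 * (univ.filter (fun d : Dir p g => lin d x ∈ W₁' d)).card ≤ g * p := by
          by_contra hc
          push Not at hc
          exact h1 (Finset.mem_filter.mpr ⟨Finset.mem_univ _, hc⟩)
        have h4 : 2 * (univ.filter (fun d : Dir p g => lin d x ∈ W₂ d)).card ≤ g * p := by
          by_contra hc
          push Not at hc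
          exact h2 (Finset.mem_filter.mpr ⟨Finset.mem_univ _, hc⟩)
        have h5 : P.Xo = univ.filter (fun x : Atom p K =>
          (g : ℝ) / 2 * p ≤ ((univ.filter (fun d : Dir p g => some (lin d x) ∈
          (if 2 * (W₁ d).card ≤ p then ((univ \ W₁ d).map Function.Embedding.some) else {none}))).card : ℝ) ∧
          (g : ℝ) / 2 * p ≤ ((univ.filter (fun d : Dir p g => lin d x ∈ univ \ W₂ d)).card : ℝ)) := rfl
        rw [h5, Finset.mem_filter]
        refine ⟨Finset.mem_univ _, ?_, ?_⟩
        · have h6 : (univ.filter (fun d : Dir p g => some (lin d x) ∈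
          (if 2 * (W₁ d).card ≤ p then ((univ \ W₁ d).map Function.Embedding.some) else {none}))) =
            univ.filter (fun d : Dir p g => ¬ lin d x ∈ W₁' d) := by
            apply Finset.filter_congr
            intro d _
            simp only [W₁']
            split_ifs with h <;> simp
          rw [h6]
          have h7 := Finset.card_filter_add_card_filter_not (s := (univ : Finset (Dir p g)))
            (fun d => lin d x ∈ W₁' d)
          rw [hcardD] at h7
          have h8 : g * p ≤ 2 * (univ.filter (fun d : Dir p g => ¬ lin d x ∈ W₁' d)).card := by omega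
          have h9 : (g : ℝ) * p ≤ 2 * ((univ.filter (fun d : Dir p g => ¬ lin d x ∈ W₁' d)).card : ℝ) := by
            exact_mod_cast h8
          linarith
        · have h6 : (univ.filter (fun d : Dir p g => lin d x ∈ univ \ W₂ d)) =
            univ.filter (fun d : Dir p g => ¬ lin d x ∈ W₂ d) := by
            apply Finset.filter_congr
            intro d _
            simp
          rw [h6]
          have h7 := Finset.card_filter_add_card_filter_not (s := (univ : Finset (Dir p g)))
            (fun d => lin d x ∈ W₂ d)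
          rw [hcardD] at h7
          have h8 : g * p ≤ 2 * (univ.filter (fun d : Dir p g => ¬ lin d x ∈ W₂ d)).card := by omega
          have h9 : (g : ℝ) * p ≤ 2 * ((univ.filter (fun d : Dir p g => ¬ lin d x ∈ W₂ d)).card : ℝ) := by
            exact_mod_cast h8
          linarith
      · exact (Finset.mem_filter.mp hx).2
    have hcardX : (Fintype.card (Atom p K) : ℝ) = K * p := by
      rw [Fintype.card_prod, ZMod.card, Fintype.card_fin]; push_cast; ring
    have hKR : (0 : ℝ) < K := by exact_mod_cast hK1
    have hbad : (((Bad1 ∪ Bad2).card : ℕ) : ℝ) ≤ (Fintype.card (Atom p K) : ℝ) * (1 / K) := by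
      have h1 : (Bad1 ∪ Bad2).card ≤ p := by
        have := Finset.card_union_le Bad1 Bad2
        omega
      have h2 : (((Bad1 ∪ Bad2).card : ℕ) : ℝ) ≤ p := by exact_mod_cast h1
      rw [hcardX]
      have : (K : ℝ) * p * (1 / K) = p := by field_simp
      rw [this]
      exact h2
    have h1 : ((univ.filter (fun x : Atom p K => (∀ d, e₁ d ≠ some (lin d x)) ∧
        ∀ d, e₂ d ≠ some (lin d x))).card : ℝ) ≤ (((Bad1 ∪ Bad2).card : ℕ) : ℝ) +
        ((P.Xo.filter (fun x => (∀ d, e₁ d ≠ P.T₁ d x) ∧ ∀ d, e₂ d ≠ some (P.T d x))).card : ℝ) := by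
      have := (Finset.card_le_card hsub).trans (Finset.card_union_le _ _)
      exact_mod_cast this
    refine h1.trans ?_
    have hvv : P.vv = Real.exp (24 * g * (K : ℝ) ^ 2 / p) - 1 + 1 / (p * Real.exp (-(4 * K * g))) := rfl
    have hfmin : P.fmin = Real.exp (-(4 * K * g)) := rfl
    have hgg : P.g = g := rfl
    rw [hvv, hfmin, hgg] at hcount
    rw [mul_add]
    exact add_le_add hbad hcount

end gadget

/-- The gadget theorem for all large primes. -/
theorem gadget_eventually (g K : ℕ) (hg : 0 < g) (hK : 1 ≤ K) :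
    ∃ P₀ : ℕ, ∀ p : ℕ, P₀ ≤ p → p.Prime → ∀ [NeZero p], 
      ∀ W₁ W₂ : Dir p g → Finset (ZMod p),
      18 * (∑ d, (W₁ d).card + ∑ d, (W₂ d).card) ≤ g * p ^ 2 →
      ∃ e₁ e₂ : Dir p g → Option (ZMod p),
      (∀ d v, e₁ d = some v → v ∉ W₁ d) ∧ (∀ d v, e₂ d = some v → v ∉ W₂ d) ∧
      ((univ.filter (fun x : Atom p K => (∀ d, e₁ d ≠ some (lin d x)) ∧
        ∀ d, e₂ d ≠ some (lin d x))).card : ℝ) ≤
        (Fintype.card (Atom p K) : ℝ) * (1 / K + 2 * Real.exp (-((g : ℝ) / 8 * Real.exp ((g : ℝ) / 2)))) := by
  -- the error term tends to its limit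
  have hlim : Filter.Tendsto (fun p : ℕ => 16 * (Real.exp (24 * g * (K : ℝ) ^ 2 / p) - 1 +
          1 / (p * Real.exp (-(4 * K * g)))) +
          Real.exp (-((g : ℝ) / 8 * Real.exp ((g : ℝ) / 2)) + g * (Real.exp (24 * g * (K : ℝ) ^ 2 / p) - 1 +
          1 / (p * Real.exp (-(4 * K * g)))) / Real.exp (-(4 * K * g)))) Filter.atTop
      (nhds (Real.exp (-((g : ℝ) / 8 * Real.exp ((g : ℝ) / 2))))) := by
    have h1 : Filter.Tendsto (fun p : ℕ => Real.exp (24 * g * (K : ℝ) ^ 2 / (p : ℝ))) Filter.atTop (nhds 1) := by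
      have h2 : Filter.Tendsto (fun p : ℕ => 24 * g * (K : ℝ) ^ 2 / (p : ℝ)) Filter.atTop (nhds 0) :=
        tendsto_const_div_atTop_nhds_zero_nat _
      have h3 := (Real.continuous_exp.tendsto 0).comp h2
      rw [Real.exp_zero] at h3
      exact h3
    have h4 : Filter.Tendsto (fun p : ℕ => 1 / ((p : ℝ) * Real.exp (-(4 * K * g)))) Filter.atTop (nhds 0) := by
      have h5 : Filter.Tendsto (fun p : ℕ => (1 / Real.exp (-(4 * K * g))) / (p : ℝ)) Filter.atTop (nhds 0) :=
        tendsto_const_div_atTop_nhds_zero_nat _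
      refine h5.congr ?_
      intro p
      rw [div_div, mul_comm]
    have h6 : Filter.Tendsto (fun p : ℕ => Real.exp (24 * g * (K : ℝ) ^ 2 / (p : ℝ)) - 1 +
          1 / ((p : ℝ) * Real.exp (-(4 * K * g)))) Filter.atTop (nhds 0) := by
      have := (h1.sub_const 1).add h4
      simpa using this
    have h7 : Filter.Tendsto (fun p : ℕ => Real.exp (-((g : ℝ) / 8 * Real.exp ((g : ℝ) / 2)) +
        g * (Real.exp (24 * g * (K : ℝ) ^ 2 / (p : ℝ)) - 1 +
          1 / ((p : ℝ) * Real.exp (-(4 * K * g)))) / Real.exp (-(4 * K * g)))) Filter.atTop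
          (nhds (Real.exp (-((g : ℝ) / 8 * Real.exp ((g : ℝ) / 2))))) := by
      have h8 : Filter.Tendsto (fun p : ℕ => -((g : ℝ) / 8 * Real.exp ((g : ℝ) / 2)) +
        g * (Real.exp (24 * g * (K : ℝ) ^ 2 / (p : ℝ)) - 1 +
          1 / ((p : ℝ) * Real.exp (-(4 * K * g)))) / Real.exp (-(4 * K * g))) Filter.atTop
          (nhds (-((g : ℝ) / 8 * Real.exp ((g : ℝ) / 2)))) := by
        have := ((h6.const_mul (g : ℝ)).div_const (Real.exp (-(4 * K * g)))).const_add
          (-((g : ℝ) / 8 * Real.exp ((g : ℝ) / 2)))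
        simpa using this
      exact (Real.continuous_exp.tendsto _).comp h8
    have := (h6.const_mul 16).add h7
    simpa using this
  have hpos : Real.exp (-((g : ℝ) / 8 * Real.exp ((g : ℝ) / 2))) <
      2 * Real.exp (-((g : ℝ) / 8 * Real.exp ((g : ℝ) / 2))) := by
    have := Real.exp_pos (-((g : ℝ) / 8 * Real.exp ((g : ℝ) / 2)))
    linarith
  have hev := hlim.eventually_lt_const hpos
  rw [Filter.eventually_atTop] at hev
  obtain ⟨P₁, hP₁⟩ := hev
  refine ⟨max P₁ (max 5 (4 * K)), ?_⟩
  intro p hp hprime _ W₁ W₂ hW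
  obtain ⟨e₁, e₂, h1, h2, h3⟩ := gadget_cover (K := K) hprime (by omega) hg (by omega) hK W₁ W₂ hW
  refine ⟨e₁, e₂, h1, h2, h3.trans ?_⟩
  apply mul_le_mul_of_nonneg_left _ (by positivity)
  have := (hP₁ p (by omega)).le
  linarith

end H19RP
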