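import Mathlib

/-!
Definitions for the cover number of r-partite r-graphs with pairwise intersecting
edge covers (MP_39270e_co).

The parts are labelled by `Fin r`, and the vertices of part number `i` are the pairs
`(i, a)` with `a` a natural number.  An edge (or a transversal) has exactly one vertex
in each part, so it is the same thing as a function `e : Fin r → ℕ`; its vertices are
the pairs `(i, e i)`.  A finite r-partite r-graph is a finite set of such functions.
-/

namespace H19RP

/-- The transversals (or edges) `a` and `b` share a vertex. -/
def Meets {r : ℕ} (a b : Fin r → ℕ) : Prop := ∃ i, a i = b i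

/-- The vertex set `W` meets every edge of `H`. -/
def IsCover {r : ℕ} (W : Finset (Fin r × ℕ)) (H : Finset (Fin r → ℕ)) : Prop :=
  ∀ e ∈ H, ∃ i, (i, e i) ∈ W

/-- The cover number of `H`: the least size of a vertex set meeting every edge. -/
noncomputable def tau {r : ℕ} (H : Finset (Fin r → ℕ)) : ℕ :=
  sInf {n | ∃ W : Finset (Fin r × ℕ), IsCover W H ∧ W.card = n}

/-- `H` is `k`-intersectingly covered: to every set `S` of at most `k` edges one can
assign a transversal `C S` which is an edge of `H`, covers `S` (meets every edge of `S`),
and such that any two of the assigned transversals share a vertex. -/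
def IntersectinglyCovered {r : ℕ} (k : ℕ) (H : Finset (Fin r → ℕ)) : Prop :=
  ∃ C : Finset (Fin r → ℕ) → (Fin r → ℕ),
    ∀ S ⊆ H, S.card ≤ k →
      (∀ e ∈ S, Meets (C S) e) ∧ C S ∈ H ∧ ∀ S' ⊆ H, S'.card ≤ k → Meets (C S) (C S')

end H19RP
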