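import Mathlib
import Pool.Agent.H19.RPDefs

/-! From a family all of whose small subfamilies have a common transversal cover to a
`k`-intersectingly covered hypergraph with one more part. -/

namespace H19RP

open Finset

theorem tau_ge {r : ℕ} (hr : 0 < r) (H : Finset (Fin r → ℕ)) (t : ℕ)
    (h : ∀ W : Finset (Fin r × ℕ), W.card < t → ¬ IsCover W H) : t ≤ tau H := by
  classical
  unfold tau
  apply le_csInf
  · refine ⟨_, H.image (fun e => ((⟨0, hr⟩ : Fin r), e ⟨0, hr⟩)), ?_, rfl⟩
    intro e he
    exact ⟨⟨0, hr⟩, Finset.mem_image_of_mem _ he⟩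
  · rintro n ⟨W, hW, rfl⟩
    by_contra hlt
    exact h W (not_le.mp hlt) hW

theorem assembly {ι V : Type} [Fintype ι] [Fintype V] [DecidableEq ι] [DecidableEq V]
    (r k t : ℕ) (hr : Fintype.card ι + 1 = r) (H₁ : Finset (ι → V))
    (hcov : ∀ S ⊆ H₁, S.card ≤ k → ∃ T : ι → V, ∀ e ∈ S, ∃ i, T i = e i)
    (hW : ∀ W : Finset (ι × V), W.card < t → ∃ e ∈ H₁, ∀ i, (i, e i) ∉ W) :
    ∃ H : Finset (Fin r → ℕ), IntersectinglyCovered k H ∧ t ≤ tau H := by
  classical
  have hcard : Fintype.card (Fin r) = Fintype.card (Option ι) := by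
    simp [← hr]
  let φ : Fin r ≃ Option ι := Fintype.equivOfCardEq hcard
  let enc : V → ℕ := fun v => (Fintype.equivFin V v : ℕ)
  have henc : Function.Injective enc := by
    intro a b hab
    exact (Fintype.equivFin V).injective (Fin.ext hab)
  let E1 : (ι → V) → ℕ → Fin r → ℕ := fun e m j => (φ j).elim (m + 1) (fun i => enc (e i))
  let E2 : (ι → V) → Fin r → ℕ := fun T j => (φ j).elim 0 (fun i => enc (T i))
  have hE1s : ∀ e m i, E1 e m (φ.symm (some i)) = enc (e i) := by
    intro e m i; simp [E1]
  have hE1n : ∀ e m, E1 e m (φ.symm none) = m + 1 := by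
    intro e m; simp [E1]
  have hE2s : ∀ T i, E2 T (φ.symm (some i)) = enc (T i) := by
    intro T i; simp [E2]
  have hE2n : ∀ T, E2 T (φ.symm none) = 0 := by
    intro T; simp [E2]
  let H : Finset (Fin r → ℕ) :=
    (H₁ ×ˢ Finset.range t).image (fun q => E1 q.1 q.2) ∪
      (Finset.univ : Finset (ι → V)).image E2
  have hr0 : 0 < r := by omega
  refine ⟨H, ?_, ?_⟩
  · have hex : ∀ S : Finset (Fin r → ℕ), ∃ T : ι → V, (S ⊆ H → S.card ≤ k →
        ∀ e ∈ H₁, (∃ m, E1 e m ∈ S) → ∃ i, T i = e i) := by
      intro S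
      by_cases hS : S ⊆ H ∧ S.card ≤ k
      · let S₁ := H₁.filter (fun e => ∃ m, E1 e m ∈ S)
        have hc : S₁.card ≤ S.card := by
          have hch : ∀ e ∈ S₁, ∃ m, E1 e m ∈ S := fun e he => (Finset.mem_filter.mp he).2
          choose! mm hmm using hch
          apply Finset.card_le_card_of_injOn (fun e => E1 e (mm e))
          · intro e he
            exact hmm e he
          · intro e _ e' _ hee
            funext i
            have := congrFun hee (φ.symm (some i))
            simp only [hE1s] at this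
            exact henc this
        obtain ⟨T, hT⟩ := hcov S₁ (Finset.filter_subset _ _) (hc.trans hS.2)
        refine ⟨T, fun _ _ e he hm => hT e (Finset.mem_filter.mpr ⟨he, hm⟩)⟩
      · obtain ⟨T, _⟩ := hcov ∅ (Finset.empty_subset _) (by simp)
        refine ⟨T, fun h1 h2 => absurd ⟨h1, h2⟩ hS⟩
    choose T hT using hex
    refine ⟨fun S => E2 (T S), ?_⟩
    intro S hSH hSk
    refine ⟨?_, ?_, ?_⟩
    · intro e he
      have heH := hSH he
      rcases Finset.mem_union.mp heH with h1 | h2
      · obtain ⟨⟨e₁, m⟩, hq, rfl⟩ := Finset.mem_image.mp h1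
        have he₁ : e₁ ∈ H₁ := (Finset.mem_product.mp hq).1
        obtain ⟨i, hi⟩ := hT S hSH hSk e₁ he₁ ⟨m, he⟩
        refine ⟨φ.symm (some i), ?_⟩
        simp only [hE2s, hE1s, hi]
      · obtain ⟨T', _, rfl⟩ := Finset.mem_image.mp h2
        refine ⟨φ.symm none, ?_⟩
        simp only [hE2n]
    · exact Finset.mem_union_right _ (Finset.mem_image_of_mem _ (Finset.mem_univ _))
    · intro S' _ _
      refine ⟨φ.symm none, ?_⟩
      simp only [hE2n]
  · apply tau_ge hr0
    intro W hWt hcovW
    -- pull back the cover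
    let W' : Finset (ι × V) := Finset.univ.filter (fun q => (φ.symm (some q.1), enc q.2) ∈ W)
    have hW' : W'.card ≤ W.card := by
      apply Finset.card_le_card_of_injOn (fun q => (φ.symm (some q.1), enc q.2))
      · intro q hq
        simpa [W'] using hq
      · rintro ⟨i, v⟩ _ ⟨i', v'⟩ _ h
        simp only [Prod.mk.injEq, EmbeddingLike.apply_eq_iff_eq, Option.some.injEq] at h
        exact Prod.ext h.1 (henc h.2)
    obtain ⟨e, he, hav⟩ := hW W' (lt_of_le_of_lt hW' hWt)
    have hm : ∃ m ∈ Finset.range t, (φ.symm none, m + 1) ∉ W := by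
      by_contra hno
      push Not at hno
      have : t ≤ W.card := by
        have : (Finset.range t).card ≤ W.card := by
          apply Finset.card_le_card_of_injOn (fun m => (φ.symm none, m + 1))
          · intro m hm
            exact hno m hm
          · intro m _ m' _ h
            simp only [Prod.mk.injEq, true_and] at h
            omega
        simpa using this
      omega
    obtain ⟨m, hm, hmW⟩ := hm
    have hin : E1 e m ∈ H :=
      Finset.mem_union_left _ (Finset.mem_image.mpr ⟨(e, m), Finset.mem_product.mpr ⟨he, hm⟩, rfl⟩)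
    obtain ⟨j, hj⟩ := hcovW _ hin
    rcases hφ : φ j with _ | i
    · have : j = φ.symm none := by rw [← hφ]; simp
      subst this
      rw [hE1n] at hj
      exact hmW hj
    · have : j = φ.symm (some i) := by rw [← hφ]; simp
      subst this
      rw [hE1s] at hj
      apply hav i
      simp [W', hj]

end H19RP
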