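import Mathlib
import Pool.Agent.H19.RPDefs
import Pool.Agent.H19.RPAssembly
import Pool.Agent.H19.RPRounding

/-! The lower bound `c r^2 / (1 + log (k / r))`. -/

namespace H19RP

open Finset

/-- The combinatorial covering statement: edges which carry a common label `j` on all but
`q` of the `n` parts. -/
theorem near_cover (n q h m k : ℕ) (hh : h + q ≤ n)
    (hmiss : (k : ℝ) * (1 - 1 / (m : ℝ)) ^ (h - q) ≤ ((n - h - q : ℕ) : ℝ)) (hm : 0 < m)
    (V : Type) [DecidableEq V] (lab : Fin m → V)
    (S : Finset (Fin n → V)) (hS : S.card ≤ k)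
    (hlab : ∀ e ∈ S, ∃ j : Fin m, n ≤ (univ.filter (fun i => e i = lab j)).card + q) :
    ∃ T : Fin n → V, ∀ e ∈ S, ∃ i, T i = e i := by
  classical
  have hch : ∀ e : Fin n → V, ∃ j : Fin m, e ∈ S →
      n ≤ (univ.filter (fun i => e i = lab j)).card + q := by
    intro e
    by_cases he : e ∈ S
    · obtain ⟨j, hj⟩ := hlab e he
      exact ⟨j, fun _ => hj⟩
    · exact ⟨⟨0, hm⟩, fun h => absurd h he⟩
  choose j hj using hch
  let I : (Fin n → V) → Finset (Fin n) := fun e => univ.filter (fun i => e i = lab (j e))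
  have hI : ∀ e ∈ S, n ≤ (I e).card + q := fun e he => hj e he
  let F : Finset (Fin n) := univ.filter (fun i => i.val < h)
  have hhn : h ≤ n := by omega
  have hF : F.card = h := by
    have : F = (Finset.univ : Finset (Fin h)).map (Fin.castLEEmb hhn) := by
      ext i
      simp only [F, Finset.mem_filter, Finset.mem_univ, true_and, Finset.mem_map,
        Fin.castLEEmb_apply]
      constructor
      · intro hi
        exact ⟨⟨i.val, hi⟩, by ext; simp⟩
      · rintro ⟨a, rfl⟩
        simp
    rw [this, Finset.card_map, Finset.card_univ, Fintype.card_fin]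
  have hIF : ∀ e ∈ S, h - q ≤ (I e ∩ F).card := by
    intro e he
    have h1 := hI e he
    have h2 : (I e ∪ F).card ≤ n := by
      have := Finset.card_le_univ (I e ∪ F)
      simpa using this
    have h3 := Finset.card_union_add_card_inter (I e) F
    omega
  have hIG : ∀ e ∈ S, n - h - q ≤ (I e \ F).card := by
    intro e he
    have h1 := hI e he
    have h3 : (I e \ F).card + (I e ∩ F).card = (I e).card := Finset.card_sdiff_add_card_inter _ _
    have h4 : (I e ∩ F).card ≤ F.card := Finset.card_le_card Finset.inter_subset_right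
    omega
  -- rounding on the first `h` parts
  obtain ⟨e₀, he₀, hmis⟩ := rounding (ι := Fin n) (V := Fin m) (X := Fin n → V)
    (fun _ => (univ : Finset (Fin m))) (fun _ _ => 1 / (m : ℝ))
    (fun _ _ _ => by positivity)
    (fun _ => by
      have hm' : (m : ℝ) ≠ 0 := by positivity
      rw [Finset.sum_const, Finset.card_univ, Fintype.card_fin, nsmul_eq_mul]
      field_simp; exact le_refl _)
    S (fun e i => if i ∈ I e ∩ F then {j e} else ∅)
  set M := S.filter (fun x => ∀ i, ∀ v ∈ (if i ∈ I x ∩ F then ({j x} : Finset (Fin m)) else ∅),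
    e₀ i ≠ some v) with hMdef
  have hm1 : (0 : ℝ) ≤ 1 - 1 / (m : ℝ) := by
    have : (1 : ℝ) ≤ m := by exact_mod_cast hm
    rw [sub_nonneg, div_le_one (by positivity)]
    exact this
  have hm2 : 1 - 1 / (m : ℝ) ≤ 1 := by
    have : (0 : ℝ) ≤ 1 / m := by positivity
    linarith
  have hMcard : M.card ≤ n - h - q := by
    have h1 : (M.card : ℝ) ≤ (k : ℝ) * (1 - 1 / (m : ℝ)) ^ (h - q) := by
      have hmis' : (M.card : ℝ) ≤ ∑ x ∈ S, ∏ i, (1 - ∑ v ∈ (univ : Finset (Fin m)) ∩
          (if i ∈ I x ∩ F then ({j x} : Finset (Fin m)) else ∅), 1 / (m : ℝ)) := by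
        convert hmis
      refine hmis'.trans ?_
      have h2 : ∀ e ∈ S, ∏ i, (1 - ∑ v ∈ (univ : Finset (Fin m)) ∩
          (if i ∈ I e ∩ F then ({j e} : Finset (Fin m)) else ∅), 1 / (m : ℝ))
          ≤ (1 - 1 / (m : ℝ)) ^ (h - q) := by
        intro e he
        have h3 : ∀ i, (1 - ∑ v ∈ (univ : Finset (Fin m)) ∩
          (if i ∈ I e ∩ F then ({j e} : Finset (Fin m)) else ∅), 1 / (m : ℝ))
          = if i ∈ I e ∩ F then (1 - 1 / (m : ℝ)) else 1 := by
          intro i
          split_ifs <;> simp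
        simp_rw [h3]
        rw [Finset.prod_ite, Finset.prod_const, Finset.prod_const_one, mul_one]
        apply pow_le_pow_of_le_one hm1 hm2
        have : (univ.filter (fun i => i ∈ I e ∩ F)) = I e ∩ F := by
          ext i; simp
        rw [this]
        exact hIF e he
      calc ∑ x ∈ S, ∏ i, (1 - ∑ v ∈ (univ : Finset (Fin m)) ∩
            (if i ∈ I x ∩ F then ({j x} : Finset (Fin m)) else ∅), 1 / (m : ℝ))
          ≤ ∑ x ∈ S, (1 - 1 / (m : ℝ)) ^ (h - q) := Finset.sum_le_sum h2
        _ = (S.card : ℝ) * (1 - 1 / (m : ℝ)) ^ (h - q) := by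
            rw [Finset.sum_const, nsmul_eq_mul]
        _ ≤ (k : ℝ) * (1 - 1 / (m : ℝ)) ^ (h - q) := by
            apply mul_le_mul_of_nonneg_right _ (pow_nonneg hm1 _)
            exact_mod_cast hS
    have h2 := h1.trans hmiss
    exact_mod_cast h2
  -- Hall on the remaining parts
  have hall : ∃ f : M → Fin n, Function.Injective f ∧ ∀ x : M, f x ∈ I x.1 \ F := by
    rw [← Finset.all_card_le_biUnion_card_iff_exists_injective]
    intro s
    rcases s.eq_empty_or_nonempty with rfl | ⟨x, hx⟩
    · simp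
    · have h1 : (I x.1 \ F).card ≤ (s.biUnion (fun x : M => I x.1 \ F)).card :=
        Finset.card_le_card (Finset.subset_biUnion_of_mem (fun x : M => I x.1 \ F) hx)
      have h2 := hIG x.1 (Finset.mem_filter.mp x.2).1
      have h3 : s.card ≤ M.card := by
        have := Finset.card_le_univ s
        simpa using this
      omega
  obtain ⟨f, hf, hfI⟩ := hall
  let T : Fin n → V := fun i =>
    if hi : i ∈ F then lab ((e₀ i).getD ⟨0, hm⟩)
    else if hx : ∃ x : M, f x = i then lab (j hx.choose.1) else lab ⟨0, hm⟩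
  refine ⟨T, ?_⟩
  intro e he
  by_cases heM : e ∈ M
  · refine ⟨f ⟨e, heM⟩, ?_⟩
    have h1 := hfI ⟨e, heM⟩
    rw [Finset.mem_sdiff] at h1
    have hx : ∃ x : M, f x = f ⟨e, heM⟩ := ⟨_, rfl⟩
    have hx2 : hx.choose = ⟨e, heM⟩ := hf hx.choose_spec
    have h2 : T (f ⟨e, heM⟩) = lab (j e) := by
      simp only [T, dif_neg h1.2, dif_pos hx, hx2]
    rw [h2]
    have := (Finset.mem_filter.mp h1.1).2
    exact this.symm
  · have : ∃ i, i ∈ I e ∩ F ∧ e₀ i = some (j e) := by
      by_contra hno
      push Not at hno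
      apply heM
      rw [hMdef, Finset.mem_filter]
      refine ⟨he, ?_⟩
      intro i v hv
      split_ifs at hv with hi
      · rw [Finset.mem_singleton] at hv
        subst hv
        exact hno i hi
      · simp at hv
    obtain ⟨i, hi, hei⟩ := this
    rw [Finset.mem_inter] at hi
    refine ⟨i, ?_⟩
    have h1 : T i = lab (j e) := by
      simp only [T, dif_pos hi.2, hei, Option.getD_some]
    rw [h1]
    exact ((Finset.mem_filter.mp hi.1).2).symm

theorem near_lower (n q m : ℕ)
    (W : Finset (Fin n × (Fin m ⊕ Fin (m * (q + 1))))) (hW : W.card < m * (q + 1)) :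
    ∃ e : Fin n → Fin m ⊕ Fin (m * (q + 1)),
      (∃ j : Fin m, n ≤ (univ.filter (fun i => e i = Sum.inl j)).card + q) ∧
      ∀ i, (i, e i) ∉ W := by
  classical
  -- a label with few vertices in W
  have h1 : ∃ j : Fin m, (univ.filter (fun i : Fin n => (i, (Sum.inl j : Fin m ⊕ Fin (m * (q + 1)))) ∈ W)).card ≤ q := by
    by_contra hno
    push Not at hno
    have h2 : ∑ j : Fin m, (univ.filter (fun i : Fin n => (i, (Sum.inl j : Fin m ⊕ Fin (m * (q + 1)))) ∈ W)).card ≤ W.card := by
      rw [← Finset.card_sigma]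
      apply Finset.card_le_card_of_injOn (fun x => (x.2, (Sum.inl x.1 : Fin m ⊕ Fin (m * (q + 1)))))
      · rintro ⟨j, i⟩ hx
        simp at hx
        exact hx
      · rintro ⟨j, i⟩ _ ⟨j', i'⟩ _ h
        simp only [Prod.mk.injEq, Sum.inl.injEq] at h
        obtain ⟨rfl, rfl⟩ := h
        rfl
    have h3 : ∑ j : Fin m, (q + 1) ≤ ∑ j : Fin m, (univ.filter (fun i : Fin n => (i, (Sum.inl j : Fin m ⊕ Fin (m * (q + 1)))) ∈ W)).card :=
      Finset.sum_le_sum (fun j _ => hno j)
    rw [Finset.sum_const, Finset.card_univ, Fintype.card_fin, smul_eq_mul] at h3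
    omega
  obtain ⟨j, hj⟩ := h1
  have h2 : ∃ p : Fin (m * (q + 1)), ∀ i : Fin n, (i, (Sum.inr p : Fin m ⊕ Fin (m * (q + 1)))) ∉ W := by
    by_contra hno
    push Not at hno
    choose g hg using hno
    have : (univ : Finset (Fin (m * (q + 1)))).card ≤ W.card := by
      apply Finset.card_le_card_of_injOn (fun p => (g p, (Sum.inr p : Fin m ⊕ Fin (m * (q + 1)))))
      · intro p _
        exact hg p
      · intro p _ p' _ h
        simp only [Prod.mk.injEq, Sum.inr.injEq] at h
        exact h.2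
    rw [Finset.card_univ, Fintype.card_fin] at this
    omega
  obtain ⟨p, hp⟩ := h2
  refine ⟨fun i => if (i, (Sum.inl j : Fin m ⊕ Fin (m * (q + 1)))) ∈ W then Sum.inr p else Sum.inl j,
    ⟨j, ?_⟩, ?_⟩
  · have h3 : (univ.filter (fun i : Fin n => (if (i, (Sum.inl j : Fin m ⊕ Fin (m * (q + 1)))) ∈ W then
        (Sum.inr p : Fin m ⊕ Fin (m * (q + 1))) else Sum.inl j) = Sum.inl j))
        = univ.filter (fun i : Fin n => ¬ (i, (Sum.inl j : Fin m ⊕ Fin (m * (q + 1)))) ∈ W) := by
      apply Finset.filter_congr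
      intro i _
      split_ifs with h <;> simp [h]
    rw [h3]
    have h4 := Finset.card_filter_add_card_filter_not (s := (univ : Finset (Fin n)))
      (fun i : Fin n => (i, (Sum.inl j : Fin m ⊕ Fin (m * (q + 1)))) ∈ W)
    rw [Finset.card_univ, Fintype.card_fin] at h4
    omega
  · intro i
    by_cases hi : (i, (Sum.inl j : Fin m ⊕ Fin (m * (q + 1)))) ∈ W
    · simp only [if_pos hi]; exact hp i
    · simp only [if_neg hi]; exact hi

theorem near_constr (r n q h m k : ℕ) (hr : n + 1 = r) (hh : h + q ≤ n)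
    (hmiss : (k : ℝ) * (1 - 1 / (m : ℝ)) ^ (h - q) ≤ ((n - h - q : ℕ) : ℝ)) (hm : 0 < m) :
    ∃ H : Finset (Fin r → ℕ), IntersectinglyCovered k H ∧ m * (q + 1) ≤ tau H := by
  classical
  let V := Fin m ⊕ Fin (m * (q + 1))
  let H₁ : Finset (Fin n → V) := univ.filter (fun e => ∃ j : Fin m,
    n ≤ (univ.filter (fun i => e i = Sum.inl j)).card + q)
  apply assembly (ι := Fin n) (V := V) r k (m * (q + 1)) (by simpa using hr) H₁
  · intro S hS hSk
    apply near_cover n q h m k hh hmiss hm V Sum.inl S hSk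
    intro e he
    exact (Finset.mem_filter.mp (hS he)).2
  · intro W hW
    obtain ⟨e, he, hav⟩ := near_lower n q m W hW
    exact ⟨e, Finset.mem_filter.mpr ⟨Finset.mem_univ _, he⟩, hav⟩

theorem trivial_constr (r k : ℕ) (hr : 0 < r) :
    ∃ H : Finset (Fin r → ℕ), IntersectinglyCovered k H ∧ 1 ≤ tau H := by
  classical
  refine ⟨{fun _ => 0}, ⟨fun _ => fun _ => 0, ?_⟩, ?_⟩
  · intro S hS _
    refine ⟨?_, by simp, ?_⟩
    · intro e he
      have := hS he
      rw [Finset.mem_singleton] at this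
      subst this
      exact ⟨⟨0, hr⟩, rfl⟩
    · intro S' _ _
      exact ⟨⟨0, hr⟩, rfl⟩
  · apply tau_ge hr
    intro W hW hc
    have hW0 : W = ∅ := by
      rw [← Finset.card_eq_zero]; omega
    subst hW0
    obtain ⟨i, hi⟩ := hc (fun _ => 0) (by simp)
    simp at hi

theorem near_main : ∀ r k : ℕ, 2 ≤ r → r ≤ k →
    ∃ H : Finset (Fin r → ℕ), IntersectinglyCovered k H ∧
      (1 / 1024 : ℝ) * (r : ℝ) ^ 2 / (1 + Real.log ((k : ℝ) / r)) ≤ tau H := by
  intro r k hr hrk
  have hrpos : (0 : ℝ) < r := by positivity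
  have hkr : (1 : ℝ) ≤ (k : ℝ) / r := by
    rw [le_div_iff₀ hrpos, one_mul]; exact_mod_cast hrk
  have hlog : 0 ≤ Real.log ((k : ℝ) / r) := Real.log_nonneg hkr
  set L : ℝ := 1 + Real.log ((k : ℝ) / r) with hL
  have hL1 : 1 ≤ L := by linarith
  by_cases hsmall : r ≤ 20
  · obtain ⟨H, hH, ht⟩ := trivial_constr r k (by omega)
    refine ⟨H, hH, ?_⟩
    have h1 : (1 : ℝ) ≤ tau H := by exact_mod_cast ht
    refine le_trans ?_ h1
    rw [div_le_one (by linarith)]
    have h2 : (r : ℝ) ≤ 20 := by exact_mod_cast hsmall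
    nlinarith
  · push Not at hsmall
    obtain ⟨n, rfl⟩ : ∃ n, r = n + 1 := ⟨r - 1, by omega⟩
    have hn : 20 ≤ n := by omega
    set q := n / 8 with hq
    set h := n / 2 with hh
    set m := ⌊(n : ℝ) / (16 * L)⌋₊ + 1 with hm
    have hmpos : 0 < m := by omega
    have hmR : (n : ℝ) / (16 * L) ≤ m := by
      rw [hm]; push_cast
      exact (Nat.lt_floor_add_one _).le
    have hq1 : 8 * q ≤ n := by omega
    have hq2 : n < 8 * (q + 1) := by omega
    have hh1 : 2 * h ≤ n := by omega
    have hh2 : n < 2 * h + 2 := by omega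
    have hq1R : 8 * (q : ℝ) ≤ n := by exact_mod_cast hq1
    have hq2R : (n : ℝ) ≤ 8 * (q + 1) := by exact_mod_cast hq2.le
    have hh1R : 2 * (h : ℝ) ≤ n := by exact_mod_cast hh1
    have hh2R : (n : ℝ) + 1 ≤ 2 * h + 2 := by exact_mod_cast hh2
    have hnR : (20 : ℝ) ≤ n := by exact_mod_cast hn
    have hqh : q ≤ h := by omega
    have hmiss : (k : ℝ) * (1 - 1 / (m : ℝ)) ^ (h - q) ≤ ((n - h - q : ℕ) : ℝ) := by
      have hsub : ((n - h - q : ℕ) : ℝ) = n - h - q := by
        rw [Nat.cast_sub (by omega), Nat.cast_sub (by omega)]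
      rw [hsub]
      have hge : 3 * (n : ℝ) / 8 ≤ n - h - q := by linarith
      rcases lt_or_ge ((n : ℝ) / (16 * L)) 1 with hlt | hge1
      · have : m = 1 := by
          rw [hm, Nat.floor_eq_zero.mpr hlt]
        rw [this]
        have h0 : (1 - 1 / ((1 : ℕ) : ℝ)) = 0 := by norm_num
        rw [h0, zero_pow (by omega : h - q ≠ 0), mul_zero]
        linarith
      · have hm8 : (m : ℝ) ≤ n / (8 * L) := by
          have h1 : (⌊(n : ℝ) / (16 * L)⌋₊ : ℝ) ≤ (n : ℝ) / (16 * L) :=
            Nat.floor_le (by positivity)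
          have h2 : (m : ℝ) ≤ (n : ℝ) / (16 * L) + 1 := by
            rw [hm]; push_cast; linarith
          have h3 : (n : ℝ) / (8 * L) = 2 * ((n : ℝ) / (16 * L)) := by
            field_simp; norm_num
          linarith
        have hmR0 : (0 : ℝ) < m := by exact_mod_cast hmpos
        have hexp : (1 - 1 / (m : ℝ)) ^ (h - q) ≤ Real.exp (-(2 * L)) := by
          have h1 : 1 - 1 / (m : ℝ) ≤ Real.exp (-(1 / (m : ℝ))) := by
            have := Real.add_one_le_exp (-(1 / (m : ℝ)))
            linarith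
          have h0 : 0 ≤ 1 - 1 / (m : ℝ) := by
            rw [sub_nonneg, div_le_one hmR0]; exact_mod_cast hmpos
          calc (1 - 1 / (m : ℝ)) ^ (h - q) ≤ (Real.exp (-(1 / (m : ℝ)))) ^ (h - q) :=
                pow_le_pow_left₀ h0 h1 _
            _ = Real.exp (((h - q : ℕ) : ℝ) * (-(1 / (m : ℝ)))) := (Real.exp_nat_mul _ _).symm
            _ ≤ Real.exp (-(2 * L)) := by
                apply Real.exp_le_exp.mpr
                have h2 : ((h - q : ℕ) : ℝ) = h - q := by rw [Nat.cast_sub hqh]
                rw [h2]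
                have h3 : 2 * L * m ≤ h - q := by
                  have : m * (8 * L) ≤ n := by
                    rw [le_div_iff₀ (by positivity)] at hm8
                    exact hm8
                  nlinarith
                have h4 : 2 * L ≤ (h - q) * (1 / (m : ℝ)) := by
                  rw [mul_one_div, le_div_iff₀ hmR0]; exact h3
                linarith
        have hexp2 : Real.exp (-(2 * L)) ≤ (1 / 4) * (((n + 1 : ℕ) : ℝ) / k) ^ 2 := by
          have hkpos : (0 : ℝ) < k := by
            have : 0 < k := by omega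
            exact_mod_cast this
          have h1 : Real.exp (-(2 * L)) = Real.exp (-2) * (Real.exp (-(Real.log ((k : ℝ) / ((n + 1 : ℕ) : ℝ))))) ^ 2 := by
            rw [← Real.exp_nat_mul, ← Real.exp_add]
            congr 1
            rw [hL]; push_cast; ring
          rw [h1, Real.exp_neg (Real.log ((k : ℝ) / ((n + 1 : ℕ) : ℝ))),
            Real.exp_log (by positivity), inv_div]
          apply mul_le_mul_of_nonneg_right _ (by positivity)
          have h2 : (2 : ℝ) + 1 ≤ Real.exp 2 := Real.add_one_le_exp 2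
          have h4 : Real.exp 1 * Real.exp 1 = Real.exp 2 := by
            rw [← Real.exp_add]; norm_num
          have h5 : (2 : ℝ) ≤ Real.exp 1 := by
            have := Real.add_one_le_exp (1 : ℝ); linarith
          have h6 : 4 ≤ Real.exp 2 := by nlinarith
          rw [Real.exp_neg, one_div]
          exact inv_anti₀ (by norm_num) h6
        have hkpos : (0 : ℝ) < k := by
          have : 0 < k := by omega
          exact_mod_cast this
        calc (k : ℝ) * (1 - 1 / (m : ℝ)) ^ (h - q)
            ≤ k * ((1 / 4) * (((n + 1 : ℕ) : ℝ) / k) ^ 2) := by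
              apply mul_le_mul_of_nonneg_left (hexp.trans hexp2) hkpos.le
          _ = (1 / 4) * ((n + 1 : ℕ) : ℝ) * (((n + 1 : ℕ) : ℝ) / k) := by
              field_simp
          _ ≤ (1 / 4) * ((n + 1 : ℕ) : ℝ) * 1 := by
              apply mul_le_mul_of_nonneg_left _ (by positivity)
              rw [div_le_one hkpos]; exact_mod_cast hrk
          _ ≤ 3 * (n : ℝ) / 8 := by push_cast; linarith
          _ ≤ _ := hge
    obtain ⟨H, hH, ht⟩ := near_constr (n + 1) n q h m k rfl (by omega) hmiss hmpos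
    refine ⟨H, hH, ?_⟩
    have h1 : ((m * (q + 1) : ℕ) : ℝ) ≤ tau H := by exact_mod_cast ht
    refine le_trans ?_ h1
    push_cast
    have h2 : (n : ℝ) / (16 * L) * (n / 8) ≤ (m : ℝ) * (q + 1) := by
      apply mul_le_mul hmR (by linarith) (by positivity) (by positivity)
    refine le_trans ?_ h2
    have h3 : (n : ℝ) / (16 * L) * (n / 8) = (n : ℝ) ^ 2 / (128 * L) := by
      field_simp; norm_num
    rw [h3, div_le_div_iff₀ (by positivity) (by positivity)]
    have h4 : (n : ℝ) + 1 ≤ 2 * n := by linarith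
    have h5 : ((n : ℝ) + 1) ^ 2 ≤ 4 * (n : ℝ) ^ 2 := by nlinarith
    have hLpos : 0 < L := by linarith
    nlinarith [mul_le_mul_of_nonneg_right h5 hLpos.le]

end H19RP
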