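import Mathlib
import Pool.Agent.H19.RPDefs
import Pool.Agent.H19.RPAssembly
import Pool.Agent.H19.RPGadgetD

/-! Product of gadgets and the lower bound `f_r(k) ≥ C r^2 / log k`. -/

namespace H19RP

open Finset

/-- The conclusion of the gadget theorem with miss fraction `ε`. -/
def GadgetProp (g K p : ℕ) [NeZero p] (ε : ℝ) : Prop :=
  ∀ W₁ W₂ : Dir p g → Finset (ZMod p),
      18 * (∑ d, (W₁ d).card + ∑ d, (W₂ d).card) ≤ g * p ^ 2 →
      ∃ e₁ e₂ : Dir p g → Option (ZMod p),
      (∀ d v, e₁ d = some v → v ∉ W₁ d) ∧ (∀ d v, e₂ d = some v → v ∉ W₂ d) ∧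
      ((univ.filter (fun x : Atom p K => (∀ d, e₁ d ≠ some (lin d x)) ∧
        ∀ d, e₂ d ≠ some (lin d x))).card : ℝ) ≤
        (Fintype.card (Atom p K) : ℝ) * ε

theorem product_constr (g K p s s' rest k r : ℕ) [NeZero p] (ε : ℝ) (hε : 0 ≤ ε) (hε1 : ε ≤ 1)
    (hG : GadgetProp g K p ε) (hK : 1 ≤ K) (hs : s' ≤ s)
    (hr : s * (2 * (p * g)) + rest + 1 = r) (hk : (k : ℝ) * ε ^ s' < 1) :
    ∃ H : Finset (Fin r → ℕ), IntersectinglyCovered k H ∧
      ((s - s' + 1) * (g * p ^ 2)) / 18 ≤ tau H := by
  classical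
  have hne : Nonempty (Fin K) := ⟨⟨0, hK⟩⟩
  set t := ((s - s' + 1) * (g * p ^ 2)) / 18 + 1 with ht
  let ι := (Fin s × (Bool × Dir p g)) ⊕ Fin rest
  let V := ZMod p ⊕ Fin t
  let miss : (ι → V) → Fin s → Finset (Atom p K) := fun e b =>
    univ.filter (fun x => ∀ β d, e (Sum.inl (b, β, d)) ≠ Sum.inl (lin d x))
  let good : (ι → V) → Finset (Fin s) := fun e =>
    univ.filter (fun b => ((miss e b).card : ℝ) ≤ (Fintype.card (Atom p K) : ℝ) * ε)
  let H₁ : Finset (ι → V) := univ.filter (fun e => s' ≤ (good e).card)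
  have hXpos : (0 : ℝ) < Fintype.card (Atom p K) := by exact_mod_cast Fintype.card_pos
  have key : ∃ H : Finset (Fin r → ℕ), IntersectinglyCovered k H ∧ t ≤ tau H := by
    apply assembly (ι := ι) (V := V) r k t _ H₁
    · -- covering of `k` edges
      intro S hS hSk
      by_contra hno
      push Not at hno
      let T : (Fin s → Atom p K) → ι → V := fun x i =>
        match i with
        | Sum.inl (b, _, d) => Sum.inl (lin d (x b))
        | Sum.inr _ => Sum.inl 0
      have h1 : ∀ x : Fin s → Atom p K, ∃ e ∈ S, ∀ b, x b ∈ miss e b := by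
        intro x
        obtain ⟨e, he, hee⟩ := hno (T x)
        refine ⟨e, he, ?_⟩
        intro b
        simp only [miss, Finset.mem_filter, Finset.mem_univ, true_and]
        intro β d heq
        exact hee (Sum.inl (b, β, d)) heq.symm
      have h2 : (univ : Finset (Fin s → Atom p K)) ⊆ S.biUnion (fun e => Fintype.piFinset (miss e)) := by
        intro x _
        obtain ⟨e, he, hx⟩ := h1 x
        rw [Finset.mem_biUnion]
        exact ⟨e, he, Fintype.mem_piFinset.mpr hx⟩
      have h3 : ((Fintype.card (Atom p K) : ℝ)) ^ s ≤ ∑ e ∈ S, ∏ b, ((miss e b).card : ℝ) := by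
        have h4 := (Finset.card_le_card h2).trans Finset.card_biUnion_le
        rw [Finset.card_univ, Fintype.card_fun, Fintype.card_fin] at h4
        have h5 : ∀ e, ((Fintype.piFinset (miss e)).card : ℝ) = ∏ b, ((miss e b).card : ℝ) := by
          intro e
          rw [Fintype.card_piFinset]; push_cast; rfl
        have h6 : ((Fintype.card (Atom p K) ^ s : ℕ) : ℝ) ≤
            ((∑ e ∈ S, (Fintype.piFinset (miss e)).card : ℕ) : ℝ) := by exact_mod_cast h4
        rw [Nat.cast_pow, Nat.cast_sum] at h6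
        simp_rw [h5] at h6
        exact h6
      have h4 : ∀ e ∈ S, ∏ b, ((miss e b).card : ℝ) ≤ ε ^ s' * (Fintype.card (Atom p K) : ℝ) ^ s := by
        intro e he
        have hge : s' ≤ (good e).card := (Finset.mem_filter.mp (hS he)).2
        have h5 : ∀ b, ((miss e b).card : ℝ) ≤
            (if b ∈ good e then ε else 1) * (Fintype.card (Atom p K) : ℝ) := by
          intro b
          split_ifs with hb
          · have := (Finset.mem_filter.mp hb).2
            linarith
          · rw [one_mul]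
            exact_mod_cast Finset.card_le_univ _
        calc ∏ b, ((miss e b).card : ℝ)
            ≤ ∏ b, ((if b ∈ good e then ε else 1) * (Fintype.card (Atom p K) : ℝ)) := by
              apply Finset.prod_le_prod
              · intro b _; positivity
              · intro b _; exact h5 b
          _ = ε ^ (good e).card * (Fintype.card (Atom p K) : ℝ) ^ s := by
              rw [Finset.prod_mul_distrib, Finset.prod_const, Finset.card_univ, Fintype.card_fin,
                Finset.prod_ite, Finset.prod_const, Finset.prod_const_one, mul_one]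
              congr 3
              ext b; simp
          _ ≤ ε ^ s' * (Fintype.card (Atom p K) : ℝ) ^ s := by
              apply mul_le_mul_of_nonneg_right _ (by positivity)
              exact pow_le_pow_of_le_one hε hε1 hge
      have h5 : (Fintype.card (Atom p K) : ℝ) ^ s ≤ k * (ε ^ s' * (Fintype.card (Atom p K) : ℝ) ^ s) := by
        refine h3.trans ((Finset.sum_le_sum h4).trans ?_)
        rw [Finset.sum_const, nsmul_eq_mul]
        apply mul_le_mul_of_nonneg_right _ (by positivity)
        exact_mod_cast hSk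
      have h6 : 0 < (Fintype.card (Atom p K) : ℝ) ^ s := by positivity
      nlinarith
    · -- covers are large
      intro W hW
      let W₁ : Fin s → Dir p g → Finset (ZMod p) := fun b d =>
        univ.filter (fun v => ((Sum.inl (b, false, d) : ι), (Sum.inl v : V)) ∈ W)
      let W₂ : Fin s → Dir p g → Finset (ZMod p) := fun b d =>
        univ.filter (fun v => ((Sum.inl (b, true, d) : ι), (Sum.inl v : V)) ∈ W)
      let w : Fin s → ℕ := fun b => ∑ d, (W₁ b d).card + ∑ d, (W₂ b d).card
      have hsumw : ∑ b, w b ≤ W.card := by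
        have h1 : ∀ b, w b = ∑ q : Bool × Dir p g,
            (univ.filter (fun v : ZMod p => ((Sum.inl (b, q.1, q.2) : ι), (Sum.inl v : V)) ∈ W)).card := by
          intro b
          rw [Fintype.sum_prod_type]
          simp only [Fintype.sum_bool, w, W₁, W₂]
          rw [add_comm]
        simp_rw [h1]
        have h2 : ∑ b : Fin s, ∑ q : Bool × Dir p g,
            (univ.filter (fun v : ZMod p => ((Sum.inl (b, q.1, q.2) : ι), (Sum.inl v : V)) ∈ W)).card
            = ∑ bq : Fin s × (Bool × Dir p g),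
            (univ.filter (fun v : ZMod p => ((Sum.inl bq : ι), (Sum.inl v : V)) ∈ W)).card := by
          rw [Fintype.sum_prod_type]
        rw [h2, ← Finset.card_sigma]
        apply Finset.card_le_card_of_injOn (fun y => ((Sum.inl y.1 : ι), (Sum.inl y.2 : V)))
        · rintro ⟨bq, v⟩ hy
          simp only [Finset.coe_sigma, Set.mem_sigma_iff, Finset.mem_coe, Finset.mem_filter] at hy
          exact hy.2.2
        · rintro ⟨bq, v⟩ _ ⟨bq', v'⟩ _ h
          simp only [Prod.mk.injEq, Sum.inl.injEq] at h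
          obtain ⟨rfl, rfl⟩ := h
          rfl
      -- private value
      have hm : ∃ m : Fin t, ∀ i : ι, (i, (Sum.inr m : V)) ∉ W := by
        by_contra hno
        push Not at hno
        choose f hf using hno
        have : (univ : Finset (Fin t)).card ≤ W.card := by
          apply Finset.card_le_card_of_injOn (fun m => (f m, (Sum.inr m : V)))
          · intro m _; exact hf m
          · intro m _ m' _ h
            simp only [Prod.mk.injEq, Sum.inr.injEq] at h
            exact h.2
        rw [Finset.card_univ, Fintype.card_fin] at this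
        omega
      obtain ⟨m, hm⟩ := hm
      let Gd : Finset (Fin s) := univ.filter (fun b => 18 * w b ≤ g * p ^ 2)
      have hGd : s' ≤ Gd.card := by
        by_contra hlt
        push Not at hlt
        have h1 : s - s' + 1 ≤ (univ.filter (fun b => ¬ 18 * w b ≤ g * p ^ 2)).card := by
          have := Finset.card_filter_add_card_filter_not (s := (univ : Finset (Fin s)))
            (fun b => 18 * w b ≤ g * p ^ 2)
          rw [Finset.card_univ, Fintype.card_fin] at this
          have h2 : (univ.filter (fun b => 18 * w b ≤ g * p ^ 2)).card = Gd.card := rfl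
          omega
        have h2 : (univ.filter (fun b => ¬ 18 * w b ≤ g * p ^ 2)).card * (g * p ^ 2 + 1) ≤
            18 * ∑ b, w b := by
          rw [Finset.mul_sum]
          calc _ = ∑ b ∈ univ.filter (fun b => ¬ 18 * w b ≤ g * p ^ 2), (g * p ^ 2 + 1) := by
                rw [Finset.sum_const, smul_eq_mul]
            _ ≤ ∑ b ∈ univ.filter (fun b => ¬ 18 * w b ≤ g * p ^ 2), 18 * w b := by
                apply Finset.sum_le_sum
                intro b hb
                have := (Finset.mem_filter.mp hb).2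
                omega
            _ ≤ ∑ b, 18 * w b := Finset.sum_le_sum_of_subset (Finset.filter_subset _ _)
        have h3 : (s - s' + 1) * (g * p ^ 2 + 1) ≤ 18 * W.card := by
          calc _ ≤ (univ.filter (fun b => ¬ 18 * w b ≤ g * p ^ 2)).card * (g * p ^ 2 + 1) :=
                Nat.mul_le_mul_right _ h1
            _ ≤ 18 * ∑ b, w b := h2
            _ ≤ 18 * W.card := Nat.mul_le_mul_left _ hsumw
        have h4 : W.card ≤ ((s - s' + 1) * (g * p ^ 2)) / 18 := by omega
        have h5 : 18 * (((s - s' + 1) * (g * p ^ 2)) / 18) ≤ (s - s' + 1) * (g * p ^ 2) :=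
          Nat.mul_div_le _ _
        have h6 : (s - s' + 1) * (g * p ^ 2 + 1) = (s - s' + 1) * (g * p ^ 2) + (s - s' + 1) := by ring
        omega
      have hch : ∀ b : Fin s, ∃ e₁ e₂ : Dir p g → Option (ZMod p),
          (∀ d v, e₁ d = some v → v ∉ W₁ b d) ∧ (∀ d v, e₂ d = some v → v ∉ W₂ b d) ∧
          (b ∈ Gd → ((univ.filter (fun x : Atom p K => (∀ d, e₁ d ≠ some (lin d x)) ∧
            ∀ d, e₂ d ≠ some (lin d x))).card : ℝ) ≤ (Fintype.card (Atom p K) : ℝ) * ε) := by
        intro b
        by_cases hb : b ∈ Gd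
        · obtain ⟨e₁, e₂, h1, h2, h3⟩ := hG (W₁ b) (W₂ b) (Finset.mem_filter.mp hb).2
          exact ⟨e₁, e₂, h1, h2, fun _ => h3⟩
        · exact ⟨fun _ => none, fun _ => none, by simp, by simp, fun h => absurd h hb⟩
      choose e₁ e₂ he₁ he₂ hcount using hch
      let e : ι → V := fun i =>
        match i with
        | Sum.inl (b, false, d) => (e₁ b d).elim (Sum.inr m) Sum.inl
        | Sum.inl (b, true, d) => (e₂ b d).elim (Sum.inr m) Sum.inl
        | Sum.inr _ => Sum.inr m
      have hef : ∀ b d, e (Sum.inl (b, false, d)) = (e₁ b d).elim (Sum.inr m) Sum.inl := fun b d => rfl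
      have het : ∀ b d, e (Sum.inl (b, true, d)) = (e₂ b d).elim (Sum.inr m) Sum.inl := fun b d => rfl
      refine ⟨e, ?_, ?_⟩
      · rw [Finset.mem_filter]
        refine ⟨Finset.mem_univ _, hGd.trans (Finset.card_le_card ?_)⟩
        intro b hb
        rw [Finset.mem_filter]
        refine ⟨Finset.mem_univ _, le_trans ?_ (hcount b hb)⟩
        have : miss e b ⊆ univ.filter (fun x : Atom p K => (∀ d, e₁ b d ≠ some (lin d x)) ∧
            ∀ d, e₂ b d ≠ some (lin d x)) := by
          intro x hx
          rw [Finset.mem_filter] at hx ⊢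
          refine ⟨Finset.mem_univ _, ?_, ?_⟩
          · intro d hd
            apply hx.2 false d
            rw [hef, hd]; rfl
          · intro d hd
            apply hx.2 true d
            rw [het, hd]; rfl
        exact_mod_cast Finset.card_le_card this
      · rintro (⟨b, β, d⟩ | j)
        · cases β
          · rw [hef]
            rcases hv : e₁ b d with _ | v
            · exact hm _
            · have := he₁ b d v hv
              simp only [W₁, Finset.mem_filter, Finset.mem_univ, true_and] at this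
              exact this
          · rw [het]
            rcases hv : e₂ b d with _ | v
            · exact hm _
            · have := he₂ b d v hv
              simp only [W₂, Finset.mem_filter, Finset.mem_univ, true_and] at this
              exact this
        · exact hm _
    · rw [← hr]
      simp only [ι, Fintype.card_sum, Fintype.card_prod, Fintype.card_fin, Fintype.card_bool,
        ZMod.card]
  obtain ⟨H, hH, htau⟩ := key
  exact ⟨H, hH, by omega⟩

theorem exists_large_g (C : ℝ) : ∃ g : ℕ, 0 < g ∧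
    0 < (g : ℝ) / 8 * Real.exp ((g : ℝ) / 2) - Real.log 3 ∧
    C * (9216 * g) ≤ (g : ℝ) / 8 * Real.exp ((g : ℝ) / 2) - Real.log 3 := by
  obtain ⟨g, hg⟩ := exists_nat_gt (max 1 (16 * (9216 * |C| + 2)))
  have hg1 : (1 : ℝ) < g := lt_of_le_of_lt (le_max_left _ _) hg
  have hg2 : 16 * (9216 * |C| + 2) < (g : ℝ) := lt_of_le_of_lt (le_max_right _ _) hg
  have hgpos : 0 < g := by
    have : (0 : ℝ) < g := by linarith
    exact_mod_cast this
  have hexp : (g : ℝ) / 2 ≤ Real.exp ((g : ℝ) / 2) := by
    have := Real.add_one_le_exp ((g : ℝ) / 2)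
    linarith
  have hlog3 : Real.log 3 ≤ 2 := by
    have := Real.log_le_sub_one_of_pos (show (0 : ℝ) < 3 by norm_num)
    linarith
  have h1 : (9216 * |C| + 2) * g ≤ (g : ℝ) / 8 * Real.exp ((g : ℝ) / 2) := by
    have : (g : ℝ) / 8 * Real.exp ((g : ℝ) / 2) ≥ (g : ℝ) / 8 * ((g : ℝ) / 2) :=
      mul_le_mul_of_nonneg_left hexp (by positivity)
    nlinarith
  have hC : C ≤ |C| := le_abs_self C
  have hC0 : 0 ≤ |C| := abs_nonneg C
  refine ⟨g, hgpos, ?_, ?_⟩
  · nlinarith
  · have h2 : C * (9216 * g) ≤ |C| * (9216 * g) := mul_le_mul_of_nonneg_right hC (by positivity)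
    nlinarith

theorem main_lower : ∀ C : ℝ, ∃ R : ℝ, ∀ r k : ℕ, 2 ≤ r → r ≤ k → R * Real.log k ≤ r →
    ∃ H : Finset (Fin r → ℕ), IntersectinglyCovered k H ∧
      C * (r : ℝ) ^ 2 / Real.log k ≤ tau H := by
  intro C
  obtain ⟨g, hg, hA0, hCg⟩ := exists_large_g (max C 0)
  set h : ℝ := (g : ℝ) / 8 * Real.exp ((g : ℝ) / 2) with hh
  set A : ℝ := h - Real.log 3 with hA
  set K : ℕ := ⌈Real.exp h⌉₊ with hK
  have hKexp : Real.exp h ≤ K := Nat.le_ceil _
  have hK1 : 1 ≤ K := by
    have h0 : (0 : ℝ) < K := lt_of_lt_of_le (Real.exp_pos _) hKexp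
    exact_mod_cast h0
  obtain ⟨P₀, hP₀⟩ := gadget_eventually g K hg hK1
  have hgR : (0 : ℝ) < g := by exact_mod_cast hg
  set ε : ℝ := 3 * Real.exp (-h) with hε
  have hεpos : 0 < ε := by positivity
  have hεA : ε = Real.exp (-A) := by
    rw [hA, neg_sub, Real.exp_sub, Real.exp_log (by norm_num), hε, Real.exp_neg]
    rfl
  have hε1 : ε ≤ 1 := by
    rw [hεA]
    exact Real.exp_le_one_iff.mpr (by linarith)
  set R : ℝ := max (Real.exp A / Real.log 2) (32 * g * (P₀ + 5) / A) with hR
  have hlog2 : 0 < Real.log 2 := Real.log_pos (by norm_num)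
  refine ⟨R, ?_⟩
  intro r k hr hrk hRr
  have hrR : (2 : ℝ) ≤ r := by exact_mod_cast hr
  have hkR : (r : ℝ) ≤ k := by exact_mod_cast hrk
  set L : ℝ := Real.log k with hL
  have hL2 : Real.log 2 ≤ L := Real.log_le_log (by norm_num) (by linarith)
  have hLpos : 0 < L := by linarith
  have hR1 : Real.exp A / Real.log 2 ≤ R := le_max_left _ _
  have hR2 : 32 * g * (P₀ + 5) / A ≤ R := le_max_right _ _
  have hRpos : 0 < R := lt_of_lt_of_le (by positivity) hR1
  -- L ≥ A
  have hLA : A ≤ L := by
    have h1 : Real.exp A ≤ r := by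
      have h2 : Real.exp A ≤ R * Real.log 2 := by
        rw [div_le_iff₀ hlog2] at hR1; exact hR1
      have h3 : R * Real.log 2 ≤ R * L := mul_le_mul_of_nonneg_left hL2 hRpos.le
      linarith
    have h2 : Real.exp A ≤ k := h1.trans hkR
    rw [hL, Real.le_log_iff_exp_le (by linarith)]
    exact h2
  set s' : ℕ := ⌊L / A⌋₊ + 1 with hs'
  have hs'pos : (0 : ℝ) < s' := by rw [hs']; positivity
  have hs'1 : L / A < s' := by
    rw [hs']; push_cast; exact Nat.lt_floor_add_one _
  have hs'2 : (s' : ℝ) ≤ 2 * L / A := by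
    rw [hs']; push_cast
    have h1 : (⌊L / A⌋₊ : ℝ) ≤ L / A := Nat.floor_le (by positivity)
    have h2 : 1 ≤ L / A := by rw [le_div_iff₀ hA0]; linarith
    have h3 : 2 * L / A = L / A + L / A := by ring
    linarith
  set s : ℕ := 2 * s' with hs
  set N : ℕ := (r - 1) / (2 * g * s) with hN
  have hgs : 0 < 2 * g * s := by
    have : 0 < s' := by omega
    positivity
  set n : ℕ := N / 2 with hn
  have hr1 : ((r - 1 : ℕ) : ℝ) = r - 1 := by
    rw [Nat.cast_sub (by omega)]; simp
  have hbig : (2 * (P₀ + 5) : ℕ) ≤ N := by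
    rw [hN, Nat.le_div_iff_mul_le hgs]
    have h1 : ((2 * (P₀ + 5) * (2 * g * s) : ℕ) : ℝ) ≤ ((r - 1 : ℕ) : ℝ) := by
      rw [hr1]
      push_cast
      rw [hs]
      push_cast
      have h2 : (s' : ℝ) * A ≤ 2 * L := by
        rw [le_div_iff₀ hA0] at hs'2; exact hs'2
      have h3 : 32 * g * (P₀ + 5) * L ≤ A * r := by
        rw [div_le_iff₀ hA0] at hR2
        have h4 : 32 * g * (P₀ + 5) * L ≤ R * A * L := mul_le_mul_of_nonneg_right hR2 hLpos.le
        nlinarith
      have h5 : A * (2 * (P₀ + 5) * (2 * g * (2 * s'))) ≤ A * (r - 1) := by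
        have h6 : A * (2 * ((P₀ : ℝ) + 5) * (2 * g * (2 * s'))) = 8 * g * (P₀ + 5) * (s' * A) := by ring
        rw [h6]
        have h7 : 8 * (g : ℝ) * (P₀ + 5) * (s' * A) ≤ 8 * g * (P₀ + 5) * (2 * L) :=
          mul_le_mul_of_nonneg_left h2 (by positivity)
        have h8 : A * r ≤ 2 * (A * (r - 1)) := by nlinarith
        linarith
      exact le_of_mul_le_mul_left h5 hA0
    exact_mod_cast h1
  have hnP : P₀ + 5 ≤ n := by omega
  obtain ⟨p, hp, hnp, hp2n⟩ := Nat.exists_prime_lt_and_le_two_mul n (by omega)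
  have hne : NeZero p := ⟨hp.ne_zero⟩
  have hpN : p ≤ N := by omega
  have hpr : s * (2 * (p * g)) + 1 ≤ r := by
    have h1 : N * (2 * g * s) ≤ r - 1 := Nat.div_mul_le_self _ _
    have h2 : s * (2 * (p * g)) ≤ N * (2 * g * s) := by
      calc s * (2 * (p * g)) = p * (2 * g * s) := by ring
        _ ≤ N * (2 * g * s) := Nat.mul_le_mul_right _ hpN
    omega
  have hG : GadgetProp g K p ε := by
    intro W₁ W₂ hW
    obtain ⟨e₁, e₂, h1, h2, h3⟩ := hP₀ p (by omega) hp W₁ W₂ hW
    refine ⟨e₁, e₂, h1, h2, h3.trans ?_⟩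
    apply mul_le_mul_of_nonneg_left _ (by positivity)
    have h4 : 1 / (K : ℝ) ≤ Real.exp (-h) := by
      rw [Real.exp_neg, one_div]
      exact inv_anti₀ (Real.exp_pos _) hKexp
    rw [hε]
    linarith
  have hkε : (k : ℝ) * ε ^ s' < 1 := by
    have hkpos : (0 : ℝ) < k := by linarith
    have h1 : (k : ℝ) = Real.exp L := (Real.exp_log hkpos).symm
    rw [h1, hεA, ← Real.exp_nat_mul, ← Real.exp_add]
    rw [Real.exp_lt_one_iff]
    have h2 : L < s' * A := by
      rw [div_lt_iff₀ hA0] at hs'1; exact hs'1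
    linarith
  obtain ⟨H, hH, htau⟩ := product_constr g K p s s' (r - 1 - s * (2 * (p * g))) k r ε hεpos.le hε1 hG
    hK1 (by omega) (by omega) hkε
  refine ⟨H, hH, ?_⟩
  -- numerical estimate
  have hpR : (r : ℝ) / (16 * g * s') ≤ p := by
    have h1 : N + 1 ≤ 2 * p := by omega
    have h2 : r - 1 < (N + 1) * (2 * g * s) := by
      have := Nat.lt_div_mul_add (a := r - 1) hgs
      rw [add_mul, one_mul]
      exact this
    have h3 : ((r - 1 : ℕ) : ℝ) < ((2 * p * (2 * g * s) : ℕ) : ℝ) := by
      have : r - 1 < 2 * p * (2 * g * s) := lt_of_lt_of_le h2 (Nat.mul_le_mul_right _ h1)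
      exact_mod_cast this
    rw [hr1] at h3
    push_cast at h3
    rw [hs] at h3
    push_cast at h3
    rw [div_le_iff₀ (by positivity)]
    nlinarith
  have htau2 : (s' : ℝ) * (g * (p : ℝ) ^ 2) / 18 ≤ tau H := by
    have h0 : 18 ≤ g * p ^ 2 := by
      have h6 : 6 ≤ p := by omega
      have h7 : 36 ≤ p ^ 2 := by nlinarith
      nlinarith
    have h1 : s' * (g * p ^ 2) ≤ 18 * tau H := by
      have h2 : s' * (g * p ^ 2) + g * p ^ 2 ≤ (s - s' + 1) * (g * p ^ 2) := by
        calc s' * (g * p ^ 2) + g * p ^ 2 = (s' + 1) * (g * p ^ 2) := by ring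
          _ ≤ (s - s' + 1) * (g * p ^ 2) := Nat.mul_le_mul_right _ (by omega)
      omega
    have h2 : ((s' * (g * p ^ 2) : ℕ) : ℝ) ≤ ((18 * tau H : ℕ) : ℝ) := by exact_mod_cast h1
    push_cast at h2
    linarith
  refine le_trans ?_ htau2
  have h1 : ((r : ℝ) / (16 * g * s')) ^ 2 ≤ (p : ℝ) ^ 2 := pow_le_pow_left₀ (by positivity) hpR 2
  have h2 : (s' : ℝ) * (g * ((r : ℝ) / (16 * g * s')) ^ 2) / 18 ≤ (s' : ℝ) * (g * (p : ℝ) ^ 2) / 18 := by
    apply div_le_div_of_nonneg_right _ (by norm_num)
    apply mul_le_mul_of_nonneg_left _ (by positivity)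
    exact mul_le_mul_of_nonneg_left h1 (by positivity)
  refine le_trans ?_ h2
  have h3 : (s' : ℝ) * (g * ((r : ℝ) / (16 * g * s')) ^ 2) / 18 = (r : ℝ) ^ 2 / (4608 * g * s') := by
    field_simp; ring
  rw [h3, div_le_div_iff₀ hLpos (by positivity)]
  have h4 : (s' : ℝ) * A ≤ 2 * L := by
    rw [le_div_iff₀ hA0] at hs'2; exact hs'2
  have h5 : max C 0 * (9216 * g) ≤ A := hCg
  have h6 : C ≤ max C 0 := le_max_left _ _
  have h7 : 0 ≤ max C 0 := le_max_right _ _
  have h8 : C * (4608 * g * s') ≤ L := by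
    have h9 : C * (4608 * g * s') ≤ max C 0 * (4608 * g * s') :=
      mul_le_mul_of_nonneg_right h6 (by positivity)
    have h10 : max C 0 * (4608 * g * s') = (max C 0 * (9216 * g)) * s' / 2 := by ring
    have h11 : (max C 0 * (9216 * g)) * s' ≤ A * s' := mul_le_mul_of_nonneg_right h5 hs'pos.le
    nlinarith
  have h9 : 0 ≤ (r : ℝ) ^ 2 := by positivity
  calc C * (r : ℝ) ^ 2 * (4608 * g * s') = (r : ℝ) ^ 2 * (C * (4608 * g * s')) := by ring
    _ ≤ (r : ℝ) ^ 2 * L := mul_le_mul_of_nonneg_left h8 h9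

end H19RP
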