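import Mathlib
import Pool.Agent.H19.RPProduct

/-! The lower bound for all `k ≥ 2`. -/

namespace H19RP

open Finset

theorem small_k (r k m : ℕ) (hr : 2 ≤ r) (hk : k < r) :
    ∃ H : Finset (Fin r → ℕ), IntersectinglyCovered k H ∧ m ≤ tau H := by
  classical
  let H₁ : Finset (Fin (r - 1) → Fin (m + 1)) := univ.image (fun j : Fin (m + 1) => fun _ => j)
  apply assembly (ι := Fin (r - 1)) (V := Fin (m + 1)) r k m (by simp; omega) H₁
  · intro S hS hSk
    let T : Fin (r - 1) → Fin (m + 1) := fun i =>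
      if h : i.val < S.card then (S.equivFin.symm ⟨i.val, h⟩).1 i else 0
    refine ⟨T, ?_⟩
    intro e he
    have hlt : (S.equivFin ⟨e, he⟩).val < S.card := (S.equivFin ⟨e, he⟩).2
    refine ⟨⟨(S.equivFin ⟨e, he⟩).val, by omega⟩, ?_⟩
    simp only [T]
    rw [dif_pos hlt]
    simp
  · intro W hW
    have h1 : ∃ j : Fin (m + 1), ∀ i : Fin (r - 1), (i, j) ∉ W := by
      by_contra hno
      push Not at hno
      choose f hf using hno
      have : (univ : Finset (Fin (m + 1))).card ≤ W.card := by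
        apply Finset.card_le_card_of_injOn (fun j => (f j, j))
        · intro j _; exact hf j
        · intro j _ j' _ h
          simp only [Prod.mk.injEq] at h
          exact h.2
      rw [Finset.card_univ, Fintype.card_fin] at this
      omega
    obtain ⟨j, hj⟩ := h1
    exact ⟨fun _ => j, Finset.mem_image_of_mem _ (Finset.mem_univ _), hj⟩

theorem main_lower_all : ∀ C : ℝ, ∃ R : ℝ, ∀ r k : ℕ, 2 ≤ r → 2 ≤ k → R * Real.log k ≤ r →
    ∃ H : Finset (Fin r → ℕ), IntersectinglyCovered k H ∧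
      C * (r : ℝ) ^ 2 / Real.log k ≤ tau H := by
  intro C
  obtain ⟨R, hR⟩ := main_lower C
  refine ⟨R, ?_⟩
  intro r k hr _ hRr
  by_cases hrk : r ≤ k
  · exact hR r k hr hrk hRr
  · obtain ⟨H, hH, ht⟩ := small_k r k ⌈C * (r : ℝ) ^ 2 / Real.log k⌉₊ hr (by omega)
    refine ⟨H, hH, ?_⟩
    refine le_trans (Nat.le_ceil _) ?_
    exact_mod_cast ht

end H19RP
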