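import Mathlib
import Pool.Agent.H19.RPDefs
import Pool.Agent.H19.RPAssembly

/-! The upper bound `f_r(k) ≤ C (r^2 / log k) log (e r / log k)`. -/

namespace H19RP

open Finset

instance decMeets {r : ℕ} (a b : Fin r → ℕ) : Decidable (Meets a b) :=
  inferInstanceAs (Decidable (∃ i, a i = b i))

section claimA

variable {r : ℕ}

/-- tuples of edges of `H` coverable by a transversal extending the partial one `(P, t)` -/
noncomputable def Cov (H : Finset (Fin r → ℕ)) (m : ℕ) (P : Finset (Fin r)) (t : Fin r → ℕ) :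
    Finset (Fin m → (Fin r → ℕ)) :=
  open Classical in
  (Fintype.piFinset (fun _ => H)).filter
    (fun u => ∃ T : Fin r → ℕ, (∀ j ∈ P, T j = t j) ∧ ∀ l, Meets T (u l))

/-- weights -/
noncomputable def wt (r d : ℕ) : ℝ := 2 ^ (r - d) * ((r - d).factorial : ℝ)

theorem wt_ge_one (r d : ℕ) : 1 ≤ wt r d := by
  unfold wt
  have h1 : (1 : ℝ) ≤ 2 ^ (r - d) := one_le_pow₀ (by norm_num)
  have h2 : (1 : ℝ) ≤ ((r - d).factorial : ℝ) := by
    exact_mod_cast Nat.one_le_iff_ne_zero.mpr (Nat.factorial_ne_zero _)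
  nlinarith

theorem wt_succ (r d : ℕ) : ((r - d : ℕ) : ℝ) * wt r (d + 1) ≤ wt r d / 2 := by
  unfold wt
  rcases Nat.lt_or_ge d r with h | h
  · obtain ⟨c, hc⟩ : ∃ c, r - d = c + 1 := ⟨r - d - 1, by omega⟩
    have h2 : r - (d + 1) = c := by omega
    rw [hc, h2, Nat.factorial_succ]
    push_cast
    apply le_of_eq
    ring
  · have h1 : r - d = 0 := by omega
    rw [h1]
    simp

theorem cov_bound (H : Finset (Fin r → ℕ)) (ε : ℝ) (hε0 : 0 < ε) (hε1 : ε ≤ 1)
    (hmiss : ∀ T : Fin r → ℕ, ε * (H.card : ℝ) <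
      (({e ∈ H | ¬ Meets T e} : Finset _).card : ℝ)) :
    ∀ m (P : Finset (Fin r)) (t : Fin r → ℕ),
      ((Cov H m P t).card : ℝ) ≤ wt r P.card * ((1 - ε / 2) ^ m * (H.card : ℝ) ^ m) := by
  classical
  intro m
  induction m with
  | zero =>
    intro P t
    have h1 : (Cov H 0 P t).card ≤ 1 := by
      have h2 := Finset.card_le_card (Finset.filter_subset
        (fun u => ∃ T : Fin r → ℕ, (∀ j ∈ P, T j = t j) ∧ ∀ l, Meets T (u l))
        (Fintype.piFinset (fun _ : Fin 0 => H)))
      rw [Fintype.card_piFinset] at h2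
      simpa [Cov] using h2
    have h3 : ((Cov H 0 P t).card : ℝ) ≤ 1 := by exact_mod_cast h1
    simpa using h3.trans (wt_ge_one r P.card)
  | succ m ih =>
    intro P t
    set n : ℝ := (H.card : ℝ) with hn
    set q : ℝ := 1 - ε / 2 with hq
    have hq0 : 0 ≤ q := by linarith
    have hn0 : 0 ≤ n := by positivity
    let hit : (Fin r → ℕ) → Prop := fun e => ∃ j ∈ P, t j = e j
    let F : (Fin r → ℕ) → Finset (Fin m → (Fin r → ℕ)) := fun e =>
      if hit e then Cov H m P t
      else (univ \ P).biUnion (fun j => Cov H m (insert j P) (Function.update t j (e j)))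
    have hsub : Cov H (m + 1) P t ⊆ (H.sigma F).image
        (fun y => (Fin.cons y.1 y.2 : Fin (m + 1) → (Fin r → ℕ))) := by
      intro u hu
      simp only [Cov, Finset.mem_filter, Fintype.mem_piFinset] at hu
      obtain ⟨huH, T, hTP, hTu⟩ := hu
      rw [Finset.mem_image]
      refine ⟨⟨u 0, Fin.tail u⟩, ?_, ?_⟩
      · rw [Finset.mem_sigma]
        refine ⟨huH 0, ?_⟩
        simp only [F]
        split_ifs with hh
        · simp only [Cov, Finset.mem_filter, Fintype.mem_piFinset]
          exact ⟨fun l => huH l.succ, T, hTP, fun l => hTu l.succ⟩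
        · obtain ⟨j, hj⟩ := hTu 0
          have hjP : j ∉ P := by
            intro hjP
            exact hh ⟨j, hjP, by rw [← hTP j hjP, hj]⟩
          rw [Finset.mem_biUnion]
          refine ⟨j, by simp [hjP], ?_⟩
          simp only [Cov, Finset.mem_filter, Fintype.mem_piFinset]
          refine ⟨fun l => huH l.succ, T, ?_, fun l => hTu l.succ⟩
          intro i hi
          by_cases hij : i = j
          · subst hij
            rw [Function.update_self]; exact hj
          · rw [Function.update_of_ne hij]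
            rw [Finset.mem_insert] at hi
            exact hTP i (hi.resolve_left hij)
      · exact Fin.cons_self_tail u
    have hcard : ((Cov H (m + 1) P t).card : ℝ) ≤ ∑ e ∈ H, ((F e).card : ℝ) := by
      have h1 := (Finset.card_le_card hsub).trans Finset.card_image_le
      rw [Finset.card_sigma] at h1
      exact_mod_cast h1
    have hF : ∀ e, ((F e).card : ℝ) ≤ (if hit e then (1 : ℝ) else 1 / 2) *
        (wt r P.card * (q ^ m * n ^ m)) := by
      intro e
      simp only [F]
      split_ifs with hh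
      · rw [one_mul]; exact ih P t
      · have h1 : (((univ \ P).biUnion (fun j => Cov H m (insert j P)
            (Function.update t j (e j)))).card : ℝ) ≤
            ∑ j ∈ univ \ P, ((Cov H m (insert j P) (Function.update t j (e j))).card : ℝ) := by
          exact_mod_cast Finset.card_biUnion_le
        refine h1.trans ?_
        have h2 : ∀ j ∈ univ \ P, ((Cov H m (insert j P) (Function.update t j (e j))).card : ℝ) ≤
            wt r (P.card + 1) * (q ^ m * n ^ m) := by
          intro j hj
          have hjP : j ∉ P := (Finset.mem_sdiff.mp hj).2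
          have := ih (insert j P) (Function.update t j (e j))
          rwa [Finset.card_insert_of_notMem hjP] at this
        refine (Finset.sum_le_sum h2).trans ?_
        rw [Finset.sum_const, nsmul_eq_mul, Finset.card_sdiff_of_subset (Finset.subset_univ _),
          Finset.card_univ, Fintype.card_fin]
        have h3 := wt_succ r P.card
        have h4 : 0 ≤ q ^ m * n ^ m := by positivity
        nlinarith [mul_le_mul_of_nonneg_right h3 h4]
    have hhit : ((H.filter (fun e => hit e)).card : ℝ) ≤ (1 - ε) * n := by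
      have h1 := hmiss t
      have h2 : H.filter (fun e => hit e) ⊆ H.filter (fun e => Meets t e) := by
        intro e he
        rw [Finset.mem_filter] at he ⊢
        obtain ⟨heH, j, _, hj⟩ := he
        exact ⟨heH, j, hj⟩
      have h3 := Finset.card_le_card h2
      have h4 := Finset.card_filter_add_card_filter_not (s := H) (fun e => Meets t e)
      have h5 : ((H.filter (fun e => Meets t e)).card : ℝ) +
          ((H.filter (fun e => ¬ Meets t e)).card : ℝ) = n := by
        rw [hn]; exact_mod_cast h4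
      have h6 : ((H.filter (fun e => hit e)).card : ℝ) ≤ ((H.filter (fun e => Meets t e)).card : ℝ) := by
        exact_mod_cast h3
      have h7 : ε * n < ((H.filter (fun e => ¬ Meets t e)).card : ℝ) := by
        convert h1
      linarith
    have hsum : ∑ e ∈ H, (if hit e then (1 : ℝ) else 1 / 2) ≤ q * n := by
      rw [Finset.sum_ite, Finset.sum_const, Finset.sum_const, nsmul_eq_mul, nsmul_eq_mul, mul_one]
      have h4 := Finset.card_filter_add_card_filter_not (s := H) (fun e => hit e)
      have h5 : ((H.filter (fun e => hit e)).card : ℝ) +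
          ((H.filter (fun e => ¬ hit e)).card : ℝ) = n := by
        rw [hn]; exact_mod_cast h4
      rw [hq]
      linarith
    calc ((Cov H (m + 1) P t).card : ℝ) ≤ ∑ e ∈ H, ((F e).card : ℝ) := hcard
      _ ≤ ∑ e ∈ H, (if hit e then (1 : ℝ) else 1 / 2) * (wt r P.card * (q ^ m * n ^ m)) :=
          Finset.sum_le_sum (fun e _ => hF e)
      _ = (∑ e ∈ H, (if hit e then (1 : ℝ) else 1 / 2)) * (wt r P.card * (q ^ m * n ^ m)) := by
          rw [Finset.sum_mul]
      _ ≤ (q * n) * (wt r P.card * (q ^ m * n ^ m)) := by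
          apply mul_le_mul_of_nonneg_right hsum
          have := (wt_ge_one r P.card)
          positivity
      _ = wt r P.card * (q ^ (m + 1) * n ^ (m + 1)) := by ring

theorem claimA (k : ℕ) (H : Finset (Fin r → ℕ)) (hne : H.Nonempty)
    (hcov : ∀ u : Fin k → (Fin r → ℕ), (∀ l, u l ∈ H) → ∃ T : Fin r → ℕ, ∀ l, Meets T (u l))
    (ε : ℝ) (hε0 : 0 < ε) (hε1 : ε ≤ 1)
    (hsmall : 2 ^ r * (r.factorial : ℝ) * (1 - ε / 2) ^ k < 1) :
    ∃ T : Fin r → ℕ, (({e ∈ H | ¬ Meets T e} : Finset _).card : ℝ) ≤ ε * (H.card : ℝ) := by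
  classical
  by_contra hno
  push Not at hno
  have h1 := cov_bound H ε hε0 hε1 (fun T => by convert hno T) k ∅ (fun _ => 0)
  have h2 : Cov H k ∅ (fun _ => 0) = Fintype.piFinset (fun _ => H) := by
    apply Finset.filter_true_of_mem
    intro u hu
    obtain ⟨T, hT⟩ := hcov u (Fintype.mem_piFinset.mp hu)
    exact ⟨T, by simp, hT⟩
  rw [h2, Fintype.card_piFinset, Finset.prod_const, Finset.card_univ, Fintype.card_fin,
    Finset.card_empty] at h1
  have hn : (0 : ℝ) < H.card := by exact_mod_cast hne.card_pos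
  have hnk : 0 < (H.card : ℝ) ^ k := by positivity
  have h3 : wt r 0 = 2 ^ r * (r.factorial : ℝ) := by simp [wt]
  rw [h3] at h1
  push_cast at h1
  nlinarith

end claimA

/-- Greedy covering by transversals. -/
theorem greedy {r : ℕ} (k : ℕ) (H : Finset (Fin r → ℕ))
    (hcov : ∀ S ⊆ H, S.card ≤ k → ∃ T : Fin r → ℕ, ∀ e ∈ S, Meets T e)
    (ε : ℝ) (hε0 : 0 < ε) (hε1 : ε ≤ 1)
    (hsmall : 2 ^ r * (r.factorial : ℝ) * (1 - ε / 2) ^ k < 1) (s : ℕ) :
    ∃ W : Finset (Fin r × ℕ), W.card ≤ r * s ∧
      ((H.filter (fun e => ∀ i, (i, e i) ∉ W)).card : ℝ) ≤ ε ^ s * (H.card : ℝ) := by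
  classical
  induction s with
  | zero =>
    refine ⟨∅, by simp, ?_⟩
    rw [pow_zero, one_mul]
    exact_mod_cast Finset.card_filter_le _ _
  | succ s ih =>
    obtain ⟨W, hW, hWm⟩ := ih
    set H' := H.filter (fun e => ∀ i, (i, e i) ∉ W) with hH'
    by_cases hne : H'.Nonempty
    · have hcov' : ∀ u : Fin k → (Fin r → ℕ), (∀ l, u l ∈ H') →
          ∃ T : Fin r → ℕ, ∀ l, Meets T (u l) := by
        intro u hu
        obtain ⟨T, hT⟩ := hcov (univ.image u) (by
          intro e he
          obtain ⟨l, _, rfl⟩ := Finset.mem_image.mp he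
          exact (Finset.mem_filter.mp (hu l)).1) (by
          refine Finset.card_image_le.trans ?_
          simp)
        exact ⟨T, fun l => hT _ (Finset.mem_image_of_mem _ (Finset.mem_univ _))⟩
      obtain ⟨T, hT⟩ := claimA k H' hne hcov' ε hε0 hε1 hsmall
      refine ⟨W ∪ univ.image (fun i => (i, T i)), ?_, ?_⟩
      · refine (Finset.card_union_le _ _).trans ?_
        have h1 : (univ.image (fun i : Fin r => (i, T i))).card ≤ r := by
          refine Finset.card_image_le.trans ?_
          simp
        rw [Nat.mul_succ]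
        omega
      · have h1 : H.filter (fun e => ∀ i, (i, e i) ∉ W ∪ univ.image (fun i => (i, T i))) ⊆
            H'.filter (fun e => ¬ Meets T e) := by
          intro e he
          rw [Finset.mem_filter] at he
          rw [Finset.mem_filter, hH', Finset.mem_filter]
          refine ⟨⟨he.1, fun i hi => he.2 i (Finset.mem_union_left _ hi)⟩, ?_⟩
          rintro ⟨i, hi⟩
          apply he.2 i
          apply Finset.mem_union_right
          rw [Finset.mem_image]
          exact ⟨i, Finset.mem_univ _, by rw [hi]⟩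
        have h2 : ((H.filter (fun e => ∀ i, (i, e i) ∉ W ∪ univ.image (fun i => (i, T i)))).card : ℝ) ≤
            ((H'.filter (fun e => ¬ Meets T e)).card : ℝ) := by
          exact_mod_cast Finset.card_le_card h1
        calc _ ≤ ((H'.filter (fun e => ¬ Meets T e)).card : ℝ) := h2
          _ ≤ ε * (H'.card : ℝ) := by convert hT
          _ ≤ ε * (ε ^ s * (H.card : ℝ)) := mul_le_mul_of_nonneg_left hWm hε0.le
          _ = _ := by ring
    · refine ⟨W, hW.trans (Nat.mul_le_mul_left _ (Nat.le_succ s)), ?_⟩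
      rw [← hH', Finset.not_nonempty_iff_eq_empty.mp hne]
      simp only [Finset.card_empty, Nat.cast_zero]
      positivity

/-- Product form of the set pair inequality. -/
theorem set_pairs {I α : Type*} [DecidableEq I] [DecidableEq α] (S : Finset I)
    (A B : I → Finset α) (hAB : ∀ i ∈ S, Disjoint (A i) (B i))
    (hne : ∀ i ∈ S, ∀ j ∈ S, i ≠ j → ¬ Disjoint (A i) (B j)) (p : ℝ) (hp0 : 0 ≤ p) (hp1 : p ≤ 1) :
    ∑ i ∈ S, p ^ (A i).card * (1 - p) ^ (B i).card ≤ 1 := by
  classical
  let U : Finset α := S.biUnion (fun i => A i ∪ B i)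
  let w : Bool → ℝ := fun b => if b then p else 1 - p
  have hw0 : ∀ b, 0 ≤ w b := by
    intro b
    simp only [w]
    split_ifs
    · exact hp0
    · linarith
  have hw1 : ∑ b, w b = 1 := by simp [w]
  let E : I → {x // x ∈ U} → Finset Bool := fun i u =>
    if u.1 ∈ A i then {true} else if u.1 ∈ B i then {false} else univ
  have hE : ∀ i ∈ S, ∑ χ ∈ Fintype.piFinset (E i), ∏ u, w (χ u) =
      p ^ (A i).card * (1 - p) ^ (B i).card := by
    intro i hi
    rw [← Finset.prod_univ_sum]
    have h1 : ∀ u : {x // x ∈ U}, ∑ b ∈ E i u, w b =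
        (if u.1 ∈ A i then p else 1) * (if u.1 ∈ B i then 1 - p else 1) := by
      intro u
      simp only [E]
      by_cases hA : u.1 ∈ A i
      · have hB : u.1 ∉ B i := fun hB => (Finset.disjoint_left.mp (hAB i hi)) hA hB
        simp [hA, hB, w]
      · by_cases hB : u.1 ∈ B i
        · simp [hA, hB, w]
        · simp only [hA, hB, if_false]
          rw [hw1]; ring
    simp_rw [h1]
    rw [Finset.prod_mul_distrib]
    have h2 : ∀ (R : Finset α) (c : ℝ), R ⊆ U →
        ∏ u : {x // x ∈ U}, (if u.1 ∈ R then c else 1) = c ^ R.card := by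
      intro R c hR
      rw [Finset.prod_coe_sort U (fun x => if x ∈ R then c else 1), Finset.prod_ite,
        Finset.prod_const_one, mul_one, Finset.prod_const]
      congr 2
      ext x
      rw [Finset.mem_filter]
      exact ⟨fun h => h.2, fun h => ⟨hR h, h⟩⟩
    rw [h2 (A i) p, h2 (B i) (1 - p)]
    · intro x hx
      exact Finset.mem_biUnion.mpr ⟨i, hi, Finset.mem_union_right _ hx⟩
    · intro x hx
      exact Finset.mem_biUnion.mpr ⟨i, hi, Finset.mem_union_left _ hx⟩
  rw [← Finset.sum_congr rfl hE, ← Finset.sum_biUnion]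
  · calc ∑ χ ∈ S.biUnion (fun i => Fintype.piFinset (E i)), ∏ u, w (χ u)
        ≤ ∑ χ : {x // x ∈ U} → Bool, ∏ u, w (χ u) := by
          apply Finset.sum_le_sum_of_subset_of_nonneg (Finset.subset_univ _)
          intro χ _ _
          exact Finset.prod_nonneg (fun u _ => hw0 _)
      _ = ∏ u : {x // x ∈ U}, ∑ b, w b := by
          rw [Finset.prod_univ_sum, Fintype.piFinset_univ]
      _ = 1 := by rw [hw1]; simp
  · intro i hi j hj hij
    rw [Function.onFun, Finset.disjoint_left]
    intro χ hχi hχj
    obtain ⟨x, hxA, hxB⟩ := Finset.not_disjoint_iff.mp (hne i hi j hj hij)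
    have hxU : x ∈ U := Finset.mem_biUnion.mpr ⟨i, hi, Finset.mem_union_left _ hxA⟩
    have h1 := Fintype.mem_piFinset.mp hχi ⟨x, hxU⟩
    have h2 := Fintype.mem_piFinset.mp hχj ⟨x, hxU⟩
    have hxA' : x ∉ A j := fun h => (Finset.disjoint_left.mp (hAB j hj)) h hxB
    simp only [E, hxA, if_true, Finset.mem_singleton] at h1
    simp only [E, hxA', if_false, hxB, if_true, Finset.mem_singleton] at h2
    rw [h1] at h2
    exact Bool.noConfusion h2

theorem tau_set_nonempty {r : ℕ} (hr : 0 < r) (H : Finset (Fin r → ℕ)) :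
    {n | ∃ W : Finset (Fin r × ℕ), IsCover W H ∧ W.card = n}.Nonempty := by
  classical
  refine ⟨_, H.image (fun e => ((⟨0, hr⟩ : Fin r), e ⟨0, hr⟩)), ?_, rfl⟩
  intro e he
  exact ⟨⟨0, hr⟩, Finset.mem_image_of_mem _ he⟩

theorem exists_tau_cover {r : ℕ} (hr : 0 < r) (H : Finset (Fin r → ℕ)) :
    ∃ W : Finset (Fin r × ℕ), IsCover W H ∧ W.card = tau H :=
  Nat.sInf_mem (tau_set_nonempty hr H)

theorem tau_le_of_cover {r : ℕ} (H : Finset (Fin r → ℕ)) (W : Finset (Fin r × ℕ))
    (hW : IsCover W H) : tau H ≤ W.card :=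
  Nat.sInf_le ⟨W, hW, rfl⟩

/-- A critical subfamily with few edges. -/
theorem critical {r : ℕ} (hr : 0 < r) (H : Finset (Fin r → ℕ)) (ht : 0 < tau H) :
    ∃ H' ⊆ H, H'.Nonempty ∧ tau H ≤ tau H' ∧
      ∀ p : ℝ, 0 ≤ p → p ≤ 1 → (H'.card : ℝ) * (p ^ r * (1 - p) ^ (tau H - 1)) ≤ 1 := by
  classical
  let Fm : Finset (Finset (Fin r → ℕ)) := H.powerset.filter (fun H' => tau H ≤ tau H')
  have hFm : Fm.Nonempty := ⟨H, by simp [Fm]⟩
  obtain ⟨H', hH', hmin⟩ := Finset.exists_min_image Fm Finset.card hFm
  have hH'1 : H' ⊆ H := Finset.mem_powerset.mp (Finset.mem_filter.mp hH').1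
  have hH'2 : tau H ≤ tau H' := (Finset.mem_filter.mp hH').2
  have hlt : ∀ e ∈ H', tau (H'.erase e) < tau H := by
    intro e he
    by_contra hcon
    push Not at hcon
    have h1 : H'.erase e ∈ Fm := by
      rw [Finset.mem_filter, Finset.mem_powerset]
      exact ⟨(Finset.erase_subset _ _).trans hH'1, hcon⟩
    have h2 := hmin _ h1
    have h3 := Finset.card_erase_lt_of_mem he
    omega
  have hne : H'.Nonempty := by
    rw [Finset.nonempty_iff_ne_empty]
    rintro rfl
    have : tau (∅ : Finset (Fin r → ℕ)) ≤ 0 := by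
      have := tau_le_of_cover (∅ : Finset (Fin r → ℕ)) ∅ (by intro e he; simp at he)
      simpa using this
    omega
  refine ⟨H', hH'1, hne, hH'2, ?_⟩
  intro p hp0 hp1
  have hch : ∀ e : Fin r → ℕ, ∃ W : Finset (Fin r × ℕ), e ∈ H' →
      IsCover W (H'.erase e) ∧ W.card ≤ tau H - 1 := by
    intro e
    by_cases he : e ∈ H'
    · obtain ⟨W, hW, hWc⟩ := exists_tau_cover hr (H'.erase e)
      refine ⟨W, fun _ => ⟨hW, ?_⟩⟩
      have := hlt e he
      omega
    · exact ⟨∅, fun h => absurd h he⟩
  choose W hW using hch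
  have h1 := set_pairs H' (fun e => (univ : Finset (Fin r)).image (fun i => (i, e i))) W
    (by
      intro e he
      rw [Finset.disjoint_left]
      rintro x hx hxW
      obtain ⟨i, _, rfl⟩ := Finset.mem_image.mp hx
      have hcov : IsCover (W e) H' := by
        intro e' he'
        by_cases hee : e' = e
        · subst hee; exact ⟨i, hxW⟩
        · exact (hW e he).1 e' (Finset.mem_erase.mpr ⟨hee, he'⟩)
      have h2 := tau_le_of_cover H' (W e) hcov
      have h3 := (hW e he).2
      omega)
    (by
      intro e he e' he' hne'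
      obtain ⟨i, hi⟩ := (hW e' he').1 e (Finset.mem_erase.mpr ⟨hne', he⟩)
      rw [Finset.not_disjoint_iff]
      exact ⟨(i, e i), Finset.mem_image_of_mem _ (Finset.mem_univ _), hi⟩)
    p hp0 hp1
  refine le_trans ?_ h1
  rw [← nsmul_eq_mul, ← Finset.sum_const]
  apply Finset.sum_le_sum
  intro e he
  have h2 : ((univ : Finset (Fin r)).image (fun i => (i, e i))).card = r := by
    rw [Finset.card_image_of_injective]
    · simp
    · intro i j hij
      exact (Prod.mk.inj hij).1
  rw [h2]
  apply mul_le_mul_of_nonneg_left _ (by positivity)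
  exact pow_le_pow_of_le_one (by linarith) (by linarith) (hW e he).2

/-- Trivial bound through matchings. -/
theorem tau_le_sq {r : ℕ} (k : ℕ) (hk : r < k) (H : Finset (Fin r → ℕ))
    (hcov : ∀ S ⊆ H, S.card ≤ k → ∃ T : Fin r → ℕ, ∀ e ∈ S, Meets T e) :
    tau H ≤ r ^ 2 := by
  classical
  -- maximal matching
  let Fm : Finset (Finset (Fin r → ℕ)) := H.powerset.filter
    (fun M => ∀ e ∈ M, ∀ e' ∈ M, e ≠ e' → ¬ Meets e e')
  have hFm : Fm.Nonempty := ⟨∅, by simp [Fm]⟩
  obtain ⟨M, hM, hmax⟩ := Finset.exists_max_image Fm Finset.card hFm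
  have hM1 : M ⊆ H := Finset.mem_powerset.mp (Finset.mem_filter.mp hM).1
  have hM2 := (Finset.mem_filter.mp hM).2
  have hMr : M.card ≤ r := by
    by_contra hcon
    push Not at hcon
    obtain ⟨S, hSM, hS⟩ := Finset.exists_subset_card_eq (show r + 1 ≤ M.card by omega)
    obtain ⟨T, hT⟩ := hcov S (hSM.trans hM1) (by omega)
    have hch : ∀ e : Fin r → ℕ, ∃ i : Option (Fin r), e ∈ S → ∃ j, i = some j ∧ T j = e j := by
      intro e
      by_cases he : e ∈ S
      · obtain ⟨j, hj⟩ := hT e he
        exact ⟨some j, fun _ => ⟨j, rfl, hj⟩⟩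
      · exact ⟨none, fun h => absurd h he⟩
    choose f hf using hch
    have hinj : Set.InjOn f S := by
      intro e he e' he' hee
      by_contra hne
      obtain ⟨j, hj1, hj2⟩ := hf e he
      obtain ⟨j', hj1', hj2'⟩ := hf e' he'
      rw [hee, hj1'] at hj1
      have hjj : j' = j := Option.some_injective _ hj1
      subst hjj
      exact hM2 e (hSM he) e' (hSM he') hne ⟨j', by rw [← hj2, hj2']⟩
    have h1 : S.card ≤ ((univ : Finset (Fin r)).map Function.Embedding.some).card := by
      apply Finset.card_le_card_of_injOn f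
      · intro e he
        obtain ⟨j, hj1, _⟩ := hf e he
        rw [hj1]
        simp
      · exact hinj
    rw [Finset.card_map, Finset.card_univ, Fintype.card_fin] at h1
    omega
  let W : Finset (Fin r × ℕ) := M.biUnion (fun e => univ.image (fun i => (i, e i)))
  have hW : IsCover W H := by
    intro e he
    by_contra hno
    push Not at hno
    have heM : e ∉ M := by
      intro heM
      rcases Nat.eq_zero_or_pos r with h0 | h0
      · subst h0
        -- with no parts the single edge cannot be met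
        obtain ⟨T, hT⟩ := hcov {e} (by simpa using he) (by simp; omega)
        obtain ⟨i, _⟩ := hT e (by simp)
        exact i.elim0
      · apply hno ⟨0, h0⟩
        exact Finset.mem_biUnion.mpr ⟨e, heM, Finset.mem_image_of_mem _ (Finset.mem_univ _)⟩
    have h1 : insert e M ∈ Fm := by
      rw [Finset.mem_filter, Finset.mem_powerset]
      refine ⟨Finset.insert_subset he hM1, ?_⟩
      have hno' : ∀ e' ∈ M, ¬ Meets e e' := by
        rintro e' he' ⟨i, hi⟩
        apply hno i
        rw [Finset.mem_biUnion]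
        exact ⟨e', he', Finset.mem_image.mpr ⟨i, Finset.mem_univ _, by rw [hi]⟩⟩
      intro a ha b hb hab
      rw [Finset.mem_insert] at ha hb
      rcases ha with rfl | ha <;> rcases hb with rfl | hb
      · exact absurd rfl hab
      · exact hno' b hb
      · rintro ⟨i, hi⟩
        exact hno' a ha ⟨i, hi.symm⟩
      · exact hM2 a ha b hb hab
    have h2 := hmax _ h1
    rw [Finset.card_insert_of_notMem heM] at h2
    omega
  refine (tau_le_of_cover H W hW).trans ?_
  calc W.card ≤ ∑ e ∈ M, (univ.image (fun i : Fin r => (i, e i))).card := Finset.card_biUnion_le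
    _ ≤ ∑ _e ∈ M, r := by
        apply Finset.sum_le_sum
        intro e _
        refine Finset.card_image_le.trans ?_
        simp
    _ = M.card * r := by rw [Finset.sum_const, smul_eq_mul]
    _ ≤ r ^ 2 := by rw [sq]; exact Nat.mul_le_mul_right _ hMr

end H19RP
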