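import Mathlib
import Pool.Agent.H19.RPUpper

/-! Numerical conclusion of the upper bound. -/

namespace H19RP

open Finset

theorem upper_cov (r k : ℕ) (hr : 1 ≤ r) (hrk : r < k) (hkr : Real.log k ≤ r)
    (H : Finset (Fin r → ℕ))
    (hcov : ∀ S ⊆ H, S.card ≤ k → ∃ T : Fin r → ℕ, ∀ e ∈ S, Meets T e) :
    (tau H : ℝ) ≤ 15 * ((r : ℝ) ^ 2 / Real.log k) * (1 + Real.log ((r : ℝ) / Real.log k)) := by
  classical
  have hrR : (1 : ℝ) ≤ r := by exact_mod_cast hr
  have hk2 : 2 ≤ k := by omega
  have hkR : (2 : ℝ) ≤ k := by exact_mod_cast hk2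
  set L : ℝ := Real.log k with hL
  have hLpos : 0 < L := Real.log_pos (by linarith)
  have hρ : 1 ≤ (r : ℝ) / L := by rw [le_div_iff₀ hLpos]; linarith
  set ρ : ℝ := (r : ℝ) / L with hρdef
  have hlogρ : 0 ≤ Real.log ρ := Real.log_nonneg hρ
  have hρpos : 0 < ρ := by linarith
  have hrL : (r : ℝ) ^ 2 / L = r * ρ := by rw [hρdef]; ring
  rw [hrL]
  rcases Nat.lt_or_ge k (16 * r ^ 4) with hsmall | hbig
  · -- small k: trivial bound
    have h1 : (tau H : ℝ) ≤ (r : ℝ) ^ 2 := by exact_mod_cast tau_le_sq k hrk H hcov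
    refine h1.trans ?_
    have h2 : L ≤ 15 * (1 + Real.log ρ) := by
      have h3 : L ≤ 4 * Real.log 2 + 4 * Real.log r := by
        have h4 : (k : ℝ) ≤ 16 * (r : ℝ) ^ 4 := by exact_mod_cast hsmall.le
        have h5 : L ≤ Real.log (16 * (r : ℝ) ^ 4) := Real.log_le_log (by linarith) h4
        rw [Real.log_mul (by norm_num) (by positivity), Real.log_pow] at h5
        have h6 : Real.log 16 = 4 * Real.log 2 := by
          rw [show (16 : ℝ) = 2 ^ 4 by norm_num, Real.log_pow]; norm_num
        rw [h6] at h5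
        push_cast at h5
        exact h5
      have h4 : Real.log r = Real.log ρ + Real.log L := by
        rw [hρdef, Real.log_div (by linarith) hLpos.ne']; ring
      have h5 : Real.log L ≤ L / 8 + 3 * Real.log 2 - 1 := by
        have h6 := Real.log_le_sub_one_of_pos (show 0 < L / 8 by positivity)
        rw [Real.log_div hLpos.ne' (by norm_num), show (8 : ℝ) = 2 ^ 3 by norm_num, Real.log_pow] at h6
        push_cast at h6
        have h7 : (2 : ℝ) ^ 3 = 8 := by norm_num
        rw [h7] at h6
        linarith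
      have h6 := Real.log_two_lt_d9
      nlinarith
    have h3 : (r : ℝ) ^ 2 = r * ρ * L := by
      rw [hρdef]; field_simp
    rw [h3]
    have h4 : 0 ≤ (r : ℝ) * ρ := by positivity
    nlinarith [mul_le_mul_of_nonneg_left h2 h4]
  · rcases Nat.eq_zero_or_pos (tau H) with h0 | htpos
    · rw [h0]; simp only [Nat.cast_zero]; positivity
    obtain ⟨H', hH'H, hne, htau, hpairs⟩ := critical (by omega) H htpos
    set t : ℝ := (tau H : ℝ) with ht
    have htR : 1 ≤ t := by rw [ht]; exact_mod_cast htpos
    set N : ℝ := (H'.card : ℝ) with hN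
    have hN1 : 1 ≤ N := by rw [hN]; exact_mod_cast hne.card_pos
    -- bound on log N
    have hlogN : Real.log N ≤ r * Real.log (1 + t / r) + r := by
      have hrt : 0 < (r : ℝ) + t := by linarith
      have h1 := hpairs ((r : ℝ) / (r + t)) (by positivity) (by rw [div_le_one hrt]; linarith)
      have h2 : 1 - (r : ℝ) / (r + t) = t / (r + t) := by field_simp; ring
      rw [h2] at h1
      have hp1 : 0 < ((r : ℝ) / (r + t)) ^ r := by positivity
      have hp2 : 0 < (t / (r + t)) ^ (tau H - 1) := by positivity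
      have h3 : Real.log (N * (((r : ℝ) / (r + t)) ^ r * (t / (r + t)) ^ (tau H - 1))) ≤ 0 :=
        Real.log_nonpos (by positivity) h1
      rw [Real.log_mul (by positivity) (by positivity), Real.log_mul hp1.ne' hp2.ne', Real.log_pow,
        Real.log_pow] at h3
      have h4 : Real.log ((r : ℝ) / (r + t)) = - Real.log (1 + t / r) := by
        rw [← Real.log_inv]
        congr 1
        rw [inv_eq_one_div]
        field_simp
      have h5 : -(r / t) ≤ Real.log (t / (r + t)) := by
        have h6 : Real.log (t / (r + t)) = - Real.log (1 + r / t) := by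
          rw [← Real.log_inv]
          congr 1
          rw [inv_eq_one_div]
          field_simp
          ring
        rw [h6]
        have h7 := Real.log_le_sub_one_of_pos (show 0 < 1 + (r : ℝ) / t by positivity)
        linarith
      have h6 : -(r : ℝ) ≤ ((tau H - 1 : ℕ) : ℝ) * Real.log (t / (r + t)) := by
        have h7 : ((tau H - 1 : ℕ) : ℝ) = t - 1 := by
          rw [Nat.cast_sub htpos]; simp [ht]
        rw [h7]
        have h8 : (t - 1) * (-(r / t)) ≤ (t - 1) * Real.log (t / (r + t)) :=
          mul_le_mul_of_nonneg_left h5 (by linarith)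
        have h9 : (t - 1) * (-((r : ℝ) / t)) = -r + r / t := by field_simp; ring
        have h10 : 0 ≤ (r : ℝ) / t := by positivity
        linarith
      rw [h4] at h3
      linarith
    -- parameters of the greedy algorithm
    have hkpos : (0 : ℝ) < k := by linarith
    set ε : ℝ := 4 * (r : ℝ) ^ 2 / k with hε
    have hεpos : 0 < ε := by positivity
    have hbigR : 16 * (r : ℝ) ^ 4 ≤ k := by exact_mod_cast hbig
    have hε1 : ε ≤ 1 := by
      rw [hε, div_le_one hkpos]
      nlinarith [sq_nonneg ((r : ℝ) ^ 2), hrR, mul_le_mul hrR hrR (by norm_num) (by linarith)]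
    have hsm : 2 ^ r * (r.factorial : ℝ) * (1 - ε / 2) ^ k < 1 := by
      have h1 : (r.factorial : ℝ) ≤ (r : ℝ) ^ r := by exact_mod_cast Nat.factorial_le_pow r
      have h2 : (2 : ℝ) ^ r * (r.factorial : ℝ) ≤ Real.exp (r * (2 * r - 1)) := by
        calc (2 : ℝ) ^ r * (r.factorial : ℝ) ≤ 2 ^ r * (r : ℝ) ^ r :=
              mul_le_mul_of_nonneg_left h1 (by positivity)
          _ = (2 * (r : ℝ)) ^ r := by rw [mul_pow]
          _ ≤ (Real.exp (2 * r - 1)) ^ r := by
              apply pow_le_pow_left₀ (by positivity)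
              have := Real.add_one_le_exp (2 * (r : ℝ) - 1)
              linarith
          _ = Real.exp (r * (2 * r - 1)) := by rw [← Real.exp_nat_mul]
      have h3 : (1 - ε / 2) ^ k ≤ Real.exp (-(2 * (r : ℝ) ^ 2)) := by
        calc (1 - ε / 2) ^ k ≤ (Real.exp (-(ε / 2))) ^ k := by
              apply pow_le_pow_left₀ (by linarith)
              have := Real.add_one_le_exp (-(ε / 2))
              linarith
          _ = Real.exp (k * (-(ε / 2))) := by rw [← Real.exp_nat_mul]
          _ = Real.exp (-(2 * (r : ℝ) ^ 2)) := by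
              congr 1
              rw [hε]; field_simp; norm_num
      calc 2 ^ r * (r.factorial : ℝ) * (1 - ε / 2) ^ k
          ≤ Real.exp (r * (2 * r - 1)) * Real.exp (-(2 * (r : ℝ) ^ 2)) := by
            apply mul_le_mul h2 h3 (pow_nonneg (by linarith) _) (Real.exp_pos _).le
        _ = Real.exp (-r) := by rw [← Real.exp_add]; congr 1; ring
        _ < 1 := by rw [Real.exp_lt_one_iff]; linarith
    set Λ : ℝ := Real.log (1 / ε) with hΛ
    have hΛL : L / 2 ≤ Λ := by
      have h1 : Λ = L - Real.log (4 * (r : ℝ) ^ 2) := by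
        rw [hΛ, hε, one_div_div, Real.log_div (by positivity) (by positivity)]
      have h2 : 2 * Real.log (4 * (r : ℝ) ^ 2) ≤ L := by
        have h3 : 2 * Real.log (4 * (r : ℝ) ^ 2) = Real.log ((4 * (r : ℝ) ^ 2) ^ 2) := by
          rw [Real.log_pow]; norm_num
        rw [h3]
        apply Real.log_le_log (by positivity)
        have h5 : (4 * (r : ℝ) ^ 2) ^ 2 = 16 * (r : ℝ) ^ 4 := by ring
        exact h5.le.trans hbigR
      linarith
    have hΛpos : 0 < Λ := by linarith
    have hlogN0 : 0 ≤ Real.log N := Real.log_nonneg hN1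
    set s : ℕ := ⌊Real.log N / Λ⌋₊ + 1 with hs
    have hs1 : Real.log N / Λ < s := by
      rw [hs]; push_cast; exact Nat.lt_floor_add_one _
    have hs2 : (s : ℝ) ≤ Real.log N / Λ + 1 := by
      rw [hs]; push_cast
      have := Nat.floor_le (show 0 ≤ Real.log N / Λ by positivity)
      linarith
    obtain ⟨W, hWc, hWm⟩ := greedy k H' (fun S hS hSk => hcov S (hS.trans hH'H) hSk) ε hεpos hε1 hsm s
    have hsmallN : ε ^ s * N < 1 := by
      have h1 : ε = Real.exp (-Λ) := by
        rw [hΛ, one_div, Real.log_inv, neg_neg, Real.exp_log hεpos]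
      have h2 : N = Real.exp (Real.log N) := (Real.exp_log (by linarith)).symm
      rw [h2, h1, ← Real.exp_nat_mul, ← Real.exp_add, Real.exp_lt_one_iff]
      have h3 : Real.log N < s * Λ := by
        rw [div_lt_iff₀ hΛpos] at hs1; exact hs1
      linarith
    have hempty : (H'.filter (fun e => ∀ i, (i, e i) ∉ W)).card = 0 := by
      have h1 := lt_of_le_of_lt hWm hsmallN
      have h2 : (H'.filter (fun e => ∀ i, (i, e i) ∉ W)).card < 1 := by exact_mod_cast h1
      omega
    have hcover : IsCover W H' := by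
      intro e he
      by_contra hno
      push Not at hno
      rw [Finset.card_eq_zero] at hempty
      have : e ∈ H'.filter (fun e => ∀ i, (i, e i) ∉ W) := Finset.mem_filter.mpr ⟨he, hno⟩
      rw [hempty] at this
      simp at this
    have h1 : tau H ≤ r * s := htau.trans ((tau_le_of_cover H' W hcover).trans hWc)
    have h2 : t ≤ r * s := by rw [ht]; exact_mod_cast h1
    set y : ℝ := t / r with hy
    have hypos : 0 < y := by positivity
    have hty : t = r * y := by rw [hy]; field_simp
    have h3 : y ≤ 1 + 2 * ρ * (1 + Real.log (1 + y)) := by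
      have h4 : y ≤ s := by
        rw [hty] at h2
        exact le_of_mul_le_mul_left h2 (by linarith)
      have h5 : Real.log N / Λ ≤ 2 * ρ * (1 + Real.log (1 + y)) := by
        rw [div_le_iff₀ hΛpos]
        have h6 : 0 ≤ 1 + Real.log (1 + y) := by
          have := Real.log_nonneg (show 1 ≤ 1 + y by linarith)
          linarith
        have h7 : r * (1 + Real.log (1 + y)) ≤ 2 * ρ * (1 + Real.log (1 + y)) * Λ := by
          have h8 : (r : ℝ) ≤ 2 * ρ * Λ := by
            have : (r : ℝ) = 2 * ρ * (L / 2) := by rw [hρdef]; field_simp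
            rw [this]
            exact mul_le_mul_of_nonneg_left hΛL (by positivity)
          nlinarith
        linarith
      linarith
    have h4 : Real.log (1 + y) ≤ Real.log (4 * ρ) + (1 + y) / (4 * ρ) - 1 := by
      have h5 := Real.log_le_sub_one_of_pos (show 0 < (1 + y) / (4 * ρ) by positivity)
      rw [Real.log_div (by positivity) (by positivity)] at h5
      linarith
    have h5 : y ≤ 3 + 4 * ρ * Real.log (4 * ρ) := by
      have h6 : 2 * ρ * (1 + Real.log (1 + y)) ≤ 2 * ρ * Real.log (4 * ρ) + (1 + y) / 2 := by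
        have h7 : 2 * ρ * (1 + Real.log (1 + y)) ≤ 2 * ρ * (1 + (Real.log (4 * ρ) + (1 + y) / (4 * ρ) - 1)) := by
          apply mul_le_mul_of_nonneg_left _ (by positivity)
          linarith
        have h8 : 2 * ρ * (1 + (Real.log (4 * ρ) + (1 + y) / (4 * ρ) - 1)) =
            2 * ρ * Real.log (4 * ρ) + (1 + y) / 2 := by field_simp; ring
        linarith
      linarith
    have h6 : Real.log (4 * ρ) = 2 * Real.log 2 + Real.log ρ := by
      rw [Real.log_mul (by norm_num) hρpos.ne', show (4 : ℝ) = 2 ^ 2 by norm_num, Real.log_pow]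
      norm_num
    rw [h6] at h5
    have h7 := Real.log_two_lt_d9
    have h8 : y ≤ 15 * ρ * (1 + Real.log ρ) := by
      have h9 : 0 ≤ ρ * Real.log ρ := by positivity
      nlinarith
    rw [hty]
    calc (r : ℝ) * y ≤ r * (15 * ρ * (1 + Real.log ρ)) := mul_le_mul_of_nonneg_left h8 (by linarith)
      _ = 15 * (r * ρ) * (1 + Real.log ρ) := by ring

theorem upper_main : ∀ r k : ℕ, 1 ≤ r → r < k → Real.log k ≤ r →
    ∀ H : Finset (Fin r → ℕ), IntersectinglyCovered k H →
      (tau H : ℝ) ≤ 15 * ((r : ℝ) ^ 2 / Real.log k) * (1 + Real.log ((r : ℝ) / Real.log k)) := by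
  intro r k hr hrk hkr H hH
  obtain ⟨C, hC⟩ := hH
  apply upper_cov r k hr hrk hkr H
  intro S hS hSk
  exact ⟨C S, (hC S hS hSk).1⟩

end H19RP
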